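import Pool.Agent.H810R3.Tub.Poly

set_option autoImplicit false

/-! Taylor polynomials as polynomial maps. -/

open MeasureTheory Set Filter Topology ENNReal NNReal Metric

namespace Pool.Agent.H810R3.Tub

variable {d : ℕ}

/-- One component of `v ↦ f (v - w, …, v - w)` as a polynomial. -/
noncomputable def mpol {j : ℕ} (f : ContinuousMultilinearMap ℝ (fun _ : Fin j => Vec d) (Vec d))
    (w : Vec d) (a : Fin d) : MvPolynomial (Fin d) ℝ :=
  ∑ r : Fin j → Fin d, MvPolynomial.C ((f (fun i => EuclideanSpace.single (r i) (1:ℝ))) a) *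
    ∏ i, (MvPolynomial.X (r i) - MvPolynomial.C (w (r i)))

theorem mpol_eval {j : ℕ} (f : ContinuousMultilinearMap ℝ (fun _ : Fin j => Vec d) (Vec d))
    (w v : Vec d) (a : Fin d) :
    MvPolynomial.eval (fun i => v i) (mpol f w a) = (f (fun _ => v - w)) a := by
  classical
  have hu : v - w = ∑ c, (v c - w c) • EuclideanSpace.single c (1:ℝ) := by
    ext i
    simp [Finset.sum_apply, Pi.single_apply]
  have h1 : f (fun _ => v - w) = ∑ r : Fin j → Fin d, (∏ i, (v (r i) - w (r i))) •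
      f (fun i => EuclideanSpace.single (r i) (1:ℝ)) := by
    rw [hu, ContinuousMultilinearMap.map_sum]
    refine Finset.sum_congr rfl fun r _ => ?_
    exact f.map_smul_univ (fun i => v (r i) - w (r i)) (fun i => EuclideanSpace.single (r i) (1:ℝ))
  rw [h1, mpol]
  simp [map_sum, map_mul, map_prod, mul_comm]

theorem mpol_deg {j : ℕ} (f : ContinuousMultilinearMap ℝ (fun _ : Fin j => Vec d) (Vec d))
    (w : Vec d) (a : Fin d) : (mpol f w a).totalDegree ≤ j := by
  apply MvPolynomial.totalDegree_finsetSum_le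
  intro r _
  refine (MvPolynomial.totalDegree_mul _ _).trans ?_
  rw [MvPolynomial.totalDegree_C, zero_add]
  refine (MvPolynomial.totalDegree_finsetProd _ _).trans ?_
  calc ∑ i : Fin j, (MvPolynomial.X (r i) - MvPolynomial.C (w (r i)) : MvPolynomial (Fin d) ℝ).totalDegree
      ≤ ∑ _i : Fin j, 1 := by
        refine Finset.sum_le_sum fun i _ => ?_
        refine (MvPolynomial.totalDegree_sub _ _).trans ?_
        rw [MvPolynomial.totalDegree_X, MvPolynomial.totalDegree_C]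
        simp
    _ = j := by simp

/-- The Taylor polynomial of order `k` of `b` at `w`. -/
noncomputable def tpol (b : Vec d → Vec d) (k : ℕ) (w : Vec d) (a : Fin d) : MvPolynomial (Fin d) ℝ :=
  ∑ j ∈ Finset.range (k + 1), MvPolynomial.C ((j.factorial : ℝ)⁻¹) * mpol (iteratedFDeriv ℝ j b w) w a

theorem tpol_deg (b : Vec d → Vec d) (k : ℕ) (w : Vec d) (a : Fin d) : (tpol b k w a).totalDegree ≤ k := by
  apply MvPolynomial.totalDegree_finsetSum_le
  intro j hj
  refine (MvPolynomial.totalDegree_mul _ _).trans ?_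
  rw [MvPolynomial.totalDegree_C, zero_add]
  exact (mpol_deg _ _ _).trans (Nat.lt_succ_iff.1 (Finset.mem_range.1 hj))

theorem tpol_eval (b : Vec d → Vec d) (k : ℕ) (w v : Vec d) :
    pmap (tpol b k w) v =
      ∑ j ∈ Finset.range (k + 1), (j.factorial : ℝ)⁻¹ • iteratedFDeriv ℝ j b w (fun _ => v - w) := by
  ext a
  show MvPolynomial.eval (fun i => v i) (tpol b k w a) = _
  unfold tpol
  rw [map_sum]
  simp only [map_mul, MvPolynomial.eval_C, mpol_eval]
  simp [Finset.sum_apply]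

theorem taylor {b : Vec d → Vec d} {k : ℕ} (hb : ContDiff ℝ (k + 1 : ℕ) b) {A : ℝ≥0}
    (hA : ∀ j ≤ k + 1, ∀ v, ‖v‖ ≤ 1 → ‖iteratedFDeriv ℝ j b v‖ ≤ A) {v w : Vec d}
    (hv : ‖v‖ ≤ 1) (hw : ‖w‖ ≤ 1) : ‖b v - pmap (tpol b k w) v‖ ≤ A * ‖v - w‖ ^ (k + 1) := by
  have h := map_add_eq_sum_add_integral_iteratedFDeriv (f := b) (x := w) (y := v - w) (n := k)
    (fun t _ => by exact_mod_cast hb.contDiffAt)
  rw [add_sub_cancel] at h
  rw [tpol_eval, h, add_sub_cancel_left, norm_smul, norm_inv, Real.norm_natCast]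
  have hint : ‖∫ t in (0:ℝ)..1, (1 - t) ^ k • iteratedFDeriv ℝ (k + 1) b (w + t • (v - w)) (fun _ => v - w)‖ ≤
      (A * ‖v - w‖ ^ (k + 1)) * |(1:ℝ) - 0| := by
    apply intervalIntegral.norm_integral_le_of_norm_le_const
    intro t ht
    rw [uIoc_of_le zero_le_one] at ht
    have hin : ‖w + t • (v - w)‖ ≤ 1 := by
      have : w + t • (v - w) = (1 - t) • w + t • v := by
        rw [smul_sub, sub_smul, one_smul]; abel
      rw [this]
      calc ‖(1 - t) • w + t • v‖ ≤ ‖(1 - t) • w‖ + ‖t • v‖ := norm_add_le _ _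
        _ = (1 - t) * ‖w‖ + t * ‖v‖ := by
            rw [norm_smul, norm_smul, Real.norm_of_nonneg (by linarith [ht.2]), Real.norm_of_nonneg ht.1.le]
        _ ≤ 1 := by nlinarith [ht.1, ht.2]
    rw [norm_smul, norm_pow, Real.norm_of_nonneg (by linarith [ht.2] : (0:ℝ) ≤ 1 - t)]
    have h1 : (1 - t) ^ k ≤ 1 := pow_le_one₀ (by linarith [ht.2]) (by linarith [ht.1])
    have h2 : ‖iteratedFDeriv ℝ (k + 1) b (w + t • (v - w)) (fun _ => v - w)‖ ≤ A * ‖v - w‖ ^ (k + 1) := by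
      refine (ContinuousMultilinearMap.le_opNorm _ _).trans ?_
      rw [Finset.prod_const, Finset.card_univ, Fintype.card_fin]
      exact mul_le_mul_of_nonneg_right (hA _ le_rfl _ hin) (by positivity)
    calc (1 - t) ^ k * ‖iteratedFDeriv ℝ (k + 1) b (w + t • (v - w)) (fun _ => v - w)‖
        ≤ 1 * (A * ‖v - w‖ ^ (k + 1)) := mul_le_mul h1 h2 (norm_nonneg _) zero_le_one
      _ = _ := one_mul _
  rw [sub_zero, abs_one, mul_one] at hint
  have hf : ((k.factorial : ℝ))⁻¹ ≤ 1 := inv_le_one_of_one_le₀ (by exact_mod_cast Nat.factorial_pos k)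
  calc _ ≤ 1 * (A * ‖v - w‖ ^ (k + 1)) := mul_le_mul hf hint (norm_nonneg _) zero_le_one
    _ = _ := one_mul _

/-- A bound for the Lipschitz constants of Taylor polynomials. -/
noncomputable def lc (k : ℕ) : ℝ≥0 := ∑ j ∈ Finset.range (k + 1), (j : ℝ≥0) * 3 ^ (j - 1)

theorem tpol_lip {b : Vec d → Vec d} {k : ℕ} {A : ℝ≥0}
    (hA : ∀ j ≤ k + 1, ∀ v, ‖v‖ ≤ 1 → ‖iteratedFDeriv ℝ j b v‖ ≤ A) {w : Vec d}
    (hw : ‖w‖ ≤ 1) : LipschitzOnWith (A * lc k) (pmap (tpol b k w)) (ball 0 2) := by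
  apply LipschitzOnWith.of_dist_le_mul
  intro x hx y hy
  rw [mem_ball, dist_zero_right] at hx hy
  rw [dist_eq_norm, dist_eq_norm, tpol_eval, tpol_eval, ← Finset.sum_sub_distrib]
  have hx3 : ‖x - w‖ ≤ 3 := (norm_sub_le _ _).trans (by linarith)
  have hy3 : ‖y - w‖ ≤ 3 := (norm_sub_le _ _).trans (by linarith)
  calc ‖∑ j ∈ Finset.range (k + 1), ((j.factorial : ℝ)⁻¹ • iteratedFDeriv ℝ j b w (fun _ => x - w) -
        (j.factorial : ℝ)⁻¹ • iteratedFDeriv ℝ j b w (fun _ => y - w))‖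
      ≤ ∑ j ∈ Finset.range (k + 1), ‖((j.factorial : ℝ)⁻¹ • iteratedFDeriv ℝ j b w (fun _ => x - w) -
        (j.factorial : ℝ)⁻¹ • iteratedFDeriv ℝ j b w (fun _ => y - w))‖ := norm_sum_le _ _
    _ ≤ ∑ j ∈ Finset.range (k + 1), A * ((j : ℝ) * 3 ^ (j - 1)) * ‖x - y‖ := by
        refine Finset.sum_le_sum fun j hj => ?_
        have hjk : j ≤ k := Nat.lt_succ_iff.1 (Finset.mem_range.1 hj)
        rw [← smul_sub, norm_smul, norm_inv, Real.norm_natCast]
        have hf : ((j.factorial : ℝ))⁻¹ ≤ 1 := inv_le_one_of_one_le₀ (by exact_mod_cast Nat.factorial_pos j)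
        have h1 := (iteratedFDeriv ℝ j b w).norm_image_sub_le (fun _ => x - w) (fun _ => y - w)
        rw [Fintype.card_fin] at h1
        have hmx : ‖(fun _ : Fin j => x - w)‖ ≤ 3 := (pi_norm_le_iff_of_nonneg (by norm_num)).2 (fun _ => hx3)
        have hmy : ‖(fun _ : Fin j => y - w)‖ ≤ 3 := (pi_norm_le_iff_of_nonneg (by norm_num)).2 (fun _ => hy3)
        have hmd : ‖((fun _ : Fin j => x - w) - fun _ : Fin j => y - w)‖ ≤ ‖x - y‖ := by
          apply (pi_norm_le_iff_of_nonneg (norm_nonneg _)).2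
          intro i
          show ‖(x - w) - (y - w)‖ ≤ ‖x - y‖
          rw [sub_sub_sub_cancel_right]
        have hAj := hA j (hjk.trans (Nat.le_succ k)) w hw
        calc _ ≤ 1 * (‖iteratedFDeriv ℝ j b w‖ * j * max ‖(fun _ : Fin j => x - w)‖ ‖(fun _ : Fin j => y - w)‖ ^ (j - 1) *
              ‖((fun _ : Fin j => x - w) - fun _ : Fin j => y - w)‖) :=
              mul_le_mul hf h1 (norm_nonneg _) zero_le_one
          _ ≤ 1 * (A * j * 3 ^ (j - 1) * ‖x - y‖) := by
              have hmax : max ‖(fun _ : Fin j => x - w)‖ ‖(fun _ : Fin j => y - w)‖ ≤ 3 := max_le hmx hmy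
              have hmax0 : 0 ≤ max ‖(fun _ : Fin j => x - w)‖ ‖(fun _ : Fin j => y - w)‖ :=
                (norm_nonneg _).trans (le_max_left _ _)
              gcongr
          _ = A * ((j : ℝ) * 3 ^ (j - 1)) * ‖x - y‖ := by ring
    _ = ((A * lc k : ℝ≥0) : ℝ) * ‖x - y‖ := by
        rw [← Finset.sum_mul, ← Finset.mul_sum]
        unfold lc
        push_cast
        ring

end Pool.Agent.H810R3.Tub
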