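import Pool.Agent.H810R3.Tub.Final
import Pool.Agent.H810R3.Tub.Smooth

set_option autoImplicit false

/-! The tube inequality for Lipschitz, polynomial and smooth families of lines. -/

open MeasureTheory Set Filter Topology ENNReal NNReal Metric

namespace Pool.Agent.H810R3.Tub

theorem enorm_sum {d : ℕ} {ι : Type} [Fintype ι] (δ : ℝ) (v β : ι → Vec d) (s : ι → ℝ) (x : Vec d) (t : ℝ) :
    ‖∑ i, (tube δ (dir (v i)) (WithLp.toLp 2 (β i + s i • v i, s i))).indicator (fun _ => (1 : ℝ))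
      (WithLp.toLp 2 (x, t))‖ₑ = Fe δ v β s x t := by
  have h0 : ∀ i, 0 ≤ (tube δ (dir (v i)) (WithLp.toLp 2 (β i + s i • v i, s i))).indicator
      (fun _ => (1 : ℝ)) (WithLp.toLp 2 (x, t)) := by
    intro i
    exact indicator_nonneg (fun _ _ => zero_le_one) _
  rw [Real.enorm_eq_ofReal (Finset.sum_nonneg fun i _ => h0 i),
    ENNReal.ofReal_sum_of_nonneg (fun i _ => h0 i)]
  unfold Fe
  refine Finset.sum_congr rfl fun i _ => ?_
  by_cases hm : (WithLp.toLp 2 (x, t) : Space d) ∈ tube δ (dir (v i)) (WithLp.toLp 2 (β i + s i • v i, s i))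
  · rw [indicator_of_mem hm, indicator_of_mem hm, ENNReal.ofReal_one]
  · rw [indicator_of_notMem hm, indicator_of_notMem hm, ENNReal.ofReal_zero]

/-- Few preimages only depends on the values in the ball of radius `2`. -/
theorem fewPre_congr {d : ℕ} {M : ℕ} {b g : Vec d → Vec d} (h : EqOn b g (ball 0 2))
    (hb : FewPre M b) : FewPre M g := by
  unfold FewPre at hb ⊢
  filter_upwards [hb] with t ht
  filter_upwards [ht] with y hy
  refine le_trans (Set.encard_le_encard ?_) hy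
  rintro v ⟨h1, h2, h3, h4⟩
  have hv : v ∈ ball (0 : Vec d) 2 := by simpa using h1
  have he : g =ᶠ[𝓝 v] b := by
    filter_upwards [isOpen_ball.mem_nhds hv] with w hw
    exact (h hw).symm
  refine ⟨h1, (he.differentiableAt_iff).1 h2, ?_, ?_⟩
  · rw [h hv]
    exact h3
  · unfold Dm at h4 ⊢
    rw [← he.fderiv_eq]
    exact h4

/-- The case of a globally Lipschitz map, with an unspecified form of the constant. -/
theorem aux (d : ℕ) (hd : 1 ≤ d) (q : ℝ) (hq : ((d : ℝ) + 1) / d < q) :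
    ∃ D : ℝ, 0 < D ∧ ∀ (L K S : ℝ≥0) (M : ℕ) (b : Vec d → Vec d), LipschitzWith L b → FewPre M b →
      ∀ δ : ℝ, 0 < δ → δ < 1 → ∀ (ι : Type) [Fintype ι] (v β : ι → Vec d) (s : ι → ℝ),
        (∀ i, ‖v i‖ ≤ 1) → (∀ i, |s i| ≤ S) → (∀ i, ‖β i - b (v i)‖ ≤ K * δ) →
        (∀ i j, i ≠ j → δ ≤ ‖dir (v i) - dir (v j)‖) → ∀ X : ℝ, 1 ≤ X → 2 * (4 + K + L + S) ≤ X →
        eLpNorm (fun y : Space d => ∑ i,
            (tube δ (dir (v i)) (WithLp.toLp 2 (β i + s i • v i, s i))).indicator (fun _ => (1 : ℝ)) y)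
            (ENNReal.ofReal q) volume
          ≤ ENNReal.ofReal (D * (1 + M : ℝ) ^ (1 - 1 / q) * X ^ d * δ ^ ((d : ℝ) / q) *
            (Fintype.card ι : ℝ) ^ (1 - 1 / (q * d))) := by
  have hd0 : (0 : ℝ) < d := by exact_mod_cast hd
  have hq0 : 0 < q := lt_trans (by positivity) hq
  have hdq : (d : ℝ) + 1 < q * d := by rwa [div_lt_iff₀ hd0] at hq
  have hr : 1 < (d : ℝ) * (q - 1) := by nlinarith
  have hq1 : 0 < q - 1 := by
    by_contra hcon
    push Not at hcon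
    nlinarith
  set E : ℝ := d * (2 * (d * (q - 1)) / (d * (q - 1) - 1)) * ((1 / 2) ^ d * om d) with hE
  have hc0 : 0 < 2 * (d * (q - 1)) / (d * (q - 1) - 1) := div_pos (by linarith) (by linarith)
  have hE0 : 0 < E := by
    have := om_pos (d := d)
    positivity
  refine ⟨E ^ (1 / q), Real.rpow_pos_of_pos hE0 _, ?_⟩
  intro L K S M b hb hM δ hδ hδ1 ι _ v β s hv hs hβ hsep X hX1 hX
  have hL0 : (0 : ℝ) ≤ L := L.2
  have hK0 : (0 : ℝ) ≤ K := K.2
  have hS0 : (0 : ℝ) ≤ S := S.2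
  have hM0 : (0 : ℝ) ≤ M := Nat.cast_nonneg _
  have hX0 : 0 < X := by linarith
  have hsep' : ∀ i j, i ≠ j → δ ≤ ‖v i - v j‖ := fun i j hij => (hsep i j hij).trans (dir_sub_le _ _)
  rcases isEmpty_or_nonempty ι with he | hne
  · have : (fun y : Space d => ∑ i,
            (tube δ (dir (v i)) (WithLp.toLp 2 (β i + s i • v i, s i))).indicator (fun _ => (1 : ℝ)) y) =
          fun _ => 0 := by
      funext y
      simp
    rw [this, eLpNorm_zero']
    exact zero_le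
  have hN1 : (1 : ℝ) ≤ (Fintype.card ι : ℝ) := by
    have := Fintype.card_pos (α := ι)
    exact_mod_cast this
  set N : ℝ := (Fintype.card ι : ℝ) with hN
  have hN0 : 0 < N := by linarith
  have hint := main_int hd hb hM hδ hδ1 v β s hv hs hβ hsep' hN hN1 hr
  rw [sub_add_cancel] at hint
  have hval : (M * (2 * (4 + K + L + S)) ^ d + 1 : ℝ) ^ (q - 1) * (2 * (4 + K + L + S)) ^ d * d *
        (2 * (d * (q - 1)) / (d * (q - 1) - 1)) * ((δ / 2) ^ d * om d) *
        (N * (N⁻¹ ^ ((d : ℝ)⁻¹)) ^ (1 - d * (q - 1))) ≤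
      (E * (1 + M : ℝ) ^ (q - 1) * (X ^ d) ^ q) * δ ^ d * N ^ (q - 1 / d) := by
    have e1 : N * (N⁻¹ ^ ((d : ℝ)⁻¹)) ^ (1 - d * (q - 1)) = N ^ (q - 1 / d) := by
      rw [Real.inv_rpow hN0.le, ← Real.rpow_neg hN0.le, ← Real.rpow_mul hN0.le]
      nth_rewrite 1 [← Real.rpow_one N]
      rw [← Real.rpow_add hN0]
      congr 1
      field_simp
      ring
    have e2 : (2 * (4 + K + L + S) : ℝ) ^ d ≤ X ^ d := by
      apply pow_le_pow_left₀ (by positivity) hX
    have e3 : (M * (2 * (4 + K + L + S)) ^ d + 1 : ℝ) ≤ (1 + M) * X ^ d := by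
      have h1 : (1 : ℝ) ≤ X ^ d := one_le_pow₀ hX1
      nlinarith [mul_le_mul_of_nonneg_left e2 hM0]
    have e4 : (M * (2 * (4 + K + L + S)) ^ d + 1 : ℝ) ^ (q - 1) ≤
        (1 + M : ℝ) ^ (q - 1) * (X ^ d) ^ (q - 1) := by
      rw [← Real.mul_rpow (by positivity) (by positivity)]
      exact Real.rpow_le_rpow (by positivity) e3 hq1.le
    have e5 : (X ^ d : ℝ) ^ q = (X ^ d) ^ (q - 1) * X ^ d := by
      conv_lhs => rw [← sub_add_cancel q 1]
      rw [Real.rpow_add_one (by positivity)]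
    have hom := om_pos (d := d)
    have hE' : (d : ℝ) * (2 * (d * (q - 1)) / (d * (q - 1) - 1)) * ((δ / 2) ^ d * om d) = E * δ ^ d := by
      rw [hE, div_pow, div_pow, one_pow]
      ring
    rw [e1]
    calc (M * (2 * (4 + K + L + S)) ^ d + 1 : ℝ) ^ (q - 1) * (2 * (4 + K + L + S)) ^ d * d *
        (2 * (d * (q - 1)) / (d * (q - 1) - 1)) * ((δ / 2) ^ d * om d) * N ^ (q - 1 / d)
        = ((M * (2 * (4 + K + L + S)) ^ d + 1 : ℝ) ^ (q - 1) * (2 * (4 + K + L + S)) ^ d) *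
          (d * (2 * (d * (q - 1)) / (d * (q - 1) - 1)) * ((δ / 2) ^ d * om d)) * N ^ (q - 1 / d) := by ring
      _ ≤ (((1 + M : ℝ) ^ (q - 1) * (X ^ d) ^ (q - 1)) * X ^ d) *
          (d * (2 * (d * (q - 1)) / (d * (q - 1) - 1)) * ((δ / 2) ^ d * om d)) * N ^ (q - 1 / d) := by
          gcongr
      _ = (E * (1 + M : ℝ) ^ (q - 1) * (X ^ d) ^ q) * δ ^ d * N ^ (q - 1 / d) := by
          rw [hE', e5]
          ring
  have hint := hint.trans (ENNReal.ofReal_le_ofReal hval)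
  -- the integral over the whole space
  set f : Space d → ℝ := fun y => ∑ i,
    (tube δ (dir (v i)) (WithLp.toLp 2 (β i + s i • v i, s i))).indicator (fun _ => (1 : ℝ)) y with hf
  have hfm : Measurable f := by
    apply Finset.measurable_sum
    intro i _
    exact measurable_const.indicator (tube_closed _ _ _).measurableSet
  have hmp := WithLp.volume_preserving_toLp (Vec d) ℝ
  have hS : ∫⁻ y : Space d, ‖f y‖ₑ ^ q = ∫⁻ t : ℝ, ∫⁻ x : Vec d, Fe δ v β s x t ^ q := by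
    have hg : Measurable (fun y : Space d => ‖f y‖ₑ ^ q) := hfm.enorm.pow_const _
    rw [← hmp.lintegral_comp hg]
    have hg2 : Measurable (fun p : Vec d × ℝ => ‖f (WithLp.toLp 2 p)‖ₑ ^ q) := hg.comp hmp.measurable
    rw [Measure.volume_eq_prod, lintegral_prod_symm _ hg2.aemeasurable]
    refine lintegral_congr fun t => lintegral_congr fun x => ?_
    rw [hf]
    simp only
    rw [enorm_sum]
  have hp0 : ENNReal.ofReal q ≠ 0 := by
    rw [ne_eq, ENNReal.ofReal_eq_zero, not_le]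
    exact hq0
  rw [eLpNorm_eq_lintegral_rpow_enorm_toReal hp0 ENNReal.ofReal_ne_top, ENNReal.toReal_ofReal hq0.le, hS]
  calc (∫⁻ t : ℝ, ∫⁻ x : Vec d, Fe δ v β s x t ^ q) ^ (1 / q)
      ≤ (ENNReal.ofReal ((E * (1 + M : ℝ) ^ (q - 1) * (X ^ d) ^ q) * δ ^ d * N ^ (q - 1 / d))) ^ (1 / q) :=
        ENNReal.rpow_le_rpow hint (by positivity)
    _ = ENNReal.ofReal (((E * (1 + M : ℝ) ^ (q - 1) * (X ^ d) ^ q) * δ ^ d * N ^ (q - 1 / d)) ^ (1 / q)) :=
        ENNReal.ofReal_rpow_of_pos (by positivity)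
    _ = ENNReal.ofReal (E ^ (1 / q) * (1 + M : ℝ) ^ (1 - 1 / q) * X ^ d * δ ^ ((d : ℝ) / q) *
          N ^ (1 - 1 / (q * d))) := by
        congr 1
        rw [Real.mul_rpow (by positivity) (by positivity), Real.mul_rpow (by positivity) (by positivity),
          Real.mul_rpow (by positivity) (by positivity), Real.mul_rpow hE0.le (by positivity),
          ← Real.rpow_natCast δ d, ← Real.rpow_mul hδ.le, ← Real.rpow_mul hN0.le,
          ← Real.rpow_mul (by positivity), ← Real.rpow_mul (by positivity)]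
        have f1 : (q - 1) * (1 / q) = 1 - 1 / q := by field_simp
        have f2 : q * (1 / q) = 1 := by field_simp
        have f3 : (d : ℝ) * (1 / q) = d / q := by ring
        have f4 : (q - 1 / d) * (1 / q) = 1 - 1 / (q * d) := by field_simp
        rw [f1, f2, f3, f4, Real.rpow_one]

/-- The bound for Lipschitz families of lines with multiplicity at most `M`. -/
theorem lipschitz (d : ℕ) (hd : 1 ≤ d) (q : ℝ) (hq : ((d : ℝ) + 1) / d < q) :
    ∃ C : ℝ, 0 < C ∧ ∀ (L K S : ℝ≥0) (M : ℕ) (b : Vec d → Vec d),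
      LipschitzOnWith L b (ball 0 2) → FewPre M b →
      ∀ δ : ℝ, 0 < δ → δ < 1 → ∀ (ι : Type) [Fintype ι] (v β : ι → Vec d) (s : ι → ℝ),
        (∀ i, ‖v i‖ ≤ 1) → (∀ i, |s i| ≤ S) → (∀ i, ‖β i - b (v i)‖ ≤ K * δ) →
        (∀ i j, i ≠ j → δ ≤ ‖dir (v i) - dir (v j)‖) →
        eLpNorm (fun y : Space d => ∑ i,
            (tube δ (dir (v i)) (WithLp.toLp 2 (β i + s i • v i, s i))).indicator (fun _ => (1 : ℝ)) y)
            (ENNReal.ofReal q) volume
          ≤ ENNReal.ofReal (C * (1 + M : ℝ) ^ (1 - 1 / q) * (1 + K + L + S : ℝ) ^ d *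
              δ ^ ((d : ℝ) / q) * (Fintype.card ι : ℝ) ^ (1 - 1 / (q * d))) := by
  obtain ⟨D, hD0, hD⟩ := aux d hd q hq
  set c : ℝ≥0 := lipschitzExtensionConstant (Vec d) with hc
  have hc0 : (0 : ℝ) ≤ c := c.2
  refine ⟨D * (8 * (1 + c)) ^ d, by positivity, ?_⟩
  intro L K S M b hb hM δ hδ hδ1 ι _ v β s hv hs hβ hsep
  have hL0 : (0 : ℝ) ≤ L := L.2
  have hK0 : (0 : ℝ) ≤ K := K.2
  have hS0 : (0 : ℝ) ≤ S := S.2
  obtain ⟨g, hg1, hg2⟩ := hb.extend_finite_dimension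
  have hgM : FewPre M g := fewPre_congr hg2 hM
  have hβ' : ∀ i, ‖β i - g (v i)‖ ≤ K * δ := by
    intro i
    rw [← hg2 (show v i ∈ ball (0 : Vec d) 2 by
      rw [mem_ball, dist_zero_right]
      linarith [hv i])]
    exact hβ i
  have key := hD (lipschitzExtensionConstant (Vec d) * L) K S M g hg1 hgM δ hδ hδ1 ι v β s hv hs hβ' hsep
    (8 * (1 + c) * (1 + K + L + S)) (by nlinarith [mul_nonneg hc0 (show (0:ℝ) ≤ 1 + K + L + S by positivity)])
    (by
      rw [← hc]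
      push_cast
      nlinarith [mul_nonneg hc0 hL0, mul_nonneg hc0 hK0, mul_nonneg hc0 hS0])
  refine key.trans (le_of_eq ?_)
  congr 1
  rw [mul_pow (8 * (1 + (c : ℝ))) (1 + K + L + S : ℝ) d]
  ring

/-- The bound for polynomial families of lines. -/
theorem polynomial (d : ℕ) (hd : 1 ≤ d) (q : ℝ) (hq : ((d : ℝ) + 1) / d < q) (k : ℕ) :
    ∃ C : ℝ, 0 < C ∧ ∀ (L K S : ℝ≥0) (P : Fin d → MvPolynomial (Fin d) ℝ),
      (∀ j, (P j).totalDegree ≤ k) → LipschitzOnWith L (pmap P) (ball 0 2) →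
      ∀ δ : ℝ, 0 < δ → δ < 1 → ∀ (ι : Type) [Fintype ι] (v β : ι → Vec d) (s : ι → ℝ),
        (∀ i, ‖v i‖ ≤ 1) → (∀ i, |s i| ≤ S) → (∀ i, ‖β i - pmap P (v i)‖ ≤ K * δ) →
        (∀ i j, i ≠ j → δ ≤ ‖dir (v i) - dir (v j)‖) →
        eLpNorm (fun y : Space d => ∑ i,
            (tube δ (dir (v i)) (WithLp.toLp 2 (β i + s i • v i, s i))).indicator (fun _ => (1 : ℝ)) y)
            (ENNReal.ofReal q) volume
          ≤ ENNReal.ofReal (C * (1 + K + L + S : ℝ) ^ d *
              δ ^ ((d : ℝ) / q) * (Fintype.card ι : ℝ) ^ (1 - 1 / (q * d))) := by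
  obtain ⟨C, hC, h⟩ := lipschitz d hd q hq
  refine ⟨C * (1 + (((max k 1 * d + 1) ^ d) ^ d : ℕ) : ℝ) ^ (1 - 1 / q), by positivity, ?_⟩
  intro L K S P hP hL δ hδ hδ1 ι _ v β s hv hs hβ hsep
  exact h L K S _ (pmap P) hL
    (pmap_few hd (le_max_right k 1) P (fun j => (hP j).trans (le_max_left k 1)))
    δ hδ hδ1 ι v β s hv hs hβ hsep

/-- A crude concavity bound. -/
theorem sum_rpow_le {κ : Type} (I : Finset κ) (n : κ → ℝ) (hn : ∀ c ∈ I, 0 ≤ n c) {N J θ : ℝ}
    (hN : ∑ c ∈ I, n c = N) (hN0 : 0 < N) (hJ : (I.card : ℝ) ≤ J) (hJ0 : 0 < J) (hθ0 : 0 < θ)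
    (hθ1 : θ < 1) : ∑ c ∈ I, n c ^ θ ≤ 2 * (J ^ (1 - θ) * N ^ θ) := by
  have hl : 0 < N / J := div_pos hN0 hJ0
  have hpt : ∀ c ∈ I, n c ^ θ ≤ (N / J) ^ θ * (1 + n c / (N / J)) := by
    intro c hc
    have h0 : 0 ≤ n c / (N / J) := div_nonneg (hn c hc) hl.le
    have h1 : (n c / (N / J)) ^ θ ≤ 1 + n c / (N / J) := by
      rcases le_total (n c / (N / J)) 1 with h | h
      · have := Real.rpow_le_one h0 h hθ0.le
        linarith
      · have := Real.rpow_le_rpow_of_exponent_le h hθ1.le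
        rw [Real.rpow_one] at this
        linarith
    calc n c ^ θ = ((N / J) * (n c / (N / J))) ^ θ := by
          congr 1
          field_simp
      _ = (N / J) ^ θ * (n c / (N / J)) ^ θ := Real.mul_rpow hl.le h0
      _ ≤ _ := mul_le_mul_of_nonneg_left h1 (Real.rpow_nonneg hl.le _)
  calc ∑ c ∈ I, n c ^ θ ≤ ∑ c ∈ I, (N / J) ^ θ * (1 + n c / (N / J)) := Finset.sum_le_sum hpt
    _ = (N / J) ^ θ * (I.card + N / (N / J)) := by
        rw [← Finset.mul_sum, Finset.sum_add_distrib, ← Finset.sum_div, hN]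
        simp
    _ ≤ (N / J) ^ θ * (2 * J) := by
        apply mul_le_mul_of_nonneg_left _ (Real.rpow_nonneg hl.le _)
        have : N / (N / J) = J := by field_simp
        rw [this]
        linarith
    _ = 2 * (J ^ (1 - θ) * N ^ θ) := by
        rw [Real.div_rpow hN0.le hJ0.le, Real.rpow_sub hJ0, Real.rpow_one]
        ring

/-- The cell of a point. -/
noncomputable def cell {d : ℕ} (ρ : ℝ) (v : Vec d) : Fin d → ℤ := fun a => ⌊v a / ρ⌋

theorem cell_close {d : ℕ} {ρ : ℝ} (hρ : 0 < ρ) {v w : Vec d} (h : cell ρ v = cell ρ w) :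
    ‖v - w‖ ≤ d * ρ := by
  have h1 : ∀ a, |v a - w a| ≤ ρ := by
    intro a
    have h2 : ⌊v a / ρ⌋ = ⌊w a / ρ⌋ := congr_fun h a
    have h3 : |v a / ρ - w a / ρ| < 1 := Int.abs_sub_lt_one_of_floor_eq_floor h2
    rw [← _root_.sub_div, abs_div, abs_of_pos hρ, div_lt_one hρ] at h3
    exact h3.le
  have hd0 : (0 : ℝ) ≤ d := Nat.cast_nonneg d
  apply le_of_sq_le_sq _ (by positivity)
  rw [EuclideanSpace.real_norm_sq_eq]
  calc ∑ a, ((v - w) a) ^ 2 ≤ ∑ _a : Fin d, ρ ^ 2 := by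
        refine Finset.sum_le_sum fun a _ => ?_
        have := h1 a
        rw [← sq_abs]
        exact pow_le_pow_left₀ (abs_nonneg _) this 2
    _ = d * ρ ^ 2 := by simp
    _ ≤ (d * ρ) ^ 2 := by
        rcases Nat.eq_zero_or_pos d with h0 | h0
        · subst h0; simp
        · have : (1 : ℝ) ≤ d := by exact_mod_cast h0
          nlinarith [mul_nonneg (sub_nonneg.2 this) (mul_nonneg hd0 (sq_nonneg ρ))]

theorem cell_card {d : ℕ} {ρ : ℝ} (hρ : 0 < ρ) (hρ1 : ρ ≤ 1) {ι : Type} [Fintype ι] (v : ι → Vec d)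
    (hv : ∀ i, ‖v i‖ ≤ 1) :
    ((Finset.univ.image (fun i => cell ρ (v i))).card : ℝ) ≤ (5 / ρ) ^ d := by
  classical
  set m : ℤ := ⌈1 / ρ⌉ with hm
  have hm0 : 0 ≤ m := Int.ceil_nonneg (by positivity)
  have hsub : Finset.univ.image (fun i => cell ρ (v i)) ⊆ Fintype.piFinset (fun _ : Fin d => Finset.Icc (-m) m) := by
    intro c hc
    obtain ⟨i, _, rfl⟩ := Finset.mem_image.1 hc
    rw [Fintype.mem_piFinset]
    intro a
    rw [Finset.mem_Icc]
    have h1 : |v i a| ≤ 1 := by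
      have := PiLp.norm_apply_le (v i) a
      rw [Real.norm_eq_abs] at this
      exact this.trans (hv i)
    have h2 := abs_le.1 h1
    have h3 : 1 / ρ ≤ m := Int.le_ceil _
    constructor
    · apply Int.le_floor.2
      push_cast
      have : -(1 / ρ) ≤ v i a / ρ := by
        rw [← neg_div]
        exact div_le_div_of_nonneg_right h2.1 hρ.le
      linarith
    · have h4 : (⌊v i a / ρ⌋ : ℝ) ≤ v i a / ρ := Int.floor_le _
      have h5 : v i a / ρ ≤ 1 / ρ := div_le_div_of_nonneg_right h2.2 hρ.le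
      have h6 : (⌊v i a / ρ⌋ : ℝ) ≤ m := by linarith
      exact_mod_cast h6
  have hcard := Finset.card_le_card hsub
  rw [Fintype.card_piFinset] at hcard
  simp only [Finset.prod_const, Finset.card_univ, Fintype.card_fin, Int.card_Icc] at hcard
  have h7 : ((m + 1 - -m).toNat : ℝ) ≤ 5 / ρ := by
    have e : (((m + 1 - -m).toNat : ℤ) : ℝ) = (m + 1 - -m : ℤ) := by
      rw [Int.toNat_of_nonneg (by omega)]
    rw [Int.cast_natCast] at e
    rw [e]
    push_cast
    have h8 : (m : ℝ) < 1 / ρ + 1 := Int.ceil_lt_add_one _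
    have h9 : 1 ≤ 1 / ρ := by
      rw [le_div_iff₀ hρ]; linarith
    have h10 : 5 / ρ = 5 * (1 / ρ) := by ring
    rw [h10]
    linarith
  calc ((Finset.univ.image (fun i => cell ρ (v i))).card : ℝ) ≤ (((m + 1 - -m).toNat ^ d : ℕ) : ℝ) := by
        exact_mod_cast hcard
    _ = ((m + 1 - -m).toNat : ℝ) ^ d := by push_cast; ring
    _ ≤ (5 / ρ) ^ d := pow_le_pow_left₀ (Nat.cast_nonneg _) h7 d

/-- The bound with a small loss for `C^(k+1)` families of lines. -/
theorem smooth (d : ℕ) (hd : 1 ≤ d) (q : ℝ) (hq : ((d : ℝ) + 1) / d < q) (k : ℕ) :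
    ∃ C : ℝ, 0 < C ∧ ∀ (A K S : ℝ≥0) (b : Vec d → Vec d),
      ContDiff ℝ (k + 1 : ℕ) b → (∀ j ≤ k + 1, ∀ v, ‖v‖ ≤ 1 → ‖iteratedFDeriv ℝ j b v‖ ≤ A) →
      ∀ δ : ℝ, 0 < δ → δ < 1 → ∀ (ι : Type) [Fintype ι] (v β : ι → Vec d) (s : ι → ℝ),
        (∀ i, ‖v i‖ ≤ 1) → (∀ i, |s i| ≤ S) → (∀ i, ‖β i - b (v i)‖ ≤ K * δ) →
        (∀ i j, i ≠ j → δ ≤ ‖dir (v i) - dir (v j)‖) →
        eLpNorm (fun y : Space d => ∑ i,
            (tube δ (dir (v i)) (WithLp.toLp 2 (β i + s i • v i, s i))).indicator (fun _ => (1 : ℝ)) y)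
            (ENNReal.ofReal q) volume
          ≤ ENNReal.ofReal (C * (1 + K + A + S : ℝ) ^ d * δ ^ (-(1 / (q * (k + 1)))) *
              δ ^ ((d : ℝ) / q) * (Fintype.card ι : ℝ) ^ (1 - 1 / (q * d))) := by
  classical
  obtain ⟨D, hD0, hD⟩ := polynomial d hd q hq k
  have hd0 : (0 : ℝ) < d := by exact_mod_cast hd
  have hq0 : 0 < q := lt_trans (by positivity) hq
  have hdq : (d : ℝ) + 1 < q * d := by rwa [div_lt_iff₀ hd0] at hq
  have hq1 : 1 ≤ q := by nlinarith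
  have hc0 : (0 : ℝ) ≤ lc k := (lc k).2
  refine ⟨D * (1 + d ^ (k + 1) + lc k) ^ d * (2 * 5 ^ (1 / q)), by positivity, ?_⟩
  intro A K S b hb hA δ hδ hδ1 ι _ v β s hv hs hβ hsep
  have hA0 : (0 : ℝ) ≤ A := A.2
  have hK0 : (0 : ℝ) ≤ K := K.2
  have hS0 : (0 : ℝ) ≤ S := S.2
  set G : ι → Space d → ℝ := fun i => (tube δ (dir (v i)) (WithLp.toLp 2 (β i + s i • v i, s i))).indicator
    (fun _ => (1 : ℝ)) with hG
  rcases isEmpty_or_nonempty ι with he | hne
  · have : (fun y : Space d => ∑ i, G i y) = fun _ => 0 := by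
      funext y
      simp
    rw [this, eLpNorm_zero']
    exact zero_le
  have hN1 : (1 : ℝ) ≤ (Fintype.card ι : ℝ) := by
    have := Fintype.card_pos (α := ι)
    exact_mod_cast this
  set N : ℝ := (Fintype.card ι : ℝ) with hN
  have hN0 : 0 < N := by linarith
  set ρ : ℝ := δ ^ (1 / ((k : ℝ) + 1)) with hρ
  have hk0 : (0 : ℝ) < (k : ℝ) + 1 := by positivity
  have hρ0 : 0 < ρ := Real.rpow_pos_of_pos hδ _
  have hρ1 : ρ ≤ 1 := Real.rpow_le_one hδ.le hδ1.le (by positivity)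
  have hρk : ρ ^ (k + 1) = δ := by
    rw [hρ, ← Real.rpow_natCast, ← Real.rpow_mul hδ.le]
    push_cast
    rw [one_div, inv_mul_cancel₀ hk0.ne', Real.rpow_one]
  set θ : ℝ := 1 - 1 / (q * d) with hθ
  have hqd : 1 < q * d := by linarith
  have hθ0 : 0 < θ := by
    rw [hθ, sub_pos, div_lt_one (by linarith)]
    exact hqd
  have hθ1 : θ < 1 := by
    rw [hθ]
    have : 0 < 1 / (q * d) := by positivity
    linarith
  set cl : ι → Fin d → ℤ := fun i => cell ρ (v i) with hcl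
  set I : Finset (Fin d → ℤ) := Finset.univ.image cl with hI
  set X : ℝ := D * (1 + (K + A * d ^ (k + 1)) + A * lc k + S) ^ d * δ ^ ((d : ℝ) / q) with hX
  have hX0 : 0 ≤ X := by positivity
  have hGm : ∀ i, Measurable (G i) := fun i => measurable_const.indicator (tube_closed _ _ _).measurableSet
  -- one cell
  have hcell : ∀ c ∈ I, eLpNorm (fun y => ∑ i ∈ Finset.univ.filter (fun i => cl i = c), G i y)
      (ENNReal.ofReal q) volume ≤
      ENNReal.ofReal (X * ((Finset.univ.filter (fun i => cl i = c)).card : ℝ) ^ θ) := by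
    intro c hc
    obtain ⟨i₀, _, hi₀⟩ := Finset.mem_image.1 hc
    set w := v i₀ with hw
    have hw1 : ‖w‖ ≤ 1 := hv i₀
    have key := hD (A * lc k) (K + A * d ^ (k + 1)) S (tpol b k w) (tpol_deg b k w) (tpol_lip hA hw1)
      δ hδ hδ1 {i // cl i = c} (fun i => v i.1) (fun i => β i.1) (fun i => s i.1)
      (fun i => hv i.1) (fun i => hs i.1) (by
        intro i
        have h1 : ‖v i.1 - w‖ ≤ d * ρ := cell_close hρ0 (i.2.trans hi₀.symm)
        have h2 := taylor hb hA (hv i.1) hw1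
        calc ‖β i.1 - pmap (tpol b k w) (v i.1)‖
            = ‖(β i.1 - b (v i.1)) + (b (v i.1) - pmap (tpol b k w) (v i.1))‖ := by congr 1; abel
          _ ≤ ‖β i.1 - b (v i.1)‖ + ‖b (v i.1) - pmap (tpol b k w) (v i.1)‖ := norm_add_le _ _
          _ ≤ K * δ + A * (d * ρ) ^ (k + 1) := by
              refine add_le_add (hβ i.1) (h2.trans ?_)
              exact mul_le_mul_of_nonneg_left (pow_le_pow_left₀ (norm_nonneg _) h1 _) hA0
          _ = ((K + A * d ^ (k + 1) : ℝ≥0) : ℝ) * δ := by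
              rw [mul_pow, hρk]
              push_cast
              ring)
      (fun i j hij => hsep i.1 j.1 (fun h => hij (Subtype.ext h)))
    have e1 : (fun y => ∑ i ∈ Finset.univ.filter (fun i => cl i = c), G i y) =
        fun y : Space d => ∑ i : {i // cl i = c}, (tube δ (dir (v i.1))
          (WithLp.toLp 2 (β i.1 + s i.1 • v i.1, s i.1))).indicator (fun _ => (1 : ℝ)) y := by
      funext y
      exact Finset.sum_subtype _ (by simp) (fun i => G i y)
    have e2 : (Finset.univ.filter (fun i => cl i = c)).card = Fintype.card {i // cl i = c} :=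
      (Fintype.card_subtype _).symm
    rw [e1, e2]
    refine key.trans (le_of_eq ?_)
    congr 1
  have hsum : (fun y : Space d => ∑ i, G i y) =
      ∑ c ∈ I, (fun y => ∑ i ∈ Finset.univ.filter (fun i => cl i = c), G i y) := by
    funext y
    rw [Finset.sum_apply]
    exact (Finset.sum_fiberwise_of_maps_to (fun i hi => Finset.mem_image_of_mem cl hi) (fun i => G i y)).symm
  have hNs : ∑ c ∈ I, ((Finset.univ.filter (fun i => cl i = c)).card : ℝ) = N := by
    rw [hN, ← Nat.cast_sum]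
    congr 1
    exact (Finset.card_eq_sum_card_fiberwise (fun i hi => Finset.mem_coe.2 (Finset.mem_image_of_mem cl hi))).symm
  have hcard : (I.card : ℝ) ≤ (5 / ρ) ^ d := cell_card hρ0 hρ1 v hv
  have hconc := sum_rpow_le I (fun c => ((Finset.univ.filter (fun i => cl i = c)).card : ℝ))
    (fun c _ => Nat.cast_nonneg _) hNs hN0 hcard (by positivity) hθ0 hθ1
  have hJ : ((5 / ρ) ^ d) ^ (1 - θ) = 5 ^ (1 / q) * δ ^ (-(1 / (q * (k + 1)))) := by
    have e1 : 1 - θ = 1 / (q * d) := by rw [hθ]; ring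
    rw [e1, ← Real.rpow_natCast, ← Real.rpow_mul (by positivity)]
    have e2 : (d : ℝ) * (1 / (q * d)) = 1 / q := by field_simp
    rw [e2, Real.div_rpow (by norm_num) hρ0.le, hρ, ← Real.rpow_mul hδ.le, Real.rpow_neg hδ.le, div_eq_mul_inv]
    congr 3
    field_simp
  rw [hsum]
  refine (eLpNorm_sum_le (fun c _ => (Finset.measurable_sum _ (fun i _ => hGm i)).aestronglyMeasurable)
    (by rw [← ENNReal.ofReal_one]; exact ENNReal.ofReal_le_ofReal hq1)).trans ?_
  calc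
    ∑ c ∈ I, eLpNorm (fun y => ∑ i ∈ Finset.univ.filter (fun i => cl i = c), G i y)
        (ENNReal.ofReal q) volume
      ≤ ∑ c ∈ I, ENNReal.ofReal (X * ((Finset.univ.filter (fun i => cl i = c)).card : ℝ) ^ θ) :=
        Finset.sum_le_sum hcell
    _ = ENNReal.ofReal (X * ∑ c ∈ I, ((Finset.univ.filter (fun i => cl i = c)).card : ℝ) ^ θ) := by
        rw [← ENNReal.ofReal_sum_of_nonneg (fun c _ => by positivity), Finset.mul_sum]
    _ ≤ ENNReal.ofReal (X * (2 * (((5 / ρ) ^ d) ^ (1 - θ) * N ^ θ))) :=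
        ENNReal.ofReal_le_ofReal (mul_le_mul_of_nonneg_left hconc hX0)
    _ ≤ ENNReal.ofReal (D * (1 + d ^ (k + 1) + lc k) ^ d * (2 * 5 ^ (1 / q)) * (1 + K + A + S : ℝ) ^ d *
          δ ^ (-(1 / (q * (k + 1)))) * δ ^ ((d : ℝ) / q) * N ^ θ) := by
        apply ENNReal.ofReal_le_ofReal
        rw [hJ, hX]
        have e3 : (1 + (K + A * d ^ (k + 1)) + A * lc k + S : ℝ) ^ d ≤
            ((1 + d ^ (k + 1) + lc k) * (1 + K + A + S)) ^ d := by
          apply pow_le_pow_left₀ (by positivity)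
          have h1 : (0 : ℝ) ≤ d ^ (k + 1) := by positivity
          nlinarith [mul_nonneg h1 hK0, mul_nonneg h1 hS0, mul_nonneg hc0 hK0, mul_nonneg hc0 hS0]
        rw [mul_pow] at e3
        have hp : (0 : ℝ) ≤ D * (2 * 5 ^ (1 / q)) * δ ^ (-(1 / (q * (k + 1)))) * δ ^ ((d : ℝ) / q) * N ^ θ := by
          positivity
        have := mul_le_mul_of_nonneg_right e3 hp
        linarith

end Pool.Agent.H810R3.Tub
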