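import Pool.Agent.H810R3.Tub.Sep

set_option autoImplicit false

/-! Boxes dual to caps of the paraboloid. -/

open MeasureTheory Set Filter Topology ENNReal NNReal Metric

namespace Pool.Agent.H810R3.Tub

variable {d : ℕ}

/-- The unit normal `(-2ω, 1)/√(1+4|ω|²)` of the paraboloid at the point `(ω, |ω|²)`. -/
noncomputable def nor (ω : Vec d) : Space d := dir (-(2 : ℝ) • ω)

/-- The box with centre `a`, side `N²` in the direction `e` and sides `N` in the directions `f j`. -/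
def box (N : ℝ) (e : Space d) (f : Fin d → Space d) (a : Space d) : Set (Space d) :=
  {y | |inner ℝ e (y - a)| ≤ N ^ 2 / 2 ∧ ∀ j, |inner ℝ (f j) (y - a)| ≤ N / 2}

theorem finrank_space : Module.finrank ℝ (Space d) = d + 1 := by
  have h := (WithLp.linearEquiv 2 ℝ (Vec d × ℝ)).finrank_eq
  rw [h, Module.finrank_prod, finrank_euclideanSpace_fin, Module.finrank_self]

/-- The orthonormal basis `(e, f)`. -/
noncomputable def frame {e : Space d} {f : Fin d → Space d}
    (h : Orthonormal ℝ (Fin.cons e f : Fin (d + 1) → Space d)) :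
    OrthonormalBasis (Fin (d + 1)) ℝ (Space d) :=
  (basisOfOrthonormalOfCardEqFinrank h (by rw [Fintype.card_fin, finrank_space])).toOrthonormalBasis
    (by rw [coe_basisOfOrthonormalOfCardEqFinrank]; exact h)

theorem frame_coe {e : Space d} {f : Fin d → Space d}
    (h : Orthonormal ℝ (Fin.cons e f : Fin (d + 1) → Space d)) (i : Fin (d + 1)) :
    frame h i = (Fin.cons e f : Fin (d + 1) → Space d) i := by
  unfold frame
  rw [Module.Basis.coe_toOrthonormalBasis, coe_basisOfOrthonormalOfCardEqFinrank]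

theorem norm_sq_frame {e : Space d} {f : Fin d → Space d}
    (h : Orthonormal ℝ (Fin.cons e f : Fin (d + 1) → Space d)) (z : Space d) :
    ‖z‖ ^ 2 = (inner ℝ e z) ^ 2 + ∑ j, (inner ℝ (f j) z) ^ 2 := by
  have h1 := (frame h).sum_sq_norm_inner_right z
  rw [Fin.sum_univ_succ] at h1
  simp only [frame_coe, Fin.cons_zero, Fin.cons_succ, Real.norm_eq_abs, sq_abs] at h1
  exact h1.symm

theorem norm_e {e : Space d} {f : Fin d → Space d}
    (h : Orthonormal ℝ (Fin.cons e f : Fin (d + 1) → Space d)) : ‖e‖ = 1 := by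
  have := h.1 0
  simpa using this

/-- The part of a point of a box orthogonal to the axis. -/
theorem box_perp {N : ℝ} (hN : 1 ≤ N) {e : Space d} {f : Fin d → Space d}
    (h : Orthonormal ℝ (Fin.cons e f : Fin (d + 1) → Space d)) {a y : Space d} (hy : y ∈ box N e f a) :
    ‖(y - a) - (inner ℝ e (y - a) : ℝ) • e‖ ≤ d * N / 2 := by
  set z := y - a with hz
  have he := norm_e h
  have hd0 : (0 : ℝ) ≤ d := Nat.cast_nonneg d
  have h1 : ‖z - (inner ℝ e z : ℝ) • e‖ ^ 2 = ∑ j, (inner ℝ (f j) z) ^ 2 := by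
    have e1 : ‖z - (inner ℝ e z : ℝ) • e‖ ^ 2 = ‖z‖ ^ 2 - (inner ℝ e z) ^ 2 := by
      rw [@norm_sub_sq_real, norm_smul, inner_smul_right, real_inner_comm e z, he, Real.norm_eq_abs, mul_one,
        sq_abs]
      ring
    rw [e1, norm_sq_frame h z]
    ring
  have h2 : ∑ j, (inner ℝ (f j) z) ^ 2 ≤ ∑ _j : Fin d, (N / 2) ^ 2 := by
    refine Finset.sum_le_sum fun j _ => ?_
    have := hy.2 j
    rw [← sq_abs]
    exact pow_le_pow_left₀ (abs_nonneg _) this 2
  rw [Finset.sum_const, Finset.card_univ, Fintype.card_fin, nsmul_eq_mul] at h2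
  apply le_of_sq_le_sq _ (by positivity)
  rw [h1]
  refine h2.trans ?_
  rcases Nat.eq_zero_or_pos d with h0 | h0
  · subst h0; simp
  · have : (1 : ℝ) ≤ d := by exact_mod_cast h0
    nlinarith [mul_nonneg (mul_nonneg (sub_nonneg.2 this) hd0) (sq_nonneg N)]

/-- The linear map `(x, t) ↦ (-(c/2) x, c t)`. -/
noncomputable def scl (c : ℝ) (y : Space d) : Space d :=
  WithLp.toLp 2 (-(c / 2) • y.fst, c * y.snd)

theorem scl_add (c : ℝ) (y z : Space d) : scl c (y + z) = scl c y + scl c z := by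
  unfold scl
  rw [← WithLp.toLp_add]
  congr 1
  refine Prod.ext ?_ ?_
  · show -(c / 2) • (y + z).fst = -(c / 2) • y.fst + -(c / 2) • z.fst
    rw [WithLp.add_fst, smul_add]
  · show c * (y + z).snd = c * y.snd + c * z.snd
    rw [WithLp.add_snd, mul_add]

theorem scl_smul (c r : ℝ) (y : Space d) : scl c (r • y) = r • scl c y := by
  unfold scl
  rw [← WithLp.toLp_smul]
  congr 1
  refine Prod.ext ?_ ?_
  · show -(c / 2) • (r • y).fst = r • (-(c / 2) • y.fst)
    rw [WithLp.smul_fst, smul_comm]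
  · show c * (r • y).snd = r • (c * y.snd)
    rw [WithLp.smul_snd, smul_eq_mul, smul_eq_mul]
    ring

theorem scl_sub (c : ℝ) (y z : Space d) : scl c (y - z) = scl c y - scl c z := by
  have h : y - z = y + (-1 : ℝ) • z := by rw [neg_one_smul, sub_eq_add_neg]
  rw [h, scl_add, scl_smul, neg_one_smul, sub_eq_add_neg]

theorem norm_space_sq (y : Space d) : ‖y‖ ^ 2 = ‖y.fst‖ ^ 2 + y.snd ^ 2 := by
  rw [WithLp.prod_norm_sq_eq_of_L2, Real.norm_eq_abs, sq_abs]

theorem norm_scl_le {c : ℝ} (hc : 0 ≤ c) (y : Space d) : ‖scl c y‖ ≤ c * ‖y‖ := by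
  apply le_of_sq_le_sq _ (by positivity)
  rw [norm_space_sq, mul_pow, norm_space_sq]
  show ‖-(c / 2) • y.fst‖ ^ 2 + (c * y.snd) ^ 2 ≤ _
  rw [norm_smul, Real.norm_eq_abs, mul_pow, sq_abs]
  nlinarith [mul_nonneg (sq_nonneg c) (sq_nonneg ‖y.fst‖)]

theorem scl_nor (c : ℝ) (ω : Vec d) :
    scl c (nor ω) = ((√(1 + ‖-(2 : ℝ) • ω‖ ^ 2))⁻¹ * c * √(1 + ‖ω‖ ^ 2)) • dir ω := by
  have hρ : √(1 + ‖ω‖ ^ 2) ≠ 0 := by positivity
  unfold nor dir
  rw [scl_smul, smul_smul]
  have e : (√(1 + ‖-(2 : ℝ) • ω‖ ^ 2))⁻¹ * c * √(1 + ‖ω‖ ^ 2) * (√(1 + ‖ω‖ ^ 2))⁻¹ =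
      (√(1 + ‖-(2 : ℝ) • ω‖ ^ 2))⁻¹ * c := by
    rw [mul_assoc, mul_inv_cancel₀ hρ, mul_one]
  rw [e, mul_smul]
  congr 1
  unfold scl
  rw [← WithLp.toLp_smul]
  congr 1
  refine Prod.ext ?_ ?_
  · show -(c / 2) • (-(2 : ℝ) • ω) = c • ω
    rw [smul_smul]
    congr 1
    ring
  · show c * 1 = c • (1 : ℝ)
    rw [smul_eq_mul]

theorem norm_dir (v : Vec d) : ‖dir v‖ = 1 := by
  unfold dir
  have hn : ‖(WithLp.toLp 2 (v, (1:ℝ)) : Space d)‖ = √(1 + ‖v‖ ^ 2) := by
    rw [WithLp.prod_norm_eq_of_L2]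
    congr 1
    show ‖v‖ ^ 2 + ‖(1:ℝ)‖ ^ 2 = 1 + ‖v‖ ^ 2
    simp; ring
  rw [norm_smul, hn, norm_inv, Real.norm_of_nonneg (Real.sqrt_nonneg _)]
  exact inv_mul_cancel₀ (by positivity)

/-- The image of a box is contained in a tube. -/
theorem scl_box {N c δ : ℝ} (hN : 1 ≤ N) (hc : 0 < c) (h1 : c * (N ^ 2 / 2 + d * N / 2) ≤ 1 / 2)
    (h2 : c * (d * N / 2) ≤ δ) {ω : Vec d} {f : Fin d → Space d}
    (h : Orthonormal ℝ (Fin.cons (nor ω) f : Fin (d + 1) → Space d)) {a y : Space d}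
    (hy : y ∈ box N (nor ω) f a) : scl c y ∈ tube δ (dir ω) (scl c a) := by
  set z := y - a with hz
  set τ : ℝ := inner ℝ (nor ω) z with hτ
  set w := z - τ • nor ω with hw
  have hwn : ‖w‖ ≤ d * N / 2 := box_perp hN h hy
  have hτn : |τ| ≤ N ^ 2 / 2 := hy.1
  set r : ℝ := √(1 + ‖-(2 : ℝ) • ω‖ ^ 2) with hr
  set ρ : ℝ := √(1 + ‖ω‖ ^ 2) with hρ
  have hrρ : ρ ≤ r := by
    apply Real.sqrt_le_sqrt
    rw [norm_smul, norm_neg, Real.norm_eq_abs, abs_of_pos (by norm_num : (0:ℝ) < 2), mul_pow]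
    nlinarith [sq_nonneg ‖ω‖]
  have hr0 : 0 < r := by positivity
  have hρ0 : 0 ≤ ρ := Real.sqrt_nonneg _
  have hdn := norm_dir ω
  set m : ℝ := τ * (r⁻¹ * c * ρ) with hm
  have hmn : |m| ≤ c * (N ^ 2 / 2) := by
    rw [hm, abs_mul, abs_of_nonneg (by positivity : (0:ℝ) ≤ r⁻¹ * c * ρ)]
    have h3 : r⁻¹ * c * ρ ≤ c := by
      calc r⁻¹ * c * ρ = c * (ρ / r) := by ring
        _ ≤ c * 1 := by
            apply mul_le_mul_of_nonneg_left _ hc.le
            rw [div_le_one hr0]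
            exact hrρ
        _ = c := mul_one c
    calc |τ| * (r⁻¹ * c * ρ) ≤ (N ^ 2 / 2) * c := mul_le_mul hτn h3 (by positivity) (by positivity)
      _ = _ := by ring
  have hAz : scl c y - scl c a = m • dir ω + scl c w := by
    rw [← scl_sub, ← hz]
    have e : z = τ • nor ω + w := by rw [hw]; abel
    conv_lhs => rw [e]
    rw [scl_add, scl_smul, scl_nor, smul_smul]
  have hAw : ‖scl c w‖ ≤ c * (d * N / 2) := (norm_scl_le hc.le w).trans (mul_le_mul_of_nonneg_left hwn hc.le)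
  have hin : |inner ℝ (scl c w) (dir ω)| ≤ ‖scl c w‖ := by
    have := abs_real_inner_le_norm (scl c w) (dir ω)
    rwa [hdn, mul_one] at this
  have hdd : inner ℝ (dir ω) (dir ω) = (1 : ℝ) := by
    rw [real_inner_self_eq_norm_sq, hdn, one_pow]
  have hI : (inner ℝ (scl c y - scl c a) (dir ω) : ℝ) = m + inner ℝ (scl c w) (dir ω) := by
    rw [hAz, inner_add_left, inner_smul_left, hdd]
    simp
  constructor
  · rw [hI]
    calc |m + inner ℝ (scl c w) (dir ω)| ≤ |m| + |inner ℝ (scl c w) (dir ω)| := abs_add_le _ _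
      _ ≤ c * (N ^ 2 / 2) + c * (d * N / 2) := add_le_add hmn (hin.trans hAw)
      _ = c * (N ^ 2 / 2 + d * N / 2) := by ring
      _ ≤ 1 / 2 := h1
  · rw [hI, hAz]
    have e : m • dir ω + scl c w - (m + inner ℝ (scl c w) (dir ω)) • dir ω =
        scl c w - (inner ℝ (scl c w) (dir ω) : ℝ) • dir ω := by
      rw [add_smul]; abel
    rw [e]
    have e2 : ‖scl c w - (inner ℝ (scl c w) (dir ω) : ℝ) • dir ω‖ ^ 2 ≤ ‖scl c w‖ ^ 2 := by
      rw [@norm_sub_sq_real, norm_smul, inner_smul_right, hdn, Real.norm_eq_abs, mul_one, sq_abs]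
      nlinarith [sq_nonneg (inner ℝ (scl c w) (dir ω) : ℝ)]
    exact ((abs_le_of_sq_le_sq' e2 (norm_nonneg _)).2.trans hAw).trans h2

/-- The volume of a box. -/
theorem vol_box {N : ℝ} (hN : 1 ≤ N) {e : Space d} {f : Fin d → Space d}
    (h : Orthonormal ℝ (Fin.cons e f : Fin (d + 1) → Space d)) (a : Space d) :
    volume (box N e f a) = ENNReal.ofReal (N ^ (d + 2)) := by
  have hN0 : 0 < N := by linarith
  have h0 : volume (box N e f a) = volume (box N e f 0) := by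
    have e1 : box N e f a = (fun y => y + (-a)) ⁻¹' box N e f 0 := by
      ext y
      simp [box, sub_eq_add_neg]
    rw [e1, measure_preimage_add_right]
  rw [h0]
  set r : Fin (d + 1) → ℝ := Fin.cons (N ^ 2 / 2) (fun _ => N / 2) with hr
  have e2 : box N e f 0 = (fun y => WithLp.ofLp ((frame h).repr y)) ⁻¹'
      (Set.univ.pi fun i => Icc (-(r i)) (r i)) := by
    ext y
    rw [mem_preimage, Set.mem_univ_pi]
    simp only [OrthonormalBasis.repr_apply_apply, frame_coe]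
    rw [Fin.forall_fin_succ]
    simp only [hr, Fin.cons_zero, Fin.cons_succ, mem_Icc, ← abs_le]
    show |inner ℝ e (y - 0)| ≤ N ^ 2 / 2 ∧ (∀ j, |inner ℝ (f j) (y - 0)| ≤ N / 2) ↔ _
    rw [sub_zero]
  have hmp : MeasurePreserving (fun y => WithLp.ofLp ((frame h).repr y)) volume volume :=
    (PiLp.volume_preserving_ofLp (Fin (d + 1))).comp (frame h).measurePreserving_repr
  rw [e2, hmp.measure_preimage (MeasurableSet.univ_pi fun i => measurableSet_Icc).nullMeasurableSet,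
    volume_pi_pi]
  simp only [Real.volume_Icc]
  rw [Fin.prod_univ_succ]
  simp only [hr, Fin.cons_zero, Fin.cons_succ, Finset.prod_const, Finset.card_univ, Fintype.card_fin]
  have e3 : N ^ 2 / 2 - -(N ^ 2 / 2) = N ^ 2 := by ring
  have e4 : N / 2 - -(N / 2) = N := by ring
  rw [e3, e4, ← ENNReal.ofReal_pow (by linarith), ← ENNReal.ofReal_mul (by positivity)]
  congr 1
  ring

theorem box_closed (N : ℝ) (e : Space d) (f : Fin d → Space d) (a : Space d) : IsClosed (box N e f a) := by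
  have h1 : IsClosed {y : Space d | |inner ℝ e (y - a)| ≤ N ^ 2 / 2} :=
    isClosed_le (by fun_prop) continuous_const
  have h2 : IsClosed {y : Space d | ∀ j, |inner ℝ (f j) (y - a)| ≤ N / 2} := by
    have : {y : Space d | ∀ j, |inner ℝ (f j) (y - a)| ≤ N / 2} = ⋂ j, {y | |inner ℝ (f j) (y - a)| ≤ N / 2} := by
      ext y; simp
    rw [this]
    exact isClosed_iInter fun j => isClosed_le (by fun_prop) continuous_const
  exact h1.inter h2

theorem ball_sub_box {N : ℝ} (hN : 1 ≤ N) {e : Space d} {f : Fin d → Space d}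
    (h : Orthonormal ℝ (Fin.cons e f : Fin (d + 1) → Space d)) : ball (0 : Space d) (N / 2) ⊆ box N e f 0 := by
  intro y hy
  rw [mem_ball, dist_zero_right] at hy
  constructor
  · rw [sub_zero]
    have h1 := abs_real_inner_le_norm e y
    rw [norm_e h, one_mul] at h1
    nlinarith
  · intro j
    rw [sub_zero]
    have h1 := abs_real_inner_le_norm (f j) y
    have h2 : ‖f j‖ = 1 := by
      have := h.1 j.succ
      simpa using this
    rw [h2, one_mul] at h1
    linarith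

theorem box_sub_ball {N : ℝ} (hN : 1 ≤ N) {e : Space d} {f : Fin d → Space d}
    (h : Orthonormal ℝ (Fin.cons e f : Fin (d + 1) → Space d)) :
    box N e f 0 ⊆ closedBall (0 : Space d) ((1 + d) * N ^ 2) := by
  intro y hy
  rw [mem_closedBall, dist_zero_right]
  have hd0 : (0 : ℝ) ≤ d := Nat.cast_nonneg d
  have h1 := box_perp hN h hy
  rw [sub_zero] at h1
  have h2 : |inner ℝ e y| ≤ N ^ 2 / 2 := by
    have := hy.1
    rwa [sub_zero] at this
  calc ‖y‖ = ‖(y - (inner ℝ e y : ℝ) • e) + (inner ℝ e y : ℝ) • e‖ := by congr 1; abel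
    _ ≤ ‖y - (inner ℝ e y : ℝ) • e‖ + ‖(inner ℝ e y : ℝ) • e‖ := norm_add_le _ _
    _ ≤ d * N / 2 + N ^ 2 / 2 := by
        refine add_le_add h1 ?_
        rw [norm_smul, norm_e h, mul_one, Real.norm_eq_abs]
        exact h2
    _ ≤ (1 + d) * N ^ 2 := by nlinarith [mul_nonneg hd0 (sub_nonneg.2 hN)]

end Pool.Agent.H810R3.Tub
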