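import Pool.Agent.H810R3.Tub.Lp

set_option autoImplicit false

/-! Comparison with the centred family of boxes. -/

open MeasureTheory Set Filter Topology ENNReal NNReal Metric

namespace Pool.Agent.H810R3.Tub

/-- The sum of the indicators as a real function. -/
theorem enorm_sum_box {d : ℕ} {ι : Type} [Fintype ι] (N : ℝ) (ω : ι → Vec d) (f : ι → Fin d → Space d)
    (a : ι → Space d) (y : Space d) :
    ‖∑ i, (box N (nor (ω i)) (f i) (a i)).indicator (fun _ => (1 : ℝ)) y‖ₑ = Fb N ω f a y := by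
  have h0 : ∀ i, 0 ≤ (box N (nor (ω i)) (f i) (a i)).indicator (fun _ => (1 : ℝ)) y := by
    intro i
    exact indicator_nonneg (fun _ _ => zero_le_one) _
  rw [Real.enorm_eq_ofReal (Finset.sum_nonneg fun i _ => h0 i),
    ENNReal.ofReal_sum_of_nonneg (fun i _ => h0 i)]
  unfold Fb
  refine Finset.sum_congr rfl fun i _ => ?_
  by_cases hm : y ∈ box N (nor (ω i)) (f i) (a i)
  · rw [indicator_of_mem hm, indicator_of_mem hm, ENNReal.ofReal_one]
  · rw [indicator_of_notMem hm, indicator_of_notMem hm, ENNReal.ofReal_zero]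

theorem Fb_int {d : ℕ} {ι : Type} [Fintype ι] {N : ℝ} (hN : 1 ≤ N) {ω : ι → Vec d} {f : ι → Fin d → Space d}
    (hf : ∀ i, Orthonormal ℝ (Fin.cons (nor (ω i)) (f i) : Fin (d + 1) → Space d)) (a : ι → Space d) :
    ∫⁻ y, Fb N ω f a y = ENNReal.ofReal ((Fintype.card ι : ℝ) * N ^ (d + 2)) := by
  unfold Fb
  rw [lintegral_finsetSum _ (fun i _ => measurable_const.indicator (box_closed _ _ _ _).measurableSet)]
  have : ∀ i, ∫⁻ y, (box N (nor (ω i)) (f i) (a i)).indicator (fun _ => (1 : ℝ≥0∞)) y =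
      ENNReal.ofReal (N ^ (d + 2)) := by
    intro i
    rw [lintegral_indicator (box_closed _ _ _ _).measurableSet, setLIntegral_const, one_mul]
    exact vol_box hN (hf i) (a i)
  rw [Finset.sum_congr rfl (fun i _ => this i), Finset.sum_const, Finset.card_univ, nsmul_eq_mul,
    ENNReal.ofReal_mul (Nat.cast_nonneg _), ENNReal.ofReal_natCast]

/-- volume of the unit ball of the whole space -/
noncomputable def wv (d : ℕ) : ℝ := (volume (ball (0 : Space d) 1)).toReal

theorem wv_pos (d : ℕ) : 0 < wv d :=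
  ENNReal.toReal_pos (measure_ball_pos _ _ one_pos).ne' measure_ball_lt_top.ne

/-- Comparison of the norms, for all exponents. -/
theorem compare (d : ℕ) {ι : Type} [Fintype ι] [Nonempty ι] {N q Q D : ℝ} (hN : 1 ≤ N)
    (hq1 : 1 < q) (hQ0 : 0 < Q) (hD1 : 1 ≤ D) (ω : ι → Vec d) (f : ι → Fin d → Space d)
    (hf : ∀ i, Orthonormal ℝ (Fin.cons (nor (ω i)) (f i) : Fin (d + 1) → Space d)) (a : ι → Space d)
    (hQi : ∫⁻ y, Fb N ω f a y ^ q ≤ ENNReal.ofReal Q)
    (hA1 : Q * ((1 + (d : ℝ)) ^ (d + 1) * wv d * N ^ (2 * (d + 1))) ^ (q - 1) ≤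
      D ^ q * ((Fintype.card ι : ℝ) * N ^ (d + 2)) ^ q)
    (hA2 : Q ≤ D ^ q * ((Fintype.card ι : ℝ) ^ q * ((N / 2) ^ (d + 1) * wv d)))
    (p : ℝ≥0∞) (hp : 1 ≤ p) :
    eLpNorm (fun y : Space d => ∑ i, (box N (nor (ω i)) (f i) (a i)).indicator (fun _ => (1 : ℝ)) y) p volume
      ≤ ENNReal.ofReal D *
        eLpNorm (fun y : Space d => ∑ i,
          (box N (nor (ω i)) (f i) 0).indicator (fun _ => (1 : ℝ)) y) p volume := by
  have hd0 : (0 : ℝ) ≤ d := Nat.cast_nonneg d
  have hN0 : 0 < N := by linarith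
  have hq0 : 0 < q := by linarith
  have hD0 : 0 < D := by linarith
  set w : ℝ := wv d with hw
  have hw0 : 0 < w := wv_pos d
  have hwe : volume (ball (0 : Space d) 1) = ENNReal.ofReal w := by
    rw [hw, wv, ENNReal.ofReal_toReal measure_ball_lt_top.ne]
  set c : ℝ := (Fintype.card ι : ℝ) with hc
  have hc0 : 0 < c := by
    have h1 : (0 : ℝ) < (Fintype.card ι : ℝ) := by
      have := Fintype.card_pos (α := ι)
      exact_mod_cast this
    exact h1
  set b : ℝ := (1 + (d : ℝ)) ^ (d + 1) * w with hb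
  have hb0 : 0 < b := by positivity
  set V : ℝ := c * N ^ (d + 2) with hV
  have hV0 : 0 < V := by positivity
  have hVa : ∫⁻ y, Fb N ω f a y = ENNReal.ofReal V := Fb_int hN hf a
  have hV0' : ∫⁻ y, Fb N ω f (fun _ => 0) y = ENNReal.ofReal V := Fb_int hN hf _
  set B : ℝ := b * N ^ (2 * (d + 1)) with hB
  have hB0 : 0 < B := by positivity
  have hBv : volume (closedBall (0 : Space d) ((1 + d) * N ^ 2)) = ENNReal.ofReal B := by
    have : Nontrivial (Space d) := by
      apply Module.nontrivial_of_finrank_pos (R := ℝ)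
      rw [finrank_space]
      omega
    rw [Measure.addHaar_closedBall _ _ (by positivity), finrank_space, hwe,
      ← ENNReal.ofReal_mul (by positivity)]
    congr 1
    rw [hB, hb, mul_pow, ← pow_mul]
    ring
  have hbv : volume (ball (0 : Space d) (N / 2)) = ENNReal.ofReal ((N / 2) ^ (d + 1) * w) := by
    rw [Measure.addHaar_ball_of_pos _ _ (by positivity), finrank_space, hwe,
      ← ENNReal.ofReal_mul (by positivity)]
  have hFm := Fb_measurable N ω f a
  have hFm0 := Fb_measurable N ω f (fun _ => (0 : Space d))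
  have hball : ∀ y ∈ ball (0 : Space d) (N / 2), Fb N ω f (fun _ => (0 : Space d)) y = ENNReal.ofReal c := by
    intro y hy
    unfold Fb
    rw [Finset.sum_congr rfl (fun i _ => indicator_of_mem (ball_sub_box hN (hf i) hy) _)]
    simp [hc]
  have hFc : ∀ y, Fb N ω f a y ≤ ENNReal.ofReal c := by
    intro y
    refine (Fb_le N ω f a y).trans (le_of_eq ?_)
    rw [hc, ENNReal.ofReal_natCast]
  have hD1e : (1 : ℝ≥0∞) ≤ ENNReal.ofReal D := by
    rw [← ENNReal.ofReal_one]
    exact ENNReal.ofReal_le_ofReal hD1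
  rcases eq_or_ne p ∞ with hpt | hpt
  · -- the case of the supremum norm
    rw [hpt, eLpNorm_exponent_top, eLpNorm_exponent_top]
    have h1 : eLpNormEssSup (fun y : Space d => ∑ i, (box N (nor (ω i)) (f i)
        (a i)).indicator (fun _ => (1 : ℝ)) y) volume ≤ ENNReal.ofReal c := by
      unfold eLpNormEssSup
      refine essSup_le_of_ae_le _ (Filter.Eventually.of_forall fun y => ?_)
      show ‖∑ i, (box N (nor (ω i)) (f i) (a i)).indicator (fun _ => (1 : ℝ)) y‖ₑ ≤ ENNReal.ofReal c
      rw [enorm_sum_box]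
      exact hFc y
    have h2 : ENNReal.ofReal c ≤ eLpNormEssSup (fun y : Space d => ∑ i,
        (box N (nor (ω i)) (f i) 0).indicator (fun _ => (1 : ℝ)) y) volume := by
      have h3 := ae_le_eLpNormEssSup (f := fun y : Space d => ∑ i,
        (box N (nor (ω i)) (f i) 0).indicator (fun _ => (1 : ℝ)) y) (μ := volume)
      have h4 : volume (ball (0 : Space d) (N / 2)) ≠ 0 := (measure_ball_pos _ _ (by positivity)).ne'
      obtain ⟨y, hy1, hy2⟩ : ∃ y ∈ ball (0 : Space d) (N / 2), ‖∑ i,
          (box N (nor (ω i)) (f i) 0).indicator (fun _ => (1 : ℝ)) y‖ₑ ≤ eLpNormEssSup (fun y : Space d => ∑ i,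
          (box N (nor (ω i)) (f i) 0).indicator (fun _ => (1 : ℝ)) y) volume := by
        by_contra hcon
        push Not at hcon
        apply h4
        refine measure_mono_null ?_ (ae_iff.1 h3)
        intro y hy
        exact not_le.2 (hcon y hy)
      have h5 := enorm_sum_box N ω f (fun _ => (0 : Space d)) y
      rw [h5, hball y hy1] at hy2
      exact hy2
    calc _ ≤ 1 * ENNReal.ofReal c := by rw [one_mul]; exact h1
      _ ≤ _ := mul_le_mul' hD1e h2
  · -- finite exponents
    have hp0 : p ≠ 0 := by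
      intro h
      rw [h] at hp
      exact absurd hp (by simp)
    set r : ℝ := p.toReal with hr
    have hr1 : 1 ≤ r := by
      rw [hr, ← ENNReal.toReal_one]
      exact ENNReal.toReal_mono hpt hp
    have hr0 : 0 < r := by linarith
    rw [eLpNorm_eq_lintegral_rpow_enorm_toReal hp0 hpt, eLpNorm_eq_lintegral_rpow_enorm_toReal hp0 hpt, ← hr]
    have e1 : ∫⁻ y : Space d, ‖∑ i, (box N (nor (ω i)) (f i) (a i)).indicator (fun _ => (1 : ℝ)) y‖ₑ ^ r =
        ∫⁻ y, Fb N ω f a y ^ r := by
      refine lintegral_congr fun y => ?_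
      rw [enorm_sum_box]
    have e2 : ∫⁻ y : Space d, ‖∑ i, (box N (nor (ω i)) (f i) 0).indicator (fun _ => (1 : ℝ)) y‖ₑ ^ r =
        ∫⁻ y, Fb N ω f (fun _ => 0) y ^ r := by
      refine lintegral_congr fun y => ?_
      rw [← enorm_sum_box]
    rw [e1, e2]
    have key : ∫⁻ y, Fb N ω f a y ^ r ≤ ENNReal.ofReal (D ^ r) * ∫⁻ y, Fb N ω f (fun _ => 0) y ^ r := by
      rcases le_total r q with hrq | hrq
      · -- small exponents
        have h1 := interp (μ := (volume : Measure (Space d))) hFm hq1 hr1 hrq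
        have h2 := lower (μ := (volume : Measure (Space d))) hFm0 (B := closedBall (0 : Space d) ((1 + d) * N ^ 2))
          measurableSet_closedBall (by
            intro y hy
            unfold Fb
            apply Finset.sum_eq_zero
            intro i _
            exact indicator_of_notMem (fun h => hy (box_sub_ball hN (hf i) h)) _) hr1
        rw [hV0', hBv, ENNReal.ofReal_rpow_of_pos hV0, ENNReal.ofReal_rpow_of_pos hB0] at h2
        have h3 : ENNReal.ofReal (V ^ r * (B ^ (r - 1))⁻¹) ≤ ∫⁻ y, Fb N ω f (fun _ => 0) y ^ r := by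
          have hBr : 0 < B ^ (r - 1) := Real.rpow_pos_of_pos hB0 _
          rw [← div_eq_mul_inv, ENNReal.ofReal_div_of_pos hBr]
          exact ENNReal.div_le_of_le_mul h2
        have hw0' : 0 ≤ (r - 1) / (q - 1) := div_nonneg (by linarith) (by linarith)
        calc ∫⁻ y, Fb N ω f a y ^ r
            ≤ (∫⁻ y, Fb N ω f a y) ^ (1 - (r - 1) / (q - 1)) *
              (∫⁻ y, Fb N ω f a y ^ q) ^ ((r - 1) / (q - 1)) := h1
          _ ≤ (ENNReal.ofReal V) ^ (1 - (r - 1) / (q - 1)) * (ENNReal.ofReal Q) ^ ((r - 1) / (q - 1)) := by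
              rw [hVa]
              exact mul_le_mul' le_rfl (ENNReal.rpow_le_rpow hQi hw0')
          _ = ENNReal.ofReal (V ^ (1 - (r - 1) / (q - 1)) * Q ^ ((r - 1) / (q - 1))) := by
              rw [ENNReal.ofReal_rpow_of_pos hV0, ENNReal.ofReal_rpow_of_pos hQ0,
                ← ENNReal.ofReal_mul (by positivity)]
          _ ≤ ENNReal.ofReal (D ^ r * (V ^ r * (B ^ (r - 1))⁻¹)) :=
              ENNReal.ofReal_le_ofReal (real_ineq hV0 hQ0 hB0 hD1 hq1 hr1 hrq hA1)
          _ = ENNReal.ofReal (D ^ r) * ENNReal.ofReal (V ^ r * (B ^ (r - 1))⁻¹) :=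
              ENNReal.ofReal_mul (by positivity)
          _ ≤ _ := mul_le_mul' le_rfl h3
      · -- large exponents
        have h1 : ∫⁻ y, Fb N ω f a y ^ r ≤ ENNReal.ofReal (c ^ (r - q) * Q) := by
          calc ∫⁻ y, Fb N ω f a y ^ r ≤ ∫⁻ y, ENNReal.ofReal (c ^ (r - q)) * Fb N ω f a y ^ q := by
                refine lintegral_mono fun y => ?_
                simp only
                have e3 : Fb N ω f a y ^ r = Fb N ω f a y ^ (r - q) * Fb N ω f a y ^ q := by
                  rw [← ENNReal.rpow_add_of_nonneg _ _ (by linarith) hq0.le, sub_add_cancel]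
                rw [e3, ← ENNReal.ofReal_rpow_of_pos hc0]
                exact mul_le_mul' (ENNReal.rpow_le_rpow (hFc y) (by linarith)) le_rfl
            _ = ENNReal.ofReal (c ^ (r - q)) * ∫⁻ y, Fb N ω f a y ^ q :=
                lintegral_const_mul' _ _ ENNReal.ofReal_ne_top
            _ ≤ ENNReal.ofReal (c ^ (r - q)) * ENNReal.ofReal Q := mul_le_mul' le_rfl hQi
            _ = _ := (ENNReal.ofReal_mul (by positivity)).symm
        have h2 : ENNReal.ofReal (c ^ r * ((N / 2) ^ (d + 1) * w)) ≤ ∫⁻ y, Fb N ω f (fun _ => 0) y ^ r := by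
          calc ENNReal.ofReal (c ^ r * ((N / 2) ^ (d + 1) * w))
              = ENNReal.ofReal (c ^ r) * volume (ball (0 : Space d) (N / 2)) := by
                rw [hbv, ENNReal.ofReal_mul (by positivity)]
            _ = ∫⁻ _ in ball (0 : Space d) (N / 2), ENNReal.ofReal (c ^ r) := by
                rw [setLIntegral_const]
            _ = ∫⁻ y in ball (0 : Space d) (N / 2), Fb N ω f (fun _ => 0) y ^ r := by
                refine setLIntegral_congr_fun measurableSet_ball fun y hy => ?_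
                rw [hball y hy, ENNReal.ofReal_rpow_of_pos hc0]
            _ ≤ _ := setLIntegral_le_lintegral _ _
        have h3 : c ^ (r - q) * Q ≤ D ^ r * (c ^ r * ((N / 2) ^ (d + 1) * w)) := by
          have h4 : D ^ q ≤ D ^ r := Real.rpow_le_rpow_of_exponent_le hD1 hrq
          have h5 : c ^ (r - q) * c ^ q = c ^ r := by
            rw [← Real.rpow_add hc0, sub_add_cancel]
          calc c ^ (r - q) * Q ≤ c ^ (r - q) * (D ^ q * (c ^ q * ((N / 2) ^ (d + 1) * w))) :=
                mul_le_mul_of_nonneg_left hA2 (by positivity)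
            _ = D ^ q * ((c ^ (r - q) * c ^ q) * ((N / 2) ^ (d + 1) * w)) := by ring
            _ = D ^ q * (c ^ r * ((N / 2) ^ (d + 1) * w)) := by rw [h5]
            _ ≤ _ := mul_le_mul_of_nonneg_right h4 (by positivity)
        calc ∫⁻ y, Fb N ω f a y ^ r ≤ ENNReal.ofReal (c ^ (r - q) * Q) := h1
          _ ≤ ENNReal.ofReal (D ^ r * (c ^ r * ((N / 2) ^ (d + 1) * w))) := ENNReal.ofReal_le_ofReal h3
          _ = ENNReal.ofReal (D ^ r) * ENNReal.ofReal (c ^ r * ((N / 2) ^ (d + 1) * w)) :=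
              ENNReal.ofReal_mul (by positivity)
          _ ≤ _ := mul_le_mul' le_rfl h2
    calc (∫⁻ y, Fb N ω f a y ^ r) ^ (1 / r)
        ≤ (ENNReal.ofReal (D ^ r) * ∫⁻ y, Fb N ω f (fun _ => 0) y ^ r) ^ (1 / r) :=
          ENNReal.rpow_le_rpow key (by positivity)
      _ = ENNReal.ofReal D * (∫⁻ y, Fb N ω f (fun _ => 0) y ^ r) ^ (1 / r) := by
          rw [ENNReal.mul_rpow_of_nonneg _ _ (by positivity), ENNReal.ofReal_rpow_of_pos (by positivity),
            ← Real.rpow_mul hD0.le, mul_one_div_cancel hr0.ne', Real.rpow_one]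

end Pool.Agent.H810R3.Tub
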