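import Pool.Agent.H810R3.Tub.OneD
import Pool.Agent.H803R2.KakFub

set_option autoImplicit false

/-! The core estimate: the number of parameters `v` with `b v + t v` near `x`. -/

open MeasureTheory Set Filter Topology ENNReal NNReal Metric

namespace Pool.Agent.H810R3.Tub

open Pool.Agent.H803R2.Kak

/-- Euclidean space `ℝ^d`. -/
abbrev Vec (d : ℕ) : Type := EuclideanSpace ℝ (Fin d)

variable {d : ℕ}

/-- The derivative of the section map `v ↦ b v + t v`. -/
noncomputable def Dm (b : Vec d → Vec d) (t : ℝ) (v : Vec d) : Vec d →L[ℝ] Vec d :=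
  fderiv ℝ b v + t • ContinuousLinearMap.id ℝ (Vec d)

/-- truncated Jacobian -/
noncomputable def W (b : Vec d → Vec d) (τ : ℝ) (v : Vec d) (t : ℝ) : ℝ≥0∞ :=
  ENNReal.ofReal (max |(Dm b t v).det| τ)

theorem det_measurable (b : Vec d → Vec d) :
    Measurable (fun q : Vec d × ℝ => (Dm b q.2 q.1).det) := by
  apply ContinuousLinearMap.continuous_det.measurable.comp
  have hfd : Measurable (fun v : Vec d => fderiv ℝ b v) := measurable_fderiv ℝ b
  have h1 : Measurable (fun q : Vec d × ℝ => fderiv ℝ b q.1) := hfd.comp measurable_fst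
  have h2 : Measurable (fun q : Vec d × ℝ => q.2 • ContinuousLinearMap.id ℝ (Vec d)) := by
    have hc : Continuous (fun q : Vec d × ℝ => q.2 • ContinuousLinearMap.id ℝ (Vec d)) := by fun_prop
    exact hc.measurable
  exact h1.add h2

theorem Dm_measurable (b : Vec d → Vec d) (t : ℝ) : Measurable (Dm b t) := by
  have hfd : Measurable (fun v : Vec d => fderiv ℝ b v) := measurable_fderiv ℝ b
  exact hfd.add_const _

theorem W_measurable (b : Vec d → Vec d) (τ : ℝ) :
    Measurable (fun q : Vec d × ℝ => W b τ q.1 q.2) :=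
  ((det_measurable b).abs.max measurable_const).ennreal_ofReal

theorem W_ne_zero (b : Vec d → Vec d) {τ : ℝ} (hτ : 0 < τ) (v : Vec d) (t : ℝ) : W b τ v t ≠ 0 := by
  unfold W
  rw [ne_eq, ENNReal.ofReal_eq_zero, not_le]
  exact lt_max_of_lt_right hτ

theorem W_ne_top (b : Vec d → Vec d) {τ : ℝ} (v : Vec d) (t : ℝ) : W b τ v t ≠ ∞ :=
  ENNReal.ofReal_ne_top

/-- For almost every height `t` the section map `v ↦ b v + t v` takes almost every value at most
`M` times at points of the ball `‖v‖ < 2` where it is differentiable with invertible derivative. -/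
def FewPre (M : ℕ) (b : Vec d → Vec d) : Prop :=
  ∀ᵐ t : ℝ, ∀ᵐ y : Vec d, {v | ‖v‖ < 2 ∧ DifferentiableAt ℝ b v ∧ b v + t • v = y ∧
    (Dm b t v).det ≠ 0}.encard ≤ M

/-- kernel -/
noncomputable def ker (b : Vec d → Vec d) (R t : ℝ) (x v : Vec d) : ℝ≥0∞ :=
  (closedBall x R).indicator (fun _ => 1) (b v + t • v)

theorem ker_le_one (b : Vec d → Vec d) (R t : ℝ) (x v : Vec d) : ker b R t x v ≤ 1 := by
  unfold ker
  by_cases h : b v + t • v ∈ closedBall x R
  · simp [h]
  · simp [h]

theorem ker_symm (b : Vec d → Vec d) (R t : ℝ) (x v : Vec d) :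
    ker b R t x v = (closedBall (b v + t • v) R).indicator (fun _ => 1) x := by
  unfold ker
  by_cases h : b v + t • v ∈ closedBall x R
  · have h' : x ∈ closedBall (b v + t • v) R := by rwa [mem_closedBall_comm]
    rw [indicator_of_mem h, indicator_of_mem h']
  · have h' : x ∉ closedBall (b v + t • v) R := by rwa [mem_closedBall_comm]
    rw [indicator_of_notMem h, indicator_of_notMem h']

theorem ker_measurable {b : Vec d → Vec d} (hb : Continuous b) (R t : ℝ) :
    Measurable (fun q : Vec d × Vec d => ker b R t q.1 q.2) := by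
  have hS : MeasurableSet {q : Vec d × Vec d | dist (b q.2 + t • q.2) q.1 ≤ R} := by
    apply IsClosed.measurableSet
    exact isClosed_le (by fun_prop) continuous_const
  have e : (fun q : Vec d × Vec d => ker b R t q.1 q.2) =
      {q : Vec d × Vec d | dist (b q.2 + t • q.2) q.1 ≤ R}.indicator (fun _ => (1 : ℝ≥0∞)) := by
    funext q
    unfold ker
    by_cases h : dist (b q.2 + t • q.2) q.1 ≤ R
    · rw [indicator_of_mem (show q ∈ {q : Vec d × Vec d | dist (b q.2 + t • q.2) q.1 ≤ R} from h),
        indicator_of_mem (mem_closedBall.2 h)]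
    · rw [indicator_of_notMem (show q ∉ {q : Vec d × Vec d | dist (b q.2 + t • q.2) q.1 ≤ R} from h),
        indicator_of_notMem (fun h' => h (mem_closedBall.1 h'))]
  rw [e]
  exact measurable_const.indicator hS

theorem W_meas_left (b : Vec d → Vec d) (τ t : ℝ) : Measurable (fun v => W b τ v t) := by
  have h := W_measurable b τ
  generalize W b τ = w at h ⊢
  exact h.comp (measurable_id.prodMk measurable_const)

theorem ker_meas_right {b : Vec d → Vec d} (hb : Continuous b) (R t : ℝ) (x : Vec d) :
    Measurable (fun v => ker b R t x v) := by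
  have h := ker_measurable hb R t
  generalize ker b R t = k at h ⊢
  exact h.comp (measurable_const.prodMk measurable_id)

theorem prod_meas {b : Vec d → Vec d} (hb : Continuous b) (R τ r t : ℝ) :
    Measurable (fun q : Vec d × Vec d => ker b R t q.1 q.2 * W b τ q.2 t ^ (-r)) := by
  have h2 := ker_measurable hb R t
  have h3 := W_meas_left b τ t
  generalize ker b R t = k at h2 ⊢
  generalize W b τ = w at h3 ⊢
  have h1 : Measurable (fun q : Vec d × Vec d => w q.2 t) := h3.comp measurable_snd
  exact h2.mul (h1.pow_const _)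

theorem Wpow_meas (b : Vec d → Vec d) (τ r : ℝ) :
    Measurable (fun q : Vec d × ℝ => W b τ q.1 q.2 ^ (-r)) := (W_measurable b τ).pow_const _

theorem Wpow_meas' (b : Vec d → Vec d) (τ r : ℝ) :
    Measurable (fun q : ℝ × Vec d => W b τ q.2 q.1 ^ (-r)) := by
  have h := W_measurable b τ
  generalize W b τ = w at h ⊢
  have h1 : Measurable (fun q : ℝ × Vec d => w q.2 q.1) := h.comp measurable_swap
  exact h1.pow_const _

/-- The area inequality. -/
theorem area {L : ℝ≥0} {b : Vec d → Vec d} (hb : LipschitzWith L b) {M : ℕ} {t : ℝ}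
    (ht : ∀ᵐ y : Vec d, {v | ‖v‖ < 2 ∧ DifferentiableAt ℝ b v ∧ b v + t • v = y ∧
      (Dm b t v).det ≠ 0}.encard ≤ M) {V : Set (Vec d)} (hV : MeasurableSet V)
    (hV2 : V ⊆ ball 0 2) (R : ℝ) (x : Vec d) :
    ∫⁻ v in V, ker b R t x v * ENNReal.ofReal |(Dm b t v).det| ≤ M * volume (closedBall x R) := by
  set D : Set (Vec d) := {v | DifferentiableAt ℝ b v} with hD
  have hDm : MeasurableSet D := measurableSet_of_differentiableAt ℝ b
  have hae : ∀ᵐ v : Vec d, v ∈ D := hb.ae_differentiableAt
  have e1 : ∫⁻ v in V, ker b R t x v * ENNReal.ofReal |(Dm b t v).det| =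
      ∫⁻ v in V ∩ D, ker b R t x v * ENNReal.ofReal |(Dm b t v).det| := by
    apply setLIntegral_congr
    filter_upwards [hae] with v hv
    apply propext
    exact ⟨fun h => ⟨h, hv⟩, fun h => h.1⟩
  rw [e1]
  have h1 := lintegral_comp_det_le (volume : Measure (Vec d)) (φ := fun v => b v + t • v)
    (φ' := Dm b t) (s := V ∩ D) (N := M) (hV.inter hDm)
    (fun v hv => (show DifferentiableAt ℝ b v from hv.2).hasFDerivAt.add ((hasFDerivAt_id v).const_smul t))
    (Dm_measurable b t) (by
      filter_upwards [ht] with y hy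
      refine le_trans (Set.encard_le_encard ?_) hy
      rintro v ⟨⟨h1, h2⟩, h3, h4⟩
      exact ⟨by simpa using hV2 h1, h2, h3, h4⟩)
    (H := (closedBall x R).indicator (fun _ => 1)) (measurable_const.indicator measurableSet_closedBall)
  refine h1.trans_eq ?_
  rw [lintegral_indicator_const measurableSet_closedBall, one_mul]

/-- Pointwise bound for the measure of the set of parameters near `x`. -/
theorem point_bound {L : ℝ≥0} {b : Vec d → Vec d} (hb : LipschitzWith L b) {M : ℕ} {t : ℝ}
    (ht : ∀ᵐ y : Vec d, {v | ‖v‖ < 2 ∧ DifferentiableAt ℝ b v ∧ b v + t • v = y ∧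
      (Dm b t v).det ≠ 0}.encard ≤ M) {V : Set (Vec d)} (hV : MeasurableSet V)
    (hV2 : V ⊆ ball 0 2) (R : ℝ) {r τ : ℝ} (hr : 0 < r) (hτ : 0 < τ) (x : Vec d) :
    (∫⁻ v in V, ker b R t x v) ^ (r + 1) ≤
      (M * volume (closedBall x R) + ENNReal.ofReal τ * volume V) ^ r *
        ∫⁻ v in V, ker b R t x v * W b τ v t ^ (-r) := by
  have hbc : Continuous b := hb.continuous
  set K : Set (Vec d) := {v | b v + t • v ∈ closedBall x R} with hK
  have hKm : MeasurableSet K := by
    apply IsClosed.measurableSet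
    have : K = {v | dist (b v + t • v) x ≤ R} := rfl
    rw [this]
    exact isClosed_le (by fun_prop) continuous_const
  have hker : ∀ v, ker b R t x v = K.indicator (fun _ => 1) v := by
    intro v
    unfold ker
    by_cases h : b v + t • v ∈ closedBall x R
    · rw [indicator_of_mem h, indicator_of_mem (show v ∈ K from h)]
    · rw [indicator_of_notMem h, indicator_of_notMem (show v ∉ K from h)]
  have hmul : ∀ (f : Vec d → ℝ≥0∞), ∫⁻ v in V, ker b R t x v * f v = ∫⁻ v in V ∩ K, f v := by
    intro f
    rw [inter_comm, ← Measure.restrict_restrict hKm, ← lintegral_indicator hKm]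
    congr 1
    funext v
    rw [hker]
    by_cases h : v ∈ K
    · simp [h]
    · simp [h]
  have h0 : ∫⁻ v in V, ker b R t x v = volume (V ∩ K) := by
    have := hmul (fun _ => 1)
    simp only [mul_one] at this
    rw [this]
    simp
  have hWm : Measurable (fun v => W b τ v t) := W_meas_left b τ t
  have hH := holder_w (volume.restrict (V ∩ K)) hr (w := fun v => W b τ v t) hWm.aemeasurable
    (fun v => W_ne_zero b hτ v t) (fun v => W_ne_top b v t)
  rw [Measure.restrict_apply_univ] at hH
  rw [h0, hmul]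
  refine hH.trans ?_
  gcongr
  calc ∫⁻ v in V ∩ K, W b τ v t
      ≤ ∫⁻ v in V ∩ K, (ENNReal.ofReal |(Dm b t v).det| + ENNReal.ofReal τ) := by
        apply lintegral_mono
        intro v
        show W b τ v t ≤ ENNReal.ofReal |(Dm b t v).det| + ENNReal.ofReal τ
        unfold W
        rw [← ENNReal.ofReal_add (abs_nonneg _) hτ.le]
        apply ENNReal.ofReal_le_ofReal
        exact max_le (by linarith) (by linarith [abs_nonneg (Dm b t v).det])
    _ = (∫⁻ v in V ∩ K, ENNReal.ofReal |(Dm b t v).det|) + ENNReal.ofReal τ * volume (V ∩ K) := by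
        rw [lintegral_add_right _ measurable_const, lintegral_const, Measure.restrict_apply_univ]
    _ ≤ M * volume (closedBall x R) + ENNReal.ofReal τ * volume V := by
        have := area hb ht hV hV2 R x
        rw [hmul] at this
        gcongr
        exact inter_subset_left

/-- Integral of the truncated weight in the height. -/
theorem weight_int (hd : 1 ≤ d) (b : Vec d → Vec d) {r τ : ℝ} (hr : 1 < d * r) (hτ : 0 < τ) (v : Vec d) :
    ∫⁻ t : ℝ, W b τ v t ^ (-r) ≤
      d * ENNReal.ofReal (2 * (d * r) / (d * r - 1) * (τ ^ ((d : ℝ)⁻¹)) ^ (1 - d * r)) := by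
  obtain ⟨μ, hμc, hμ⟩ := det_centers (fderiv ℝ b v)
  rw [finrank_euclideanSpace_fin] at hμc
  have hd0 : (0 : ℝ) < d := by exact_mod_cast hd
  have hr0 : 0 < r := by
    by_contra hcon
    push Not at hcon
    nlinarith
  refine le_trans (lintegral_mono fun t => ?_) (trunc_prod hd hr hτ μ hμc)
  show W b τ v t ^ (-r) ≤ _
  unfold W
  have h1 : 0 < max (μ.map (fun m => |t - m|)).prod τ := lt_max_of_lt_right hτ
  have h2 : max (μ.map (fun m => |t - m|)).prod τ ≤ max |(Dm b t v).det| τ :=
    max_le_max_right τ (hμ t)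
  rw [ENNReal.ofReal_rpow_of_pos (h1.trans_le h2)]
  apply ENNReal.ofReal_le_ofReal
  exact Real.rpow_le_rpow_of_nonpos h1 h2 (by linarith)

/-- The core estimate. -/
theorem core (hd : 1 ≤ d) {L : ℝ≥0} {b : Vec d → Vec d} (hb : LipschitzWith L b) {M : ℕ}
    (hM : FewPre M b) {V : Set (Vec d)} (hV : MeasurableSet V)
    (hV2 : V ⊆ ball 0 2) (R : ℝ) {r τ : ℝ} (hr : 1 < d * r) (hτ : 0 < τ) :
    ∫⁻ t : ℝ, ∫⁻ x : Vec d, (∫⁻ v in V, ker b R t x v) ^ (r + 1) ≤
      (M * volume (closedBall (0 : Vec d) R) + ENNReal.ofReal τ * volume V) ^ r *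
        (volume (closedBall (0 : Vec d) R) * (volume V *
          (d * ENNReal.ofReal (2 * (d * r) / (d * r - 1) * (τ ^ ((d : ℝ)⁻¹)) ^ (1 - d * r))))) := by
  have hd0 : (0 : ℝ) < d := by exact_mod_cast hd
  have hr0 : 0 < r := by
    by_contra hcon
    push Not at hcon
    nlinarith
  have hbc : Continuous b := hb.continuous
  set Q := (M * volume (closedBall (0 : Vec d) R) + ENNReal.ofReal τ * volume V) ^ r with hQ
  have hvol : ∀ x : Vec d, volume (closedBall x R) = volume (closedBall (0 : Vec d) R) :=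
    fun x => Measure.addHaar_closedBall_center _ _ _
  have hstep : ∀ t : ℝ, (∫⁻ x : Vec d, ∫⁻ v in V, ker b R t x v * W b τ v t ^ (-r)) =
      volume (closedBall (0 : Vec d) R) * ∫⁻ v in V, W b τ v t ^ (-r) := by
    intro t
    have hWm : Measurable (fun v => W b τ v t ^ (-r)) := (W_meas_left b τ t).pow_const _
    rw [lintegral_lintegral_swap (prod_meas hbc R τ r t).aemeasurable,
      ← lintegral_const_mul _ hWm]
    refine lintegral_congr fun v => ?_
    have h1 : ∀ x, ker b R t x v * W b τ v t ^ (-r) =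
        W b τ v t ^ (-r) * (closedBall (b v + t • v) R).indicator (fun _ => 1) x := by
      intro x
      rw [ker_symm, mul_comm]
    simp only [h1]
    rw [lintegral_const_mul _ (measurable_const.indicator measurableSet_closedBall),
      lintegral_indicator_const measurableSet_closedBall, one_mul, hvol, mul_comm]
  calc ∫⁻ t : ℝ, ∫⁻ x : Vec d, (∫⁻ v in V, ker b R t x v) ^ (r + 1)
      ≤ ∫⁻ t : ℝ, ∫⁻ x : Vec d, Q * ∫⁻ v in V, ker b R t x v * W b τ v t ^ (-r) := by
        apply lintegral_mono_ae
        filter_upwards [hM] with t ht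
        apply lintegral_mono
        intro x
        have := point_bound hb ht hV hV2 R hr0 hτ x
        rw [hvol] at this
        exact this
    _ = ∫⁻ t : ℝ, Q * (volume (closedBall (0 : Vec d) R) * ∫⁻ v in V, W b τ v t ^ (-r)) := by
        refine lintegral_congr fun t => ?_
        rw [← hstep t]
        exact lintegral_const_mul _ (prod_meas hbc R τ r t).lintegral_prod_right'
    _ = Q * (volume (closedBall (0 : Vec d) R) * ∫⁻ t : ℝ, ∫⁻ v in V, W b τ v t ^ (-r)) := by
        have h1 : Measurable (fun t : ℝ => ∫⁻ v in V, W b τ v t ^ (-r)) :=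
          (Wpow_meas' b τ r).lintegral_prod_right'
        rw [lintegral_const_mul _ (h1.const_mul _), lintegral_const_mul _ h1]
    _ = Q * (volume (closedBall (0 : Vec d) R) * ∫⁻ v in V, ∫⁻ t : ℝ, W b τ v t ^ (-r)) := by
        rw [lintegral_lintegral_swap (Wpow_meas' b τ r).aemeasurable]
    _ ≤ Q * (volume (closedBall (0 : Vec d) R) * ∫⁻ v in V,
          (d * ENNReal.ofReal (2 * (d * r) / (d * r - 1) * (τ ^ ((d : ℝ)⁻¹)) ^ (1 - d * r)))) := by
        gcongr with v
        exact weight_int hd b hr hτ v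
    _ = _ := by
        rw [lintegral_const, Measure.restrict_apply_univ, mul_comm (volume V)]

end Pool.Agent.H810R3.Tub
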