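import Pool.Agent.H810R3.Tub.Main

set_option autoImplicit false

/-! Assembly of the constants. -/

open MeasureTheory Set Filter Topology ENNReal NNReal Metric

namespace Pool.Agent.H810R3.Tub

open Pool.Agent.H803R2.Kak

variable {d : ℕ}

/-- volume of the unit ball -/
noncomputable def om (d : ℕ) : ℝ := (volume (closedBall (0 : Vec d) 1)).toReal

theorem om_pos : 0 < om d :=
  ENNReal.toReal_pos (measure_closedBall_pos _ _ one_pos).ne' measure_closedBall_lt_top.ne

theorem vol_closedBall {R : ℝ} (hR : 0 < R) :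
    volume (closedBall (0 : Vec d) R) = ENNReal.ofReal (R ^ d * om d) := by
  have h := Measure.addHaar_closedBall_mul (volume : Measure (Vec d)) (0:(Vec d)) hR.le (s := 1) zero_le_one
  rw [mul_one, finrank_euclideanSpace_fin] at h
  rw [h, ENNReal.ofReal_mul (by positivity), om, ENNReal.ofReal_toReal measure_closedBall_lt_top.ne]

theorem vol_ball (hd : 1 ≤ d) {R : ℝ} (hR : 0 < R) :
    volume (ball (0 : Vec d) R) = ENNReal.ofReal (R ^ d * om d) := by
  have : Nonempty (Fin d) := ⟨⟨0, hd⟩⟩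
  have : Nontrivial (Vec d) := inferInstance
  rw [← vol_closedBall hR, Measure.addHaar_closedBall_eq_addHaar_ball]

theorem main_int (hd : 1 ≤ d) {ι : Type} [Fintype ι] {L K S : ℝ≥0} {M : ℕ} {b : Vec d → Vec d}
    (hb : LipschitzWith L b) (hM : FewPre M b)
    {δ : ℝ} (hδ : 0 < δ) (hδ1 : δ < 1) (v β : ι → Vec d) (s : ι → ℝ) (hv : ∀ i, ‖v i‖ ≤ 1)
    (hs : ∀ i, |s i| ≤ S) (hβ : ∀ i, ‖β i - b (v i)‖ ≤ K * δ)
    (hsep : ∀ i j, i ≠ j → δ ≤ ‖v i - v j‖) {N : ℝ} (hN : N = Fintype.card ι) (hN1 : 1 ≤ N)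
    {r : ℝ} (hr : 1 < d * r) :
    ∫⁻ t : ℝ, ∫⁻ x : Vec d, Fe δ v β s x t ^ (r + 1) ≤
      ENNReal.ofReal ((M * (2 * (4 + K + L + S)) ^ d + 1) ^ r * (2 * (4 + K + L + S)) ^ d * d *
        (2 * (d * r) / (d * r - 1)) * ((δ / 2) ^ d * om d) * (N * (N⁻¹ ^ ((d : ℝ)⁻¹)) ^ (1 - d * r))) := by
  classical
  have hd0 : (0 : ℝ) < d := by exact_mod_cast hd
  have hr0 : 0 < r := by
    by_contra hcon
    push Not at hcon
    nlinarith
  have hL0 : (0 : ℝ) ≤ L := L.2
  have hK0 : (0 : ℝ) ≤ K := K.2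
  have hS0 : (0 : ℝ) ≤ S := S.2
  have hN0 : 0 < N := by linarith
  set g : ℝ := (δ / 2) ^ d * om d with hg
  have hg0 : 0 < g := mul_pos (by positivity) om_pos
  set A : ℝ := (2 * (4 + K + L + S)) ^ d with hA
  have hA0 : 0 < A := by positivity
  set c : ℝ := 2 * (d * r) / (d * r - 1) with hc
  have hc0 : 0 < c := div_pos (by linarith) (by linarith)
  set ρ : ℝ := (N⁻¹ ^ ((d : ℝ)⁻¹)) ^ (1 - d * r) with hρ
  have hρ0 : 0 < ρ := Real.rpow_pos_of_pos (Real.rpow_pos_of_pos (inv_pos.2 hN0) _) _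
  set R : ℝ := (4 + K + L + S) * δ with hR
  have hR0 : 0 < R := by positivity
  set V : Set (Vec d) := ⋃ i, ball (v i) (δ / 2) with hV
  have hVm : MeasurableSet V := MeasurableSet.iUnion fun i => measurableSet_ball
  have hV2 : V ⊆ ball 0 2 := by
    intro w hw
    obtain ⟨i, hi⟩ := mem_iUnion.1 hw
    rw [mem_ball, dist_eq_norm] at hi
    rw [mem_ball, dist_zero_right]
    calc ‖w‖ = ‖(w - v i) + v i‖ := by congr 1; abel
      _ ≤ ‖w - v i‖ + ‖v i‖ := norm_add_le _ _
      _ < 2 := by linarith [hv i]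
  have hβ0 : volume (ball (0 : Vec d) (δ / 2)) = ENNReal.ofReal g := vol_ball hd (by linarith)
  have hBR : volume (closedBall (0 : Vec d) R) = ENNReal.ofReal (A * g) := by
    rw [vol_closedBall hR0]
    congr 1
    rw [hA, hg, hR, ← mul_assoc, ← mul_pow]
    congr 2
    ring
  have hVv : volume V ≤ ENNReal.ofReal (N * g) := by
    calc volume V ≤ ∑' i, volume (ball (v i) (δ / 2)) := measure_iUnion_le _
      _ = ∑ i : ι, ENNReal.ofReal g := by
          rw [tsum_fintype]
          refine Finset.sum_congr rfl fun i _ => ?_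
          rw [← hβ0]
          exact Measure.addHaar_ball_center volume (v i) (δ / 2)
      _ = ENNReal.ofReal (N * g) := by
          rw [Finset.sum_const, Finset.card_univ, nsmul_eq_mul, hN, ENNReal.ofReal_mul (Nat.cast_nonneg _),
            ENNReal.ofReal_natCast]
  have hcore := core hd hb hM hVm hV2 R (τ := N⁻¹) hr (inv_pos.2 hN0)
  have hRHS : (M * volume (closedBall (0 : Vec d) R) + ENNReal.ofReal N⁻¹ * volume V) ^ r *
        (volume (closedBall (0 : Vec d) R) * (volume V *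
          (d * ENNReal.ofReal (2 * (d * r) / (d * r - 1) * (N⁻¹ ^ ((d : ℝ)⁻¹)) ^ (1 - d * r))))) ≤
      ENNReal.ofReal (((M * A + 1) ^ r * A * d * c * g * (N * ρ)) * g ^ (r + 1)) := by
    have h1 : M * volume (closedBall (0 : Vec d) R) + ENNReal.ofReal N⁻¹ * volume V ≤
        ENNReal.ofReal ((M * A + 1) * g) := by
      calc M * volume (closedBall (0 : Vec d) R) + ENNReal.ofReal N⁻¹ * volume V
          ≤ M * ENNReal.ofReal (A * g) + ENNReal.ofReal N⁻¹ * ENNReal.ofReal (N * g) := by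
            rw [hBR]
            gcongr
        _ = ENNReal.ofReal ((M * A + 1) * g) := by
            rw [← ENNReal.ofReal_natCast M, ← ENNReal.ofReal_mul (Nat.cast_nonneg _),
              ← ENNReal.ofReal_mul (by positivity), ← ENNReal.ofReal_add (by positivity) (by positivity)]
            congr 1
            field_simp
    calc _ ≤ (ENNReal.ofReal ((M * A + 1) * g)) ^ r * (ENNReal.ofReal (A * g) * (ENNReal.ofReal (N * g) *
          (d * ENNReal.ofReal (c * ρ)))) := by
          rw [hBR] at h1 ⊢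
          exact mul_le_mul' (ENNReal.rpow_le_rpow h1 hr0.le)
            (mul_le_mul' le_rfl (mul_le_mul' hVv le_rfl))
      _ = ENNReal.ofReal (((M * A + 1) ^ r * A * d * c * g * (N * ρ)) * g ^ (r + 1)) := by
          rw [ENNReal.ofReal_rpow_of_pos (by positivity), ← ENNReal.ofReal_natCast d,
            ← ENNReal.ofReal_mul (by positivity), ← ENNReal.ofReal_mul (by positivity),
            ← ENNReal.ofReal_mul (by positivity), ← ENNReal.ofReal_mul (by positivity)]
          congr 1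
          rw [Real.mul_rpow (by positivity) hg0.le, Real.rpow_add_one hg0.ne']
          ring
  have hLHS : (∫⁻ t : ℝ, ∫⁻ x : Vec d, Fe δ v β s x t ^ (r + 1)) * ENNReal.ofReal (g ^ (r + 1)) ≤
      ∫⁻ t : ℝ, ∫⁻ x : Vec d, (∫⁻ w in V, ker b R t x w) ^ (r + 1) := by
    rw [← lintegral_mul_const' _ _ ENNReal.ofReal_ne_top]
    refine lintegral_mono fun t => ?_
    simp only
    rw [← lintegral_mul_const' _ _ ENNReal.ofReal_ne_top]
    refine lintegral_mono fun x => ?_
    simp only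
    have h1 := Fe_le hb hδ hδ1 v β s hv hs hβ hsep x t
    rw [hβ0] at h1
    have h2 : ENNReal.ofReal (g ^ (r + 1)) = (ENNReal.ofReal g) ^ (r + 1) :=
      (ENNReal.ofReal_rpow_of_pos hg0).symm
    rw [h2, ← ENNReal.mul_rpow_of_nonneg _ _ (by linarith)]
    exact ENNReal.rpow_le_rpow h1 (by linarith)
  have hG0 : ENNReal.ofReal (g ^ (r + 1)) ≠ 0 := by
    rw [ne_eq, ENNReal.ofReal_eq_zero, not_le]
    exact Real.rpow_pos_of_pos hg0 _
  have hfin := hLHS.trans (hcore.trans hRHS)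
  rw [ENNReal.ofReal_mul (by positivity)] at hfin
  exact (ENNReal.mul_le_mul_iff_left hG0 ENNReal.ofReal_ne_top).1 hfin

end Pool.Agent.H810R3.Tub
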