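import Pool.Agent.H810R3.Tub.Compare

set_option autoImplicit false

/-! Boxes with axes in a Lipschitz family of lines with few preimages. -/

open MeasureTheory Set Filter Topology ENNReal NNReal Metric

namespace Pool.Agent.H810R3.Tub

variable {d : ℕ}

theorem ae_smul {E : Type*} [NormedAddCommGroup E] [NormedSpace ℝ E] [FiniteDimensional ℝ E]
    [MeasurableSpace E] [BorelSpace E] (μ : Measure E) [μ.IsAddHaarMeasure] {r : ℝ} (hr : r ≠ 0)
    {p : E → Prop} (h : ∀ᵐ x ∂μ, p x) : ∀ᵐ x ∂μ, p (r • x) := by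
  have hq : Measure.QuasiMeasurePreserving (fun x : E => r • x) μ μ := by
    refine ⟨measurable_const_smul r, ?_⟩
    rw [Measure.map_addHaar_smul μ hr]
    exact Measure.smul_absolutelyContinuous
  exact hq.ae h

theorem fewPre_smul {M : ℕ} {b : Vec d → Vec d} (h : FewPre M b) {l : ℝ} (hl : l ≠ 0) :
    FewPre M (fun v => l • b v) := by
  unfold FewPre at h ⊢
  have hl' : l⁻¹ ≠ 0 := inv_ne_zero hl
  have h1 := ae_smul (volume : Measure ℝ) hl' h
  filter_upwards [h1] with t ht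
  have h2 := ae_smul (volume : Measure (Vec d)) hl' ht
  filter_upwards [h2] with y hy
  refine le_trans (Set.encard_le_encard ?_) hy
  rintro v ⟨g1, g2, g3, g4⟩
  have hbd : DifferentiableAt ℝ b v := by
    have e : b = fun w => l⁻¹ • (l • b w) := by
      funext w
      rw [smul_smul, inv_mul_cancel₀ hl, one_smul]
    rw [e]
    exact g2.const_smul l⁻¹
  refine ⟨g1, hbd, ?_, ?_⟩
  · rw [← g3, smul_add, smul_smul, inv_mul_cancel₀ hl, one_smul, smul_smul, smul_eq_mul]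
  · have e : Dm (fun w => l • b w) t v = l • Dm b (l⁻¹ • t) v := by
      unfold Dm
      rw [fderiv_fun_const_smul hbd, smul_add, smul_smul, smul_eq_mul, ← mul_assoc, mul_inv_cancel₀ hl, one_mul]
    rw [e] at g4
    intro h0
    apply g4
    rw [ContinuousLinearMap.det, ContinuousLinearMap.toLinearMap_smul, LinearMap.det_smul]
    rw [ContinuousLinearMap.det] at h0
    rw [h0, mul_zero]

/-- The integral bound for Lipschitz families with few preimages. -/
theorem int_lip (d : ℕ) (hd : 1 ≤ d) (q : ℝ) (hq : ((d : ℝ) + 1) / d < q) :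
    ∃ E : ℝ, 0 < E ∧ ∀ (L K S : ℝ≥0) (M : ℕ) (b : Vec d → Vec d),
      LipschitzOnWith L b (ball 0 2) → FewPre M b →
      ∀ δ : ℝ, 0 < δ → δ < 1 → ∀ (ι : Type) [Fintype ι] [Nonempty ι] (v β : ι → Vec d) (s : ι → ℝ),
        (∀ i, ‖v i‖ ≤ 1) → (∀ i, |s i| ≤ S) → (∀ i, ‖β i - b (v i)‖ ≤ K * δ) →
        (∀ i j, i ≠ j → δ ≤ ‖v i - v j‖) →
        ∫⁻ t : ℝ, ∫⁻ x : Vec d, Fe δ v β s x t ^ q
          ≤ ENNReal.ofReal (E * ((1 + M) * (1 + K + L + S : ℝ) ^ d) ^ q * δ ^ d *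
              (Fintype.card ι : ℝ) ^ (q - 1 / d)) := by
  obtain ⟨D, hD0, hD⟩ := int_aux d hd q hq
  have hd0 : (0 : ℝ) < d := by exact_mod_cast hd
  have hq0 : 0 < q := lt_trans (by positivity) hq
  set c : ℝ≥0 := lipschitzExtensionConstant (Vec d) with hc
  have hc0 : (0 : ℝ) ≤ c := c.2
  refine ⟨D * ((8 * (1 + c) : ℝ) ^ d) ^ q, by positivity, ?_⟩
  intro L K S M b hb hM δ hδ hδ1 ι _ _ v β s hv hs hβ hsep
  have hL0 : (0 : ℝ) ≤ L := L.2
  have hK0 : (0 : ℝ) ≤ K := K.2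
  have hS0 : (0 : ℝ) ≤ S := S.2
  have hM0 : (0 : ℝ) ≤ M := Nat.cast_nonneg _
  obtain ⟨g, hg1, hg2⟩ := hb.extend_finite_dimension
  have hgM := fewPre_congr hg2 hM
  have hβ' : ∀ i, ‖β i - g (v i)‖ ≤ K * δ := by
    intro i
    rw [← hg2 (show v i ∈ ball (0 : Vec d) 2 by
      rw [mem_ball, dist_zero_right]
      linarith [hv i])]
    exact hβ i
  have key := hD (lipschitzExtensionConstant (Vec d) * L) K S _ g hg1 hgM δ hδ hδ1 ι v β s hv hs hβ' hsep
    (8 * (1 + c) * (1 + K + L + S)) (by nlinarith [mul_nonneg hc0 (show (0:ℝ) ≤ 1 + K + L + S by positivity)])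
    (by
      rw [← hc]
      push_cast
      nlinarith [mul_nonneg hc0 hL0, mul_nonneg hc0 hK0, mul_nonneg hc0 hS0])
  refine key.trans (ENNReal.ofReal_le_ofReal ?_)
  have h1 : (1 + M : ℝ) ^ (q - 1) ≤ (1 + M : ℝ) ^ q :=
    Real.rpow_le_rpow_of_exponent_le (by linarith) (by linarith)
  calc D * (1 + M : ℝ) ^ (q - 1) * ((8 * (1 + c) * (1 + K + L + S) : ℝ) ^ d) ^ q * δ ^ d *
        (Fintype.card ι : ℝ) ^ (q - 1 / d)
      ≤ D * (1 + M : ℝ) ^ q * ((8 * (1 + c) * (1 + K + L + S) : ℝ) ^ d) ^ q * δ ^ d *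
        (Fintype.card ι : ℝ) ^ (q - 1 / d) := by gcongr
    _ = _ := by
        rw [mul_pow (8 * (1 + (c : ℝ))) (1 + K + L + S : ℝ) d, Real.mul_rpow (by positivity) (by positivity),
          Real.mul_rpow (x := (1 + M : ℝ)) (by positivity) (by positivity)]
        ring

/-- The `q`-th moment of a sum of boxes with axes in a Lipschitz family with few preimages. -/
theorem push_lip (d : ℕ) (hd : 1 ≤ d) (q : ℝ) (hq : ((d : ℝ) + 1) / d < q) (σ : ℝ) (hσ : 0 < σ)
    (hσ1 : σ ≤ 1) :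
    ∃ E : ℝ, 0 < E ∧ ∀ (L K S : ℝ≥0) (M : ℕ) (b : Vec d → Vec d),
      LipschitzOnWith L b (ball 0 2) → FewPre M b →
      ∀ N : ℝ, 1 ≤ N → ∀ (ι : Type) [Fintype ι] [Nonempty ι] (ω β : ι → Vec d) (s : ι → ℝ)
        (f : ι → Fin d → Space d),
        (∀ i, ‖ω i‖ ≤ 1) → (∀ i j, i ≠ j → σ / N ≤ ‖ω i - ω j‖) →
        (∀ i, Orthonormal ℝ (Fin.cons (nor (ω i)) (f i) : Fin (d + 1) → Space d)) →
        (∀ i, |s i| ≤ S * N ^ 2) → (∀ i, ‖β i - N ^ 2 • b (ω i)‖ ≤ K * N) →
        ∫⁻ y, Fb N ω f (fun i => WithLp.toLp 2 (β i + s i • (-(2 : ℝ) • ω i), s i)) y ^ q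
          ≤ ENNReal.ofReal (E * ((1 + M) * (1 + K + L + S : ℝ) ^ d) ^ q * N ^ (d + 2) *
              (Fintype.card ι : ℝ) ^ (q - 1 / d)) := by
  obtain ⟨E, hE0, hE⟩ := int_lip d hd q hq
  have hd0 : (0 : ℝ) < d := by exact_mod_cast hd
  have hq0 : 0 < q := lt_trans (by positivity) hq
  refine ⟨2 ^ d * ((1 + d) / σ) ^ (d + 1) * E * (σ / 2) ^ d, by positivity, ?_⟩
  intro L K S M b hL hM N hN ι _ _ ω β s f hω hsep hf hs hβ
  have hL0 : (0 : ℝ) ≤ L := L.2
  have hK0 : (0 : ℝ) ≤ K := K.2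
  have hS0 : (0 : ℝ) ≤ S := S.2
  have hM0 : (0 : ℝ) ≤ M := Nat.cast_nonneg _
  have hN0 : 0 < N := by linarith
  set c : ℝ := σ / ((1 + d) * N ^ 2) with hc
  have hc0 : 0 < c := by positivity
  set δ : ℝ := σ / (2 * N) with hδ
  have hδ0 : 0 < δ := by positivity
  have hδ1 : δ < 1 := by
    rw [hδ, div_lt_one (by positivity)]
    linarith
  have hcN : c * N ^ 2 = σ / (1 + d) := by
    rw [hc]; field_simp
  have hc1 : c * (N ^ 2 / 2 + d * N / 2) ≤ 1 / 2 := by
    have h1 : N ^ 2 / 2 + d * N / 2 ≤ (1 + d) * N ^ 2 / 2 := by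
      nlinarith [mul_nonneg hd0.le (sub_nonneg.2 hN)]
    calc c * (N ^ 2 / 2 + d * N / 2) ≤ c * ((1 + d) * N ^ 2 / 2) := mul_le_mul_of_nonneg_left h1 hc0.le
      _ = (c * N ^ 2) * (1 + d) / 2 := by ring
      _ = σ / 2 := by rw [hcN]; field_simp
      _ ≤ 1 / 2 := by linarith
  have hc2 : c * (d * N / 2) ≤ δ := by
    have h1 : c * (d * N / 2) = (σ / (2 * N)) * (d / (1 + d)) := by
      rw [hc]; field_simp
    rw [h1, hδ]
    have h2 : (d : ℝ) / (1 + d) ≤ 1 := by
      rw [div_le_one (by positivity)]; linarith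
    calc σ / (2 * N) * (d / (1 + d)) ≤ σ / (2 * N) * 1 := mul_le_mul_of_nonneg_left h2 (by positivity)
      _ = _ := mul_one _
  set l : ℝ := -(c / 2) * N ^ 2 with hl
  have hl0 : l ≠ 0 := by
    have : 0 < c / 2 * N ^ 2 := by positivity
    have e : l = -(c / 2 * N ^ 2) := by rw [hl]; ring
    rw [e]
    linarith
  have hPc : |l| ≤ 1 := by
    have : l = -(c * N ^ 2 / 2) := by rw [hl]; ring
    rw [this, abs_neg, hcN, abs_of_nonneg (by positivity), div_div, div_le_one (by positivity)]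
    linarith
  have hPL : LipschitzOnWith L (fun v => l • b v) (ball 0 2) := by
    apply LipschitzOnWith.of_dist_le_mul
    intro x hx y hy
    have h1 := hL.dist_le_mul x hx y hy
    rw [dist_smul₀, Real.norm_eq_abs]
    calc |l| * dist (b x) (b y) ≤ 1 * dist (b x) (b y) :=
          mul_le_mul_of_nonneg_right hPc dist_nonneg
      _ ≤ _ := by rw [one_mul]; exact h1
  have hcS : c * N ^ 2 ≤ 1 := by
    rw [hcN, div_le_one (by positivity)]
    linarith
  have key := hE L K S M _ hPL (fewPre_smul hM hl0) δ hδ0 hδ1 ι ω (fun i => -(c / 2) • β i)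
    (fun i => c * s i) hω
    (fun i => by
      rw [abs_mul, abs_of_pos hc0]
      calc c * |s i| ≤ c * (S * N ^ 2) := mul_le_mul_of_nonneg_left (hs i) hc0.le
        _ = S * (c * N ^ 2) := by ring
        _ ≤ S * 1 := mul_le_mul_of_nonneg_left hcS hS0
        _ = S := mul_one _)
    (fun i => by
      have e : -(c / 2) • β i - l • b (ω i) = -(c / 2) • (β i - N ^ 2 • b (ω i)) := by
        rw [smul_sub, smul_smul]
      rw [e, norm_smul, norm_neg, Real.norm_of_nonneg (by positivity)]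
      calc c / 2 * ‖β i - N ^ 2 • b (ω i)‖ ≤ c / 2 * (K * N) :=
            mul_le_mul_of_nonneg_left (hβ i) (by positivity)
        _ = K * ((c * N ^ 2) / (2 * N)) := by field_simp
        _ ≤ K * δ := by
            apply mul_le_mul_of_nonneg_left _ hK0
            rw [hδ, hcN]
            apply div_le_div_of_nonneg_right _ (by positivity)
            rw [div_le_iff₀ (by positivity)]
            nlinarith)
    (fun i j hij => by
      refine le_trans ?_ (hsep i j hij)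
      rw [hδ]
      apply div_le_div_of_nonneg_left hσ.le hN0
      linarith)
  set a : ι → Space d := fun i => WithLp.toLp 2 (β i + s i • (-(2 : ℝ) • ω i), s i) with ha
  have hpt : ∀ (x : Vec d) (t : ℝ), Fb N ω f a (WithLp.toLp 2 (x, t)) ≤
      Fe δ ω (fun i => -(c / 2) • β i) (fun i => c * s i) (-(c / 2) • x) (c * t) := by
    intro x t
    unfold Fb Fe
    refine Finset.sum_le_sum fun i _ => ?_
    by_cases hm : (WithLp.toLp 2 (x, t) : Space d) ∈ box N (nor (ω i)) (f i) (a i)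
    · have h1 := scl_box hN hc0 hc1 hc2 (hf i) hm
      have e1 : scl c (WithLp.toLp 2 (x, t) : Space d) = WithLp.toLp 2 (-(c / 2) • x, c * t) := rfl
      have e2 : scl c (a i) = WithLp.toLp 2 (-(c / 2) • β i + (c * s i) • ω i, c * s i) := by
        show (WithLp.toLp 2 (-(c / 2) • (β i + s i • (-(2 : ℝ) • ω i)), c * s i) : Space d) = _
        congr 1
        refine Prod.ext ?_ rfl
        show -(c / 2) • (β i + s i • (-(2 : ℝ) • ω i)) = -(c / 2) • β i + (c * s i) • ω i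
        rw [smul_add, smul_smul, smul_smul]
        congr 2
        ring
      rw [e1, e2] at h1
      rw [indicator_of_mem hm, indicator_of_mem h1]
    · rw [indicator_of_notMem hm]
      exact zero_le
  have hmp := WithLp.volume_preserving_toLp (Vec d) ℝ
  have hg : Measurable (fun y : Space d => Fb N ω f a y ^ q) := (Fb_measurable N ω f a).pow_const _
  have hS : ∫⁻ y : Space d, Fb N ω f a y ^ q = ∫⁻ t : ℝ, ∫⁻ x : Vec d, Fb N ω f a (WithLp.toLp 2 (x, t)) ^ q := by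
    rw [← hmp.lintegral_comp hg]
    have hg2 : Measurable (fun p : Vec d × ℝ => Fb N ω f a (WithLp.toLp 2 p) ^ q) := hg.comp hmp.measurable
    rw [Measure.volume_eq_prod, lintegral_prod_symm _ hg2.aemeasurable]
  rw [hS]
  have hc2' : -(c / 2) ≠ 0 := by
    have : 0 < c / 2 := by positivity
    linarith
  calc ∫⁻ t : ℝ, ∫⁻ x : Vec d, Fb N ω f a (WithLp.toLp 2 (x, t)) ^ q
      ≤ ∫⁻ t : ℝ, ∫⁻ x : Vec d, Fe δ ω (fun i => -(c / 2) • β i) (fun i => c * s i) (-(c / 2) • x) (c * t) ^ q :=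
        lintegral_mono fun t => lintegral_mono fun x => ENNReal.rpow_le_rpow (hpt x t) hq0.le
    _ = ∫⁻ t : ℝ, ENNReal.ofReal |((-(c / 2)) ^ d)⁻¹| *
          ∫⁻ x : Vec d, Fe δ ω (fun i => -(c / 2) • β i) (fun i => c * s i) x (c • t) ^ q := by
        refine lintegral_congr fun t => ?_
        rw [lint_smul volume hc2'
          (fun x => Fe δ ω (fun i => -(c / 2) • β i) (fun i => c * s i) x (c * t) ^ q),
          finrank_euclideanSpace_fin, smul_eq_mul]
    _ = ENNReal.ofReal |((-(c / 2)) ^ d)⁻¹| * (ENNReal.ofReal |(c ^ 1)⁻¹| *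
          ∫⁻ t : ℝ, ∫⁻ x : Vec d, Fe δ ω (fun i => -(c / 2) • β i) (fun i => c * s i) x t ^ q) := by
        rw [lintegral_const_mul' _ _ ENNReal.ofReal_ne_top, lint_smul volume hc0.ne'
          (fun t : ℝ => ∫⁻ x : Vec d, Fe δ ω (fun i => -(c / 2) • β i) (fun i => c * s i) x t ^ q),
          Module.finrank_self]
    _ ≤ ENNReal.ofReal |((-(c / 2)) ^ d)⁻¹| * (ENNReal.ofReal |(c ^ 1)⁻¹| *
          ENNReal.ofReal (E * ((1 + M) * (1 + K + L + S : ℝ) ^ d) ^ q * δ ^ d * (Fintype.card ι : ℝ) ^ (q - 1 / d))) := by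
        gcongr
    _ = ENNReal.ofReal (2 ^ d * ((1 + d) / σ) ^ (d + 1) * E * (σ / 2) ^ d * ((1 + M) * (1 + K + L + S : ℝ) ^ d) ^ q *
          N ^ (d + 2) * (Fintype.card ι : ℝ) ^ (q - 1 / d)) := by
        rw [← ENNReal.ofReal_mul (abs_nonneg _), ← ENNReal.ofReal_mul (abs_nonneg _)]
        congr 1
        have e1 : |((-(c / 2)) ^ d)⁻¹| = 2 ^ d * ((1 + d) / σ) ^ d * N ^ (2 * d) := by
          rw [abs_inv, abs_pow, abs_neg, abs_of_pos (by positivity : 0 < c / 2), hc, ← inv_pow]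
          have : (σ / ((1 + d) * N ^ 2) / 2)⁻¹ = 2 * ((1 + d) / σ) * N ^ 2 := by
            field_simp
          rw [this, mul_pow, mul_pow, ← pow_mul]
        have e2 : |(c ^ 1)⁻¹| = ((1 + d) / σ) * N ^ 2 := by
          rw [pow_one, abs_inv, abs_of_pos hc0, hc]
          field_simp
        have e3 : δ ^ d * N ^ d = (σ / 2) ^ d := by
          rw [← mul_pow, hδ]
          congr 1
          field_simp
        rw [e1, e2]
        calc 2 ^ d * ((1 + (d : ℝ)) / σ) ^ d * N ^ (2 * d) * (((1 + d) / σ) * N ^ 2 *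
              (E * ((1 + M) * (1 + K + L + S : ℝ) ^ d) ^ q * δ ^ d * (Fintype.card ι : ℝ) ^ (q - 1 / d)))
            = 2 ^ d * ((1 + (d : ℝ)) / σ) ^ (d + 1) * E * (δ ^ d * N ^ d) * ((1 + M) * (1 + K + L + S : ℝ) ^ d) ^ q *
              N ^ (d + 2) * (Fintype.card ι : ℝ) ^ (q - 1 / d) := by
              rw [pow_succ ((1 + (d : ℝ)) / σ) d, show 2 * d = d + d by ring, pow_add N d d, pow_add N d 2]
              ring
          _ = _ := by rw [e3]

end Pool.Agent.H810R3.Tub
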