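import Pool.Agent.H810R3.Tub.Push

set_option autoImplicit false

/-! Interpolation with the centred family. -/

open MeasureTheory Set Filter Topology ENNReal NNReal Metric

namespace Pool.Agent.H810R3.Tub

variable {d : ℕ}

theorem real_ineq {V Q B D p q : ℝ} (hV : 0 < V) (hQ : 0 < Q) (hB : 0 < B) (hD : 1 ≤ D) (hq : 1 < q)
    (hp : 1 ≤ p) (hpq : p ≤ q) (h : Q * B ^ (q - 1) ≤ D ^ q * V ^ q) :
    V ^ (1 - (p - 1) / (q - 1)) * Q ^ ((p - 1) / (q - 1)) ≤ D ^ p * (V ^ p * (B ^ (p - 1))⁻¹) := by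
  have hq1 : 0 < q - 1 := by linarith
  set w : ℝ := (p - 1) / (q - 1) with hw
  have hw0 : 0 ≤ w := div_nonneg (by linarith) hq1.le
  have hwq : w * (q - 1) = p - 1 := div_mul_cancel₀ _ hq1.ne'
  have hD0 : 0 < D := by linarith
  have h1 : Q ≤ D ^ q * V ^ q * (B ^ (q - 1))⁻¹ := by
    rw [← div_eq_mul_inv, le_div_iff₀ (Real.rpow_pos_of_pos hB _)]
    exact h
  have h2 : Q ^ w ≤ D ^ (q * w) * V ^ (q * w) * (B ^ (p - 1))⁻¹ := by
    calc Q ^ w ≤ (D ^ q * V ^ q * (B ^ (q - 1))⁻¹) ^ w := Real.rpow_le_rpow hQ.le h1 hw0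
      _ = D ^ (q * w) * V ^ (q * w) * (B ^ (p - 1))⁻¹ := by
          rw [Real.mul_rpow (by positivity) (by positivity), Real.mul_rpow (by positivity) (by positivity),
            ← Real.rpow_mul hD0.le, ← Real.rpow_mul hV.le, Real.inv_rpow (by positivity),
            ← Real.rpow_mul hB.le]
          congr 3
          rw [← hwq]; ring
  have h3 : D ^ (q * w) ≤ D ^ p := by
    apply Real.rpow_le_rpow_of_exponent_le hD
    have hw1 : w ≤ 1 := by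
      rw [hw, div_le_one hq1]; linarith
    have : q * w = w * (q - 1) + w := by ring
    rw [this, hwq]
    linarith
  have h4 : V ^ (1 - w) * V ^ (q * w) = V ^ p := by
    rw [← Real.rpow_add hV]
    congr 1
    have : 1 - w + q * w = 1 + w * (q - 1) := by ring
    rw [this, hwq]
    ring
  calc V ^ (1 - w) * Q ^ w ≤ V ^ (1 - w) * (D ^ (q * w) * V ^ (q * w) * (B ^ (p - 1))⁻¹) :=
        mul_le_mul_of_nonneg_left h2 (by positivity)
    _ = D ^ (q * w) * ((V ^ (1 - w) * V ^ (q * w)) * (B ^ (p - 1))⁻¹) := by ring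
    _ ≤ D ^ p * ((V ^ (1 - w) * V ^ (q * w)) * (B ^ (p - 1))⁻¹) := by
        apply mul_le_mul_of_nonneg_right h3 (by positivity)
    _ = _ := by rw [h4]

/-- Interpolation between `1` and `q`. -/
theorem interp {α : Type*} [MeasurableSpace α] {μ : Measure α} {F : α → ℝ≥0∞} (hF : Measurable F)
    {p q : ℝ} (hq : 1 < q) (hp : 1 ≤ p) (hpq : p ≤ q) :
    ∫⁻ a, F a ^ p ∂μ ≤ (∫⁻ a, F a ∂μ) ^ (1 - (p - 1) / (q - 1)) * (∫⁻ a, F a ^ q ∂μ) ^ ((p - 1) / (q - 1)) := by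
  have hq1 : 0 < q - 1 := by linarith
  set w : ℝ := (p - 1) / (q - 1) with hw
  have hw0 : 0 ≤ w := div_nonneg (by linarith) hq1.le
  have hw1 : w ≤ 1 := by
    rw [hw, div_le_one hq1]; linarith
  have hwq : w * (q - 1) = p - 1 := div_mul_cancel₀ _ hq1.ne'
  have h := ENNReal.lintegral_mul_norm_pow_le (μ := μ) hF.aemeasurable (hF.pow_const q).aemeasurable
    (sub_nonneg.2 hw1) hw0 (by ring)
  refine le_trans (le_of_eq ?_) h
  refine lintegral_congr fun a => ?_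
  rw [← ENNReal.rpow_mul, ← ENNReal.rpow_add_of_nonneg _ _ (sub_nonneg.2 hw1) (by positivity)]
  congr 1
  have : 1 - w + q * w = 1 + w * (q - 1) := by ring
  rw [this, hwq]
  ring

/-- Hölder on a set. -/
theorem lower {α : Type*} [MeasurableSpace α] {μ : Measure α} {F : α → ℝ≥0∞} (hF : Measurable F)
    {B : Set α} (hB : MeasurableSet B) (hFB : ∀ a ∉ B, F a = 0) {p : ℝ} (hp : 1 ≤ p) :
    (∫⁻ a, F a ∂μ) ^ p ≤ (∫⁻ a, F a ^ p ∂μ) * μ B ^ (p - 1) := by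
  have hp0 : 0 < p := by linarith
  have h := ENNReal.lintegral_mul_norm_pow_le (μ := μ) (hF.pow_const p).aemeasurable
    (measurable_const.indicator hB : Measurable (B.indicator (fun _ => (1 : ℝ≥0∞)))).aemeasurable
    (p := 1 / p) (q := 1 - 1 / p) (by positivity) (by
      rw [sub_nonneg, div_le_one hp0]; exact hp) (by ring)
  have e0 : ∫⁻ a, B.indicator (fun _ => (1 : ℝ≥0∞)) a ∂μ = μ B := by
    rw [lintegral_indicator hB]
    simp
  rw [e0] at h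
  have e : ∫⁻ a, F a ∂μ ≤ ∫⁻ a, (F a ^ p) ^ (1 / p) * (B.indicator (fun _ => (1 : ℝ≥0∞)) a) ^ (1 - 1 / p) ∂μ := by
    refine lintegral_mono fun a => ?_
    simp only
    by_cases ha : a ∈ B
    · rw [indicator_of_mem ha, ENNReal.one_rpow, mul_one, ← ENNReal.rpow_mul, mul_one_div_cancel hp0.ne',
        ENNReal.rpow_one]
    · rw [hFB a ha]
      exact zero_le
  have h2 := ENNReal.rpow_le_rpow (e.trans h) hp0.le
  refine h2.trans (le_of_eq ?_)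
  rw [ENNReal.mul_rpow_of_nonneg _ _ hp0.le, ← ENNReal.rpow_mul, ← ENNReal.rpow_mul,
    one_div_mul_cancel hp0.ne', ENNReal.rpow_one]
  congr 2
  field_simp

theorem rpow_c {N c κ : ℝ} {d : ℕ} (hd0 : (0 : ℝ) < d) (hN : 0 < N) (hκ : 0 < κ) (h : κ * N ^ d ≤ c) (q : ℝ) :
    c ^ (q - 1 / d) ≤ c ^ q * (κ ^ (-(1 / (d : ℝ))) * N ^ (-1 : ℝ)) := by
  have hc : 0 < c := lt_of_lt_of_le (by positivity) h
  have e1 : q - 1 / d = q + -(1 / (d : ℝ)) := by ring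
  rw [e1, Real.rpow_add hc]
  apply mul_le_mul_of_nonneg_left _ (by positivity)
  have h1 : c ^ (-(1 / (d : ℝ))) ≤ (κ * N ^ d) ^ (-(1 / (d : ℝ))) :=
    Real.rpow_le_rpow_of_nonpos (by positivity) h (by
      have : 0 < 1 / (d : ℝ) := by positivity
      linarith)
  refine h1.trans (le_of_eq ?_)
  rw [Real.mul_rpow hκ.le (by positivity), ← Real.rpow_natCast N d, ← Real.rpow_mul hN.le]
  congr 2
  field_simp

theorem arith1 {d : ℕ} (hd0 : (0 : ℝ) < d) {E Y q η ε N c κ b C : ℝ} (hE : 0 < E) (hY : 0 < Y)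
    (hq : 1 < q) (hηq : d * q - d - 1 = η * q) (hηε : η ≤ ε) (hN : 1 ≤ N) (hκ : 0 < κ)
    (hc : κ * N ^ d ≤ c) (hb : 0 < b) (hC : E * b ^ (q - 1) * κ ^ (-(1 / (d : ℝ))) ≤ C) :
    (E * Y * N ^ (d + 2) * c ^ (q - 1 / d)) * (b * N ^ (2 * (d + 1))) ^ (q - 1) ≤
      (C * Y * N ^ (ε * q)) * (c * N ^ (d + 2)) ^ q := by
  have hN0 : 0 < N := by linarith
  have hc0 : 0 < c := lt_of_lt_of_le (by positivity) hc
  have e1 : (b * N ^ (2 * (d + 1))) ^ (q - 1) = b ^ (q - 1) * N ^ ((2 * (d + 1)) * (q - 1)) := by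
    rw [Real.mul_rpow hb.le (by positivity), ← Real.rpow_natCast N, ← Real.rpow_mul hN0.le]
    push_cast
    rfl
  have e2 : (c * N ^ (d + 2)) ^ q = c ^ q * N ^ (((d : ℝ) + 2) * q) := by
    rw [Real.mul_rpow hc0.le (by positivity), ← Real.rpow_natCast N, ← Real.rpow_mul hN0.le]
    push_cast
    rfl
  have e3 : (N : ℝ) ^ (d + 2) = N ^ ((d : ℝ) + 2) := by
    rw [← Real.rpow_natCast N]
    push_cast
    rfl
  have h1 := rpow_c hd0 hN0 hκ hc q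
  have h2 : N ^ ((d : ℝ) + 2) * N ^ (-1 : ℝ) * N ^ ((2 * ((d : ℝ) + 1)) * (q - 1)) ≤
      N ^ (ε * q) * N ^ (((d : ℝ) + 2) * q) := by
    rw [← Real.rpow_add hN0, ← Real.rpow_add hN0, ← Real.rpow_add hN0]
    apply Real.rpow_le_rpow_of_exponent_le hN
    have : η * q ≤ ε * q := mul_le_mul_of_nonneg_right hηε (by linarith)
    nlinarith
  rw [e1, e2, e3]
  calc E * Y * N ^ ((d : ℝ) + 2) * c ^ (q - 1 / d) * (b ^ (q - 1) * N ^ ((2 * ((d : ℝ) + 1)) * (q - 1)))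
      ≤ E * Y * N ^ ((d : ℝ) + 2) * (c ^ q * (κ ^ (-(1 / (d : ℝ))) * N ^ (-1 : ℝ))) *
        (b ^ (q - 1) * N ^ ((2 * ((d : ℝ) + 1)) * (q - 1))) := by gcongr
    _ = (E * b ^ (q - 1) * κ ^ (-(1 / (d : ℝ)))) * Y * c ^ q *
        (N ^ ((d : ℝ) + 2) * N ^ (-1 : ℝ) * N ^ ((2 * ((d : ℝ) + 1)) * (q - 1))) := by ring
    _ ≤ C * Y * c ^ q * (N ^ (ε * q) * N ^ (((d : ℝ) + 2) * q)) := by
        have : 0 ≤ C := le_trans (by positivity) hC
        gcongr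
    _ = _ := by ring

theorem arith2 {d : ℕ} (hd0 : (0 : ℝ) < d) {E Y q ε N c κ w C : ℝ} (hE : 0 < E) (hY : 0 < Y)
    (hq : 1 < q) (hε : 0 < ε) (hN : 1 ≤ N) (hκ : 0 < κ)
    (hc : κ * N ^ d ≤ c) (hw : 0 < w) (hC : E * κ ^ (-(1 / (d : ℝ))) * 2 ^ (d + 1) / w ≤ C) :
    E * Y * N ^ (d + 2) * c ^ (q - 1 / d) ≤
      (C * Y * N ^ (ε * q)) * (c ^ q * ((N / 2) ^ (d + 1) * w)) := by
  have hN0 : 0 < N := by linarith
  have hc0 : 0 < c := lt_of_lt_of_le (by positivity) hc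
  have h1 := rpow_c hd0 hN0 hκ hc q
  have h3 : (1 : ℝ) ≤ N ^ (ε * q) := Real.one_le_rpow hN (by positivity)
  have e3 : N ^ (d + 2) * N ^ (-1 : ℝ) = N ^ (d + 1) := by
    rw [Real.rpow_neg_one, pow_succ N (d + 1)]
    field_simp
  calc E * Y * N ^ (d + 2) * c ^ (q - 1 / d)
      ≤ E * Y * N ^ (d + 2) * (c ^ q * (κ ^ (-(1 / (d : ℝ))) * N ^ (-1 : ℝ))) := by gcongr
    _ = (E * κ ^ (-(1 / (d : ℝ))) * 2 ^ (d + 1) / w) * Y * 1 * (c ^ q * ((N / 2) ^ (d + 1) * w)) := by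
        rw [div_pow]
        have e4 : E * Y * N ^ (d + 2) * (c ^ q * (κ ^ (-(1 / (d : ℝ))) * N ^ (-1 : ℝ))) =
          E * Y * (c ^ q * κ ^ (-(1 / (d : ℝ)))) * (N ^ (d + 2) * N ^ (-1 : ℝ)) := by ring
        rw [e4, e3]
        field_simp
    _ ≤ _ := by
        have : 0 ≤ C := le_trans (by positivity) hC
        gcongr

end Pool.Agent.H810R3.Tub
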