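import Pool.Agent.H810R3.Tub.Core
import Pool.Agent.H803R2.KakFTO

set_option autoImplicit false

/-! Families of tubes with axes in a Lipschitz family of lines with few preimages. -/

open MeasureTheory Set Filter Topology ENNReal NNReal Metric

namespace Pool.Agent.H810R3.Tub

open Pool.Agent.H803R2.Kak

/-- Euclidean space `ℝ^{d+1}`, written as `ℝ^d × ℝ` with the Euclidean norm. -/
abbrev Space (d : ℕ) : Type := WithLp 2 (Vec d × ℝ)

/-- The closed tube of length `1` and radius `δ` with centre `a` and axis direction `e`. -/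
def tube {d : ℕ} (δ : ℝ) (e a : Space d) : Set (Space d) :=
  {y | |inner ℝ (y - a) e| ≤ 1 / 2 ∧ ‖(y - a) - (inner ℝ (y - a) e : ℝ) • e‖ ≤ δ}

/-- The unit vector `(v, 1)/√(1+|v|²)`. -/
noncomputable def dir {d : ℕ} (v : Vec d) : Space d :=
  (√(1 + ‖v‖ ^ 2))⁻¹ • WithLp.toLp 2 (v, (1:ℝ))

variable {d : ℕ}

theorem tube_eq (δ : ℝ) (v β : Vec d) (s : ℝ) :
    tube δ (dir v) (WithLp.toLp 2 (β + s • v, s)) =
      Pool.Agent.H803R2.KakFTO.tube δ (Pool.Agent.H803R2.KakFTO.dir v) (Pool.Agent.H803R2.KakFTO.linePt (fun _ => β) v s) := rfl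

theorem tube_closed (δ : ℝ) (e a : Space d) : IsClosed (tube δ e a) := by
  have h1 : Continuous (fun y : Space d => |inner ℝ (y - a) e|) := by fun_prop
  have h2 : Continuous (fun y : Space d => ‖(y - a) - (inner ℝ (y - a) e : ℝ) • e‖) := by fun_prop
  exact (isClosed_le h1 continuous_const).inter (isClosed_le h2 continuous_const)

/-- radial projection is a contraction outside the unit ball -/
theorem radial {H : Type*} [NormedAddCommGroup H] [InnerProductSpace ℝ H] {x y : H} (hx : 1 ≤ ‖x‖)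
    (hy : 1 ≤ ‖y‖) : ‖‖x‖⁻¹ • x - ‖y‖⁻¹ • y‖ ≤ ‖x - y‖ := by
  have hx0 : 0 < ‖x‖ := by linarith
  have hy0 : 0 < ‖y‖ := by linarith
  apply le_of_sq_le_sq _ (norm_nonneg _)
  have e1 : ‖‖x‖⁻¹ • x - ‖y‖⁻¹ • y‖ ^ 2 = 2 - 2 * (‖x‖⁻¹ * ‖y‖⁻¹ * inner ℝ x y) := by
    rw [@norm_sub_sq_real, norm_smul, norm_smul, inner_smul_left, inner_smul_right]
    simp only [norm_inv, norm_norm, conj_trivial]
    rw [inv_mul_cancel₀ hx0.ne', inv_mul_cancel₀ hy0.ne']
    ring
  have e2 : ‖x - y‖ ^ 2 = ‖x‖ ^ 2 - 2 * inner ℝ x y + ‖y‖ ^ 2 := @norm_sub_sq_real H _ _ x y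
  rw [e1, e2]
  have h1 : inner ℝ x y ≤ ‖x‖ * ‖y‖ := real_inner_le_norm x y
  set p := ‖x‖
  set q := ‖y‖
  set z : ℝ := inner ℝ x y
  have h2 : p⁻¹ * q⁻¹ * z = z / (p * q) := by field_simp
  rw [h2]
  have hpq : 1 ≤ p * q := by nlinarith
  have hpq0 : 0 < p * q := by linarith
  have h3 : z / (p * q) * (p * q) = z := div_mul_cancel₀ z hpq0.ne'
  set c := z / (p * q)
  have hc : c ≤ 1 := by
    rw [div_le_one hpq0]; exact h1
  rw [← h3]
  nlinarith [sq_nonneg (p - q), mul_nonneg (sub_nonneg.2 hpq) (sub_nonneg.2 hc)]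

theorem dir_sub_le (v w : Vec d) : ‖dir v - dir w‖ ≤ ‖v - w‖ := by
  have hn : ∀ u : Vec d, ‖(WithLp.toLp 2 (u, (1:ℝ)) : Space d)‖ = √(1 + ‖u‖ ^ 2) := by
    intro u
    rw [WithLp.prod_norm_eq_of_L2]
    congr 1
    show ‖u‖ ^ 2 + ‖(1:ℝ)‖ ^ 2 = 1 + ‖u‖ ^ 2
    simp; ring
  have h1 : ∀ u : Vec d, 1 ≤ ‖(WithLp.toLp 2 (u, (1:ℝ)) : Space d)‖ := by
    intro u
    rw [hn]
    exact Real.one_le_sqrt.2 (by nlinarith [sq_nonneg ‖u‖])
  have h2 := radial (h1 v) (h1 w)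
  have e : ∀ u : Vec d, dir u = ‖(WithLp.toLp 2 (u, (1:ℝ)) : Space d)‖⁻¹ • (WithLp.toLp 2 (u, (1:ℝ)) : Space d) := by
    intro u
    rw [hn]
    rfl
  rw [e, e]
  refine h2.trans (le_of_eq ?_)
  rw [← WithLp.toLp_sub, WithLp.prod_norm_eq_of_L2]
  show √(‖v - w‖ ^ 2 + ‖(1:ℝ) - 1‖ ^ 2) = ‖v - w‖
  simp

/-- The sum of the indicators of the tubes, as an extended nonnegative function. -/
noncomputable def Fe {ι : Type} [Fintype ι] (δ : ℝ) (v β : ι → Vec d) (s : ι → ℝ) (x : Vec d) (t : ℝ) :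
    ℝ≥0∞ :=
  ∑ i, (tube δ (dir (v i)) (WithLp.toLp 2 (β i + s i • v i, s i))).indicator (fun _ => (1 : ℝ≥0∞))
    (WithLp.toLp 2 (x, t))

/-- Pointwise comparison of the sum over the tubes with the continuous family. -/
theorem Fe_le {ι : Type} [Fintype ι] {L K S : ℝ≥0} {b : Vec d → Vec d} (hb : LipschitzWith L b)
    {δ : ℝ} (hδ : 0 < δ) (hδ1 : δ < 1) (v β : ι → Vec d) (s : ι → ℝ) (hv : ∀ i, ‖v i‖ ≤ 1)
    (hs : ∀ i, |s i| ≤ S) (hβ : ∀ i, ‖β i - b (v i)‖ ≤ K * δ)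
    (hsep : ∀ i j, i ≠ j → δ ≤ ‖v i - v j‖) (x : Vec d) (t : ℝ) :
    Fe δ v β s x t * volume (ball (0 : Vec d) (δ / 2)) ≤
      ∫⁻ w in ⋃ i, ball (v i) (δ / 2), ker b ((4 + K + L + S) * δ) t x w := by
  classical
  have hdis : Pairwise (Function.onFun Disjoint fun i => ball (v i) (δ / 2)) := by
    intro i j hij
    apply ball_disjoint_ball
    rw [dist_eq_norm]
    have := hsep i j hij
    linarith
  rw [lintegral_iUnion (fun i => measurableSet_ball) hdis, tsum_fintype]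
  unfold Fe
  rw [Finset.sum_mul]
  refine Finset.sum_le_sum fun i _ => ?_
  by_cases hmem : (WithLp.toLp 2 (x, t) : Space d) ∈ tube δ (dir (v i)) (WithLp.toLp 2 (β i + s i • v i, s i))
  · rw [indicator_of_mem hmem, one_mul]
    rw [tube_eq] at hmem
    obtain ⟨ht, hx⟩ := Pool.Agent.H803R2.KakFTO.tube_subset hδ hδ1 (fun _ => β i) (hv i) (s i) hmem
    have ht2 : |t| ≤ S + 3 / 2 := by
      have h1 := abs_le.1 (hs i)
      rw [abs_le]
      constructor <;> linarith [ht.1, ht.2, h1.1, h1.2]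
    have hone : ∀ w ∈ ball (v i) (δ / 2), ker b ((4 + K + L + S) * δ) t x w = 1 := by
      intro w hw
      unfold ker
      apply indicator_of_mem
      rw [mem_closedBall, dist_eq_norm]
      rw [mem_ball, dist_eq_norm] at hw
      have e : b w + t • w - x = (b w - b (v i)) + t • (w - v i) - (β i - b (v i)) -
          (x - (β i + t • v i)) := by
        rw [smul_sub]; abel
      have hL : ‖b w - b (v i)‖ ≤ L * (δ / 2) := by
        have := hb.dist_le_mul w (v i)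
        rw [dist_eq_norm, dist_eq_norm] at this
        exact this.trans (mul_le_mul_of_nonneg_left hw.le L.2)
      have hS0 : (0 : ℝ) ≤ S := S.2
      have hT : ‖t • (w - v i)‖ ≤ (S + 3 / 2) * (δ / 2) := by
        rw [norm_smul, Real.norm_eq_abs]
        exact mul_le_mul ht2 hw.le (norm_nonneg _) (by linarith)
      have hL0 : (0 : ℝ) ≤ L := L.2
      have hK0 : (0 : ℝ) ≤ K := K.2
      rw [e]
      calc ‖(b w - b (v i)) + t • (w - v i) - (β i - b (v i)) - (x - (β i + t • v i))‖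
          ≤ ‖(b w - b (v i)) + t • (w - v i) - (β i - b (v i))‖ + ‖x - (β i + t • v i)‖ := norm_sub_le _ _
        _ ≤ ‖(b w - b (v i)) + t • (w - v i)‖ + ‖β i - b (v i)‖ + ‖x - (β i + t • v i)‖ := by
            gcongr
            exact norm_sub_le _ _
        _ ≤ ‖b w - b (v i)‖ + ‖t • (w - v i)‖ + ‖β i - b (v i)‖ + ‖x - (β i + t • v i)‖ := by
            gcongr
            exact norm_add_le _ _
        _ ≤ L * (δ / 2) + (S + 3 / 2) * (δ / 2) + K * δ + 2 * δ := by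
            have := hβ i
            linarith
        _ ≤ (4 + K + L + S) * δ := by nlinarith [mul_nonneg hL0 hδ.le, mul_nonneg hS0 hδ.le]
    have e2 : ∫⁻ w in ball (v i) (δ / 2), ker b ((4 + K + L + S) * δ) t x w =
        ∫⁻ _ in ball (v i) (δ / 2), 1 := setLIntegral_congr_fun measurableSet_ball hone
    rw [e2, setLIntegral_const, one_mul]
    exact (Measure.addHaar_ball_center volume (v i) (δ / 2)).ge
  · rw [indicator_of_notMem hmem, zero_mul]
    exact zero_le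

end Pool.Agent.H810R3.Tub
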