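import Mathlib

set_option autoImplicit false

/-! One-dimensional integrals and a weighted Hölder inequality. -/

open MeasureTheory Set Filter Topology ENNReal NNReal

namespace Pool.Agent.H810R3.Tub

theorem exists_pow_le (ν : Multiset ℝ) (hν : ν ≠ 0) (h : ∀ x ∈ ν, 0 ≤ x) :
    ∃ x ∈ ν, x ^ ν.card ≤ ν.prod := by
  induction ν using Multiset.induction_on with
  | empty => exact absurd rfl hν
  | cons a ν ih =>
    by_cases h0 : ν = 0
    · subst h0
      exact ⟨a, by simp, by simp⟩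
    · obtain ⟨x, hx, hle⟩ := ih h0 (fun y hy => h y (Multiset.mem_cons_of_mem hy))
      have ha : 0 ≤ a := h a (Multiset.mem_cons_self a ν)
      have hx0 : 0 ≤ x := h x (Multiset.mem_cons_of_mem hx)
      have hp : 0 ≤ ν.prod := le_trans (pow_nonneg hx0 _) hle
      rcases le_total a x with hax | hax
      · refine ⟨a, Multiset.mem_cons_self a ν, ?_⟩
        rw [Multiset.card_cons, pow_succ', Multiset.prod_cons]
        exact mul_le_mul_of_nonneg_left ((pow_le_pow_left₀ ha hax _).trans hle) ha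
      · refine ⟨x, Multiset.mem_cons_of_mem hx, ?_⟩
        rw [Multiset.card_cons, pow_succ', Multiset.prod_cons]
        exact mul_le_mul hax hle (pow_nonneg hx0 _) ha

theorem lint_Ioi {a ρ : ℝ} (ha : 1 < a) (hρ : 0 < ρ) :
    ∫⁻ t in Ioi ρ, ENNReal.ofReal ((max |t| ρ) ^ (-a)) = ENNReal.ofReal (ρ ^ (1 - a) / (a - 1)) := by
  have h1 : ∫⁻ t in Ioi ρ, ENNReal.ofReal ((max |t| ρ) ^ (-a)) =
      ∫⁻ t in Ioi ρ, ENNReal.ofReal (t ^ (-a)) := by
    refine setLIntegral_congr_fun measurableSet_Ioi fun t ht => ?_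
    have ht' : ρ < t := ht
    show ENNReal.ofReal ((max |t| ρ) ^ (-a)) = ENNReal.ofReal (t ^ (-a))
    rw [abs_of_pos (hρ.trans ht'), max_eq_left ht'.le]
  rw [h1, ← ofReal_integral_eq_lintegral_ofReal (integrableOn_Ioi_rpow_of_lt (by linarith) hρ)]
  · rw [integral_Ioi_rpow_of_lt (by linarith) hρ]
    congr 1
    have e : -a + 1 = 1 - a := by ring
    rw [e]
    have h2 : a - 1 ≠ 0 := by linarith
    have h3 : 1 - a ≠ 0 := by linarith
    field_simp
    ring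
  · filter_upwards [self_mem_ae_restrict measurableSet_Ioi] with t ht
    exact Real.rpow_nonneg (hρ.trans ht).le _

theorem trunc_int {a ρ : ℝ} (ha : 1 < a) (hρ : 0 < ρ) (m : ℝ) :
    ∫⁻ t : ℝ, ENNReal.ofReal ((max |t - m| ρ) ^ (-a)) ≤ ENNReal.ofReal (2 * a / (a - 1) * ρ ^ (1 - a)) := by
  have h0 : ∫⁻ t : ℝ, ENNReal.ofReal ((max |t - m| ρ) ^ (-a)) =
      ∫⁻ t : ℝ, ENNReal.ofReal ((max |t| ρ) ^ (-a)) :=
    lintegral_sub_right_eq_self (fun t => ENNReal.ofReal ((max |t| ρ) ^ (-a))) m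
  rw [h0]
  have hcov : (univ : Set ℝ) ⊆ (Icc (-ρ) ρ ∪ Ioi ρ) ∪ (fun t => -t) ⁻¹' Ioi ρ := by
    intro t _
    simp only [mem_union, mem_Icc, mem_Ioi, mem_preimage]
    by_contra hcon
    push Not at hcon
    obtain ⟨⟨h1, h2⟩, h3⟩ := hcon
    exact absurd (h1 (by linarith)) (by linarith)
  have hI : ∫⁻ t in Icc (-ρ) ρ, ENNReal.ofReal ((max |t| ρ) ^ (-a)) = ENNReal.ofReal (2 * ρ ^ (1 - a)) := by
    have h1 : ∫⁻ t in Icc (-ρ) ρ, ENNReal.ofReal ((max |t| ρ) ^ (-a)) =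
        ∫⁻ _ in Icc (-ρ) ρ, ENNReal.ofReal (ρ ^ (-a)) := by
      refine setLIntegral_congr_fun measurableSet_Icc fun t ht => ?_
      show ENNReal.ofReal ((max |t| ρ) ^ (-a)) = ENNReal.ofReal (ρ ^ (-a))
      rw [max_eq_right (abs_le.2 ht)]
    rw [h1, lintegral_const, Measure.restrict_apply_univ, Real.volume_Icc,
      ← ENNReal.ofReal_mul (Real.rpow_nonneg hρ.le _)]
    congr 1
    have : ρ ^ (1 - a) = ρ ^ (-a) * ρ := by
      rw [sub_eq_neg_add, Real.rpow_add_one hρ.ne']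
    rw [this]
    ring
  have hneg : ∫⁻ t in (fun t => -t) ⁻¹' Ioi ρ, ENNReal.ofReal ((max |t| ρ) ^ (-a)) =
      ENNReal.ofReal (ρ ^ (1 - a) / (a - 1)) := by
    rw [← lint_Ioi ha hρ]
    have hmp : MeasurePreserving (fun t : ℝ => -t) volume volume := Measure.measurePreserving_neg volume
    have hmeas : Measurable (fun t : ℝ => ENNReal.ofReal ((max |t| ρ) ^ (-a))) := by fun_prop
    have h3 := hmp.setLIntegral_comp_preimage (s := Ioi ρ) measurableSet_Ioi hmeas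
    rw [← h3]
    simp only [abs_neg]
  calc ∫⁻ t : ℝ, ENNReal.ofReal ((max |t| ρ) ^ (-a))
      = ∫⁻ t in univ, ENNReal.ofReal ((max |t| ρ) ^ (-a)) := by rw [Measure.restrict_univ]
    _ ≤ ∫⁻ t in (Icc (-ρ) ρ ∪ Ioi ρ) ∪ (fun t => -t) ⁻¹' Ioi ρ, ENNReal.ofReal ((max |t| ρ) ^ (-a)) :=
        lintegral_mono_set hcov
    _ ≤ (∫⁻ t in Icc (-ρ) ρ ∪ Ioi ρ, ENNReal.ofReal ((max |t| ρ) ^ (-a))) +
        ∫⁻ t in (fun t => -t) ⁻¹' Ioi ρ, ENNReal.ofReal ((max |t| ρ) ^ (-a)) := lintegral_union_le _ _ _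
    _ ≤ ((∫⁻ t in Icc (-ρ) ρ, ENNReal.ofReal ((max |t| ρ) ^ (-a))) +
        ∫⁻ t in Ioi ρ, ENNReal.ofReal ((max |t| ρ) ^ (-a))) +
        ∫⁻ t in (fun t => -t) ⁻¹' Ioi ρ, ENNReal.ofReal ((max |t| ρ) ^ (-a)) := by
        gcongr
        exact lintegral_union_le _ _ _
    _ = ENNReal.ofReal (2 * a / (a - 1) * ρ ^ (1 - a)) := by
        rw [hI, hneg, lint_Ioi ha hρ]
        have hp : 0 ≤ ρ ^ (1 - a) := Real.rpow_nonneg hρ.le _
        have hq : 0 ≤ ρ ^ (1 - a) / (a - 1) := div_nonneg hp (by linarith)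
        rw [← ENNReal.ofReal_add (by positivity) hq, ← ENNReal.ofReal_add (by positivity) hq]
        congr 1
        have h2 : a - 1 ≠ 0 := by linarith
        field_simp
        ring

theorem trunc_prod {d : ℕ} (hd : 1 ≤ d) {r τ : ℝ} (hr : 1 < d * r) (hτ : 0 < τ) (μ : Multiset ℝ)
    (hμ : μ.card = d) :
    ∫⁻ t : ℝ, ENNReal.ofReal ((max (μ.map (fun m => |t - m|)).prod τ) ^ (-r)) ≤
      d * ENNReal.ofReal (2 * (d * r) / (d * r - 1) * (τ ^ ((d : ℝ)⁻¹)) ^ (1 - d * r)) := by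
  have hd0 : (0 : ℝ) < d := by exact_mod_cast hd
  have hr0 : 0 < r := by
    by_contra hcon
    push Not at hcon
    nlinarith
  set ρ := τ ^ ((d : ℝ)⁻¹) with hρdef
  have hρ : 0 < ρ := Real.rpow_pos_of_pos hτ _
  have hρd : ρ ^ d = τ := by
    rw [hρdef, ← Real.rpow_natCast, ← Real.rpow_mul hτ.le, inv_mul_cancel₀ hd0.ne', Real.rpow_one]
  have hpt : ∀ t : ℝ, ENNReal.ofReal ((max (μ.map (fun m => |t - m|)).prod τ) ^ (-r)) ≤
      (μ.map (fun m => ENNReal.ofReal ((max |t - m| ρ) ^ (-(d * r))))).sum := by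
    intro t
    obtain ⟨x, hx, hle⟩ := exists_pow_le (μ.map (fun m => |t - m|)) (by
      intro h
      rw [Multiset.map_eq_zero] at h
      rw [h] at hμ
      simp at hμ
      omega) (by
      intro x hx
      obtain ⟨m, _, rfl⟩ := Multiset.mem_map.1 hx
      exact abs_nonneg _)
    obtain ⟨m, hm, rfl⟩ := Multiset.mem_map.1 hx
    rw [Multiset.card_map, hμ] at hle
    have h1 : (max |t - m| ρ) ^ d ≤ max (μ.map (fun m => |t - m|)).prod τ := by
      rcases le_total |t - m| ρ with h | h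
      · rw [max_eq_right h, hρd]; exact le_max_right _ _
      · rw [max_eq_left h]; exact hle.trans (le_max_left _ _)
    have hM : 0 < max |t - m| ρ := lt_max_of_lt_right hρ
    have h2 : (max (μ.map (fun m => |t - m|)).prod τ) ^ (-r) ≤ (max |t - m| ρ) ^ (-(d * r)) := by
      have e : (max |t - m| ρ) ^ (-((d : ℝ) * r)) = ((max |t - m| ρ) ^ d) ^ (-r) := by
        rw [← Real.rpow_natCast, ← Real.rpow_mul hM.le]
        congr 1
        ring
      rw [e]
      exact Real.rpow_le_rpow_of_nonpos (pow_pos hM d) h1 (by linarith)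
    refine (ENNReal.ofReal_le_ofReal h2).trans ?_
    exact Multiset.single_le_sum (fun _ _ => zero_le) _
      (Multiset.mem_map_of_mem (fun m => ENNReal.ofReal ((max |t - m| ρ) ^ (-(d * r)))) hm)
  have hsum : ∀ ν : Multiset ℝ, ∫⁻ t : ℝ, (ν.map (fun m => ENNReal.ofReal ((max |t - m| ρ) ^ (-(d * r))))).sum ≤
      ν.card * ENNReal.ofReal (2 * (d * r) / (d * r - 1) * ρ ^ (1 - d * r)) := by
    intro ν
    induction ν using Multiset.induction_on with
    | empty => simp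
    | cons m ν ih =>
      simp only [Multiset.map_cons, Multiset.sum_cons, Multiset.card_cons]
      rw [lintegral_add_left (by fun_prop)]
      push_cast
      rw [add_mul, one_mul, add_comm]
      exact add_le_add ih (trunc_int hr hρ m)
  calc _ ≤ ∫⁻ t : ℝ, (μ.map (fun m => ENNReal.ofReal ((max |t - m| ρ) ^ (-(d * r))))).sum :=
        lintegral_mono hpt
    _ ≤ _ := by
        have := hsum μ
        rwa [hμ] at this

/-- Weighted Hölder inequality. -/
theorem holder_w {α : Type*} [MeasurableSpace α] (ν : Measure α) {r : ℝ} (hr : 0 < r)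
    {w : α → ℝ≥0∞} (hw : AEMeasurable w ν) (h0 : ∀ a, w a ≠ 0) (h1 : ∀ a, w a ≠ ∞) :
    (ν univ) ^ (r + 1) ≤ (∫⁻ a, w a ∂ν) ^ r * ∫⁻ a, w a ^ (-r) ∂ν := by
  have hr1 : 0 < r + 1 := by linarith
  have hpq : ((r + 1) / r).HolderConjugate (r + 1) := by
    rw [Real.holderConjugate_iff]
    refine ⟨by rw [lt_div_iff₀ hr]; linarith, ?_⟩
    field_simp
  have h := ENNReal.lintegral_mul_le_Lp_mul_Lq ν hpq (hw.pow_const (r / (r + 1)))
    (hw.pow_const (-(r / (r + 1))))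
  have e1 : ∫⁻ a, ((fun a => w a ^ (r / (r + 1))) * (fun a => w a ^ (-(r / (r + 1))))) a ∂ν = ν univ := by
    rw [← lintegral_one]
    congr 1
    funext a
    simp only [Pi.mul_apply]
    rw [← ENNReal.rpow_add _ _ (h0 a) (h1 a), add_neg_cancel, ENNReal.rpow_zero]
  have e2 : ∀ a, (w a ^ (r / (r + 1))) ^ ((r + 1) / r) = w a := by
    intro a
    rw [← ENNReal.rpow_mul]
    have : r / (r + 1) * ((r + 1) / r) = 1 := by field_simp
    rw [this, ENNReal.rpow_one]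
  have e3 : ∀ a, (w a ^ (-(r / (r + 1)))) ^ (r + 1) = w a ^ (-r) := by
    intro a
    rw [← ENNReal.rpow_mul]
    congr 1
    field_simp
  rw [e1] at h
  simp only [e2, e3] at h
  calc (ν univ) ^ (r + 1) ≤ ((∫⁻ a, w a ∂ν) ^ (1 / ((r + 1) / r)) *
        (∫⁻ a, w a ^ (-r) ∂ν) ^ (1 / (r + 1))) ^ (r + 1) := ENNReal.rpow_le_rpow h hr1.le
    _ = _ := by
        rw [ENNReal.mul_rpow_of_nonneg _ _ hr1.le, ← ENNReal.rpow_mul, ← ENNReal.rpow_mul]
        have a1 : 1 / ((r + 1) / r) * (r + 1) = r := by field_simp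
        have a2 : 1 / (r + 1) * (r + 1) = 1 := by field_simp
        rw [a1, a2, ENNReal.rpow_one]

end Pool.Agent.H810R3.Tub
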