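import Pool.Agent.H810R3.Tub.Compare

set_option autoImplicit false

/-! Counting lemmas for perturbed families. -/

open MeasureTheory Set Filter Topology ENNReal NNReal Metric

namespace Pool.Agent.H810R3.Tub

/-- The points of an interval at which an affine function is small. -/
theorem line_meas {c r κ Δ lo T ρ z : ℝ} (hκ : 0 < κ) (hr : 0 ≤ r) (hT : 0 < T) (hρ : 0 < ρ)
    (hz0 : 0 ≤ z) (hz : z ≤ |Δ| / ρ + 1) :
    volume {s : ℝ | s ∈ Icc lo (lo + T) ∧ |c + κ * s * Δ| ≤ r} ≤
      ENNReal.ofReal (T * ((2 + 2 * r / (κ * ρ * T)) / (1 + z))) := by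
  have h1 : volume {s : ℝ | s ∈ Icc lo (lo + T) ∧ |c + κ * s * Δ| ≤ r} ≤ ENNReal.ofReal T := by
    calc volume {s : ℝ | s ∈ Icc lo (lo + T) ∧ |c + κ * s * Δ| ≤ r} ≤ volume (Icc lo (lo + T)) :=
          measure_mono fun s hs => hs.1
      _ = ENNReal.ofReal T := by rw [Real.volume_Icc]; congr 1; ring
  rcases eq_or_ne Δ 0 with h0 | h0
  · refine h1.trans (ENNReal.ofReal_le_ofReal ?_)
    rw [h0, abs_zero, zero_div, zero_add] at hz
    have h2 : 1 ≤ (2 + 2 * r / (κ * ρ * T)) / (1 + z) := by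
      rw [le_div_iff₀ (by positivity)]
      have : 0 ≤ 2 * r / (κ * ρ * T) := by positivity
      linarith
    nlinarith
  · have hΔ : 0 < |Δ| := abs_pos.2 h0
    have h2 : volume {s : ℝ | s ∈ Icc lo (lo + T) ∧ |c + κ * s * Δ| ≤ r} ≤
        ENNReal.ofReal (2 * r / (κ * |Δ|)) := by
      calc volume {s : ℝ | s ∈ Icc lo (lo + T) ∧ |c + κ * s * Δ| ≤ r}
          ≤ volume (Icc (-(c / (κ * Δ)) - r / (κ * |Δ|)) (-(c / (κ * Δ)) + r / (κ * |Δ|))) := by
            refine measure_mono fun s hs => ?_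
            have h3 := hs.2
            have e : c + κ * s * Δ = (κ * Δ) * (s + c / (κ * Δ)) := by
              field_simp
              ring
            rw [e, abs_mul, abs_mul, abs_of_pos hκ, mul_comm, ← le_div_iff₀ (by positivity)] at h3
            have h4 := abs_le.1 h3
            constructor <;> linarith [h4.1, h4.2]
        _ = ENNReal.ofReal (2 * r / (κ * |Δ|)) := by
            rw [Real.volume_Icc]
            congr 1
            ring
    rcases le_total T (2 * r / (κ * |Δ|)) with h5 | h5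
    · refine h1.trans (ENNReal.ofReal_le_ofReal ?_)
      rw [← mul_div_assoc, le_div_iff₀ (by positivity)]
      have h6 : T * (|Δ| / ρ) ≤ T * (2 * r / (κ * ρ * T)) := by
        have : T * |Δ| ≤ 2 * r / κ := by
          rw [le_div_iff₀ hκ]
          rw [le_div_iff₀ (by positivity)] at h5
          linarith
        calc T * (|Δ| / ρ) = (T * |Δ|) / ρ := by ring
          _ ≤ (2 * r / κ) / ρ := div_le_div_of_nonneg_right this hρ.le
          _ = T * (2 * r / (κ * ρ * T)) := by field_simp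
      nlinarith
    · refine h2.trans (ENNReal.ofReal_le_ofReal ?_)
      rw [← mul_div_assoc, le_div_iff₀ (by positivity)]
      have h6 : 2 * r / (κ * |Δ|) * (|Δ| / ρ) = T * (2 * r / (κ * ρ * T)) := by
        field_simp
      have h7 : 0 ≤ 2 * r / (κ * |Δ|) := by positivity
      nlinarith

/-- The sum of `1/(1+|z|)` over an interval of integers. -/
theorem sum_inv (M : ℕ) :
    ∑ z ∈ Finset.Icc (-(M : ℤ)) M, (1 : ℝ) / (1 + |(z : ℝ)|) ≤ 2 * (1 + Real.log (M + 1)) := by
  classical
  have h1 : ∑ n ∈ Finset.range (M + 1), (1 : ℝ) / (1 + n) ≤ 1 + Real.log (M + 1) := by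
    have h := harmonic_le_one_add_log (M + 1)
    have e : ((harmonic (M + 1) : ℚ) : ℝ) = ∑ n ∈ Finset.range (M + 1), (1 : ℝ) / (1 + n) := by
      unfold harmonic
      push_cast
      refine Finset.sum_congr rfl fun n _ => ?_
      rw [one_div, add_comm]
    rw [e] at h
    push_cast at h
    exact h
  have hsub : Finset.Icc (-(M : ℤ)) M ⊆ (Finset.range (M + 1)).image (fun n : ℕ => (n : ℤ)) ∪
      (Finset.range (M + 1)).image (fun n : ℕ => -(n : ℤ)) := by
    intro z hz
    rw [Finset.mem_Icc] at hz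
    rw [Finset.mem_union, Finset.mem_image, Finset.mem_image]
    rcases le_total 0 z with h | h
    · left
      exact ⟨z.toNat, by rw [Finset.mem_range]; omega, by omega⟩
    · right
      exact ⟨(-z).toNat, by rw [Finset.mem_range]; omega, by omega⟩
  have hnn : ∀ z : ℤ, (0 : ℝ) ≤ 1 / (1 + |(z : ℝ)|) := fun z => by positivity
  calc ∑ z ∈ Finset.Icc (-(M : ℤ)) M, (1 : ℝ) / (1 + |(z : ℝ)|)
      ≤ ∑ z ∈ (Finset.range (M + 1)).image (fun n : ℕ => (n : ℤ)) ∪
          (Finset.range (M + 1)).image (fun n : ℕ => -(n : ℤ)), (1 : ℝ) / (1 + |(z : ℝ)|) :=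
        Finset.sum_le_sum_of_subset_of_nonneg hsub fun z _ _ => hnn z
    _ ≤ ∑ z ∈ (Finset.range (M + 1)).image (fun n : ℕ => (n : ℤ)), (1 : ℝ) / (1 + |(z : ℝ)|) +
        ∑ z ∈ (Finset.range (M + 1)).image (fun n : ℕ => -(n : ℤ)), (1 : ℝ) / (1 + |(z : ℝ)|) := by
        rw [← Finset.sum_union_inter]
        have : 0 ≤ ∑ z ∈ (Finset.range (M + 1)).image (fun n : ℕ => (n : ℤ)) ∩
          (Finset.range (M + 1)).image (fun n : ℕ => -(n : ℤ)), (1 : ℝ) / (1 + |(z : ℝ)|) :=
          Finset.sum_nonneg fun z _ => hnn z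
        linarith
    _ = ∑ n ∈ Finset.range (M + 1), (1 : ℝ) / (1 + n) + ∑ n ∈ Finset.range (M + 1), (1 : ℝ) / (1 + n) := by
        rw [Finset.sum_image (fun a _ b _ h => by exact_mod_cast h),
          Finset.sum_image (fun a _ b _ h => by
            have : (a : ℤ) = b := neg_injective h
            exact_mod_cast this)]
        congr 1
        · refine Finset.sum_congr rfl fun n _ => ?_
          rw [Int.cast_natCast, abs_of_nonneg (Nat.cast_nonneg n)]
        · refine Finset.sum_congr rfl fun n _ => ?_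
          rw [Int.cast_neg, Int.cast_natCast, abs_neg, abs_of_nonneg (Nat.cast_nonneg n)]
    _ ≤ 2 * (1 + Real.log (M + 1)) := by linarith

/-- The difference of two cells. -/
theorem cell_sub {d : ℕ} {ρ : ℝ} (hρ : 0 < ρ) (v w : Vec d) (k : Fin d) :
    |((cell ρ v k - cell ρ w k : ℤ) : ℝ)| ≤ |v k - w k| / ρ + 1 := by
  unfold cell
  push_cast
  have h1 := Int.floor_le (v k / ρ)
  have h2 := Int.lt_floor_add_one (v k / ρ)
  have h3 := Int.floor_le (w k / ρ)
  have h4 := Int.lt_floor_add_one (w k / ρ)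
  have e : |v k - w k| / ρ = |v k / ρ - w k / ρ| := by
    rw [← _root_.sub_div, abs_div, abs_of_pos hρ]
  rw [e]
  have h5 := le_abs_self (v k / ρ - w k / ρ)
  have h6 := neg_abs_le (v k / ρ - w k / ρ)
  rw [abs_le]
  constructor <;> linarith

/-- The sum over a separated family of the product of the reciprocals of the distances. -/
theorem sum_sep {d : ℕ} (hd : 1 ≤ d) {N σ : ℝ} (hN : 1 ≤ N) (hσ : 0 < σ) (hσ1 : σ ≤ 1) {ι : Type}
    [Fintype ι] (ω : ι → Vec d) (hω : ∀ i, ‖ω i‖ ≤ 1) (hsep : ∀ i j, i ≠ j → σ / N ≤ ‖ω i - ω j‖)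
    (i : ι) :
    ∑ j, ∏ k, (1 : ℝ) / (1 + |((cell (σ / (2 * d * N)) (ω i) k - cell (σ / (2 * d * N)) (ω j) k : ℤ) : ℝ)|) ≤
      ((2 * (1 + Real.log (8 * d / σ))) * (1 + Real.log N)) ^ d := by
  classical
  have hd1 : (1 : ℝ) ≤ d := by exact_mod_cast hd
  have hN0 : 0 < N := by linarith
  set ρ : ℝ := σ / (2 * d * N) with hρ
  have hρ0 : 0 < ρ := by positivity
  set z : ι → Fin d → ℤ := fun j k => cell ρ (ω i) k - cell ρ (ω j) k with hz
  have hinj : Function.Injective z := by
    intro j l hjl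
    by_contra hne
    have h1 : cell ρ (ω j) = cell ρ (ω l) := by
      ext k
      have := congrFun hjl k
      simp only [hz] at this
      omega
    have h2 := cell_close hρ0 h1
    have h3 := hsep j l hne
    have h4 : (d : ℝ) * ρ = σ / N / 2 := by
      rw [hρ]; field_simp
    have h5 : 0 < σ / N := by positivity
    linarith
  set M : ℕ := ⌈2 / ρ + 1⌉₊ with hM
  have hMle : 2 / ρ + 1 ≤ M := Nat.le_ceil _
  have hMlt : (M : ℝ) < 2 / ρ + 1 + 1 := Nat.ceil_lt_add_one (by positivity)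
  have hmem : ∀ j, z j ∈ Fintype.piFinset (fun _ : Fin d => Finset.Icc (-(M : ℤ)) M) := by
    intro j
    rw [Fintype.mem_piFinset]
    intro k
    have h1 := cell_sub hρ0 (ω i) (ω j) k
    have h2 : |ω i k - ω j k| ≤ 2 := by
      have h3 : |ω i k| ≤ ‖ω i‖ := by
        have := PiLp.norm_apply_le (ω i) k
        rwa [Real.norm_eq_abs] at this
      have h4 : |ω j k| ≤ ‖ω j‖ := by
        have := PiLp.norm_apply_le (ω j) k
        rwa [Real.norm_eq_abs] at this
      calc |ω i k - ω j k| ≤ |ω i k| + |ω j k| := abs_sub _ _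
        _ ≤ 2 := by linarith [hω i, hω j]
    have h3 : |((z j k : ℤ) : ℝ)| ≤ M := by
      calc |((z j k : ℤ) : ℝ)| ≤ |ω i k - ω j k| / ρ + 1 := h1
        _ ≤ 2 / ρ + 1 := by gcongr
        _ ≤ M := hMle
    have h4 := abs_le.1 h3
    rw [Finset.mem_Icc]
    exact ⟨by exact_mod_cast h4.1, by exact_mod_cast h4.2⟩
  calc ∑ j, ∏ k, (1 : ℝ) / (1 + |((z j k : ℤ) : ℝ)|)
      = ∑ y ∈ Finset.univ.image z, ∏ k, (1 : ℝ) / (1 + |((y k : ℤ) : ℝ)|) := by
        rw [Finset.sum_image (fun a _ b _ h => hinj h)]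
    _ ≤ ∑ y ∈ Fintype.piFinset (fun _ : Fin d => Finset.Icc (-(M : ℤ)) M),
          ∏ k, (1 : ℝ) / (1 + |((y k : ℤ) : ℝ)|) := by
        apply Finset.sum_le_sum_of_subset_of_nonneg
        · intro y hy
          obtain ⟨j, _, rfl⟩ := Finset.mem_image.1 hy
          exact hmem j
        · intro y _ _
          exact Finset.prod_nonneg fun k _ => by positivity
    _ = ∏ _k : Fin d, ∑ y ∈ Finset.Icc (-(M : ℤ)) M, (1 : ℝ) / (1 + |((y : ℤ) : ℝ)|) := by
        rw [Finset.prod_univ_sum]
    _ = (∑ y ∈ Finset.Icc (-(M : ℤ)) M, (1 : ℝ) / (1 + |((y : ℤ) : ℝ)|)) ^ d := by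
        rw [Finset.prod_const, Finset.card_univ, Fintype.card_fin]
    _ ≤ (2 * (1 + Real.log (M + 1))) ^ d :=
        pow_le_pow_left₀ (Finset.sum_nonneg fun y _ => by positivity) (sum_inv M) d
    _ ≤ ((2 * (1 + Real.log (8 * d / σ))) * (1 + Real.log N)) ^ d := by
        have hl0 : 0 ≤ Real.log (M + 1) := Real.log_nonneg (by
          have : (0 : ℝ) ≤ M := Nat.cast_nonneg _
          linarith)
        apply pow_le_pow_left₀ (by positivity)
        have h1 : (M : ℝ) + 1 ≤ 8 * d / σ * N := by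
          have e : 2 / ρ = 4 * d * N / σ := by
            rw [hρ]; field_simp; ring
          rw [e] at hMlt
          have h2 : 1 ≤ d * N / σ := by
            rw [le_div_iff₀ hσ]
            nlinarith
          have e2 : 4 * d * N / σ = 4 * (d * N / σ) := by ring
          have e3 : 8 * d / σ * N = 8 * (d * N / σ) := by ring
          rw [e2] at hMlt
          rw [e3]
          linarith
        have h3 : Real.log (M + 1) ≤ Real.log (8 * d / σ) + Real.log N := by
          rw [← Real.log_mul (by positivity) (by positivity)]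
          exact Real.log_le_log (by positivity) h1
        have h4 : 0 ≤ Real.log (8 * d / σ) := Real.log_nonneg (by
          rw [le_div_iff₀ hσ]
          linarith)
        have h5 : 0 ≤ Real.log N := Real.log_nonneg hN
        nlinarith [mul_nonneg h4 h5]

end Pool.Agent.H810R3.Tub
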