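import Pool.Agent.H810R3.Tub.Per1

set_option autoImplicit false

/-! The pair integral for perturbed families. -/

open MeasureTheory Set Filter Topology ENNReal NNReal Metric

namespace Pool.Agent.H810R3.Tub

variable {d : ℕ}

/-- Points of a box in coordinates adapted to the axis. -/
theorem box_coord {N : ℝ} (hN : 1 ≤ N) {ω : Vec d} (hω : ‖ω‖ ≤ 1) {f : Fin d → Space d}
    (h : Orthonormal ℝ (Fin.cons (nor ω) f : Fin (d + 1) → Space d)) {a y : Space d}
    (hy : y ∈ box N (nor ω) f a) :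
    ‖(y - a).fst + (2 * (y - a).snd) • ω‖ ≤ 2 * d * N ∧ |(y - a).snd| ≤ (1 + d) * N ^ 2 / 2 := by
  have hd0 : (0 : ℝ) ≤ d := Nat.cast_nonneg d
  set z := y - a with hz
  set τ : ℝ := inner ℝ (nor ω) z with hτ
  set w := z - τ • nor ω with hw
  have hwn : ‖w‖ ≤ d * N / 2 := box_perp hN h hy
  have hτn : |τ| ≤ N ^ 2 / 2 := hy.1
  set r : ℝ := √(1 + ‖-(2 : ℝ) • ω‖ ^ 2) with hr
  have hr1 : 1 ≤ r := Real.one_le_sqrt.2 (by nlinarith [sq_nonneg ‖-(2 : ℝ) • ω‖])
  have hr0 : 0 < r := by linarith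
  have hn1 : (nor ω).fst = r⁻¹ • (-(2 : ℝ) • ω) := rfl
  have hn2 : (nor ω).snd = r⁻¹ * 1 := rfl
  have e : z = τ • nor ω + w := by rw [hw]; abel
  have e1 : z.fst = τ • (r⁻¹ • (-(2 : ℝ) • ω)) + w.fst := by
    conv_lhs => rw [e]
    rw [WithLp.add_fst, WithLp.smul_fst, hn1]
  have e2 : z.snd = τ * r⁻¹ + w.snd := by
    conv_lhs => rw [e]
    rw [WithLp.add_snd, WithLp.smul_snd, hn2, smul_eq_mul, mul_one]
  have hsq := norm_space_sq w
  have hwf : ‖w.fst‖ ≤ ‖w‖ := by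
    apply le_of_sq_le_sq _ (norm_nonneg _)
    rw [hsq]
    nlinarith [sq_nonneg w.snd]
  have hws : |w.snd| ≤ ‖w‖ := by
    apply le_of_sq_le_sq _ (norm_nonneg _)
    rw [hsq, sq_abs]
    nlinarith [sq_nonneg ‖w.fst‖]
  constructor
  · have e3 : z.fst + (2 * z.snd) • ω = w.fst + (2 * w.snd) • ω := by
      rw [e1, e2]
      module
    rw [e3]
    calc ‖w.fst + (2 * w.snd) • ω‖ ≤ ‖w.fst‖ + ‖(2 * w.snd) • ω‖ := norm_add_le _ _
      _ ≤ ‖w‖ + 2 * ‖w‖ * 1 := by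
          refine add_le_add hwf ?_
          rw [norm_smul, Real.norm_eq_abs, abs_mul, abs_of_pos (by norm_num : (0:ℝ) < 2)]
          gcongr
      _ ≤ 2 * d * N := by nlinarith [mul_nonneg hd0 (by linarith : (0:ℝ) ≤ N)]
  · rw [e2]
    have h1 : |τ * r⁻¹| ≤ N ^ 2 / 2 := by
      rw [abs_mul, abs_of_pos (by positivity : 0 < r⁻¹)]
      calc |τ| * r⁻¹ ≤ (N ^ 2 / 2) * 1 :=
            mul_le_mul hτn (inv_le_one_of_one_le₀ hr1) (by positivity) (by positivity)
        _ = _ := mul_one _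
    calc |τ * r⁻¹ + w.snd| ≤ |τ * r⁻¹| + |w.snd| := abs_add_le _ _
      _ ≤ N ^ 2 / 2 + d * N / 2 := by linarith [hws.trans hwn]
      _ ≤ (1 + d) * N ^ 2 / 2 := by nlinarith [mul_nonneg hd0 (mul_nonneg (by linarith : (0:ℝ) ≤ N) (sub_nonneg.2 hN))]

/-- The displacement of the box at `ω` by the perturbation with parameter `u`: the `j`-th coordinate is
`N² l_j ω_j` with `l = (0, u_1, …, u_m)`. -/
noncomputable def lin {m : ℕ} (N : ℝ) (u : Fin m → ℝ) (ω : Vec (m + 1)) : Space (m + 1) :=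
  WithLp.toLp 2 (WithLp.toLp 2 (fun j => N ^ 2 * (Fin.cons 0 u : Fin (m + 1) → ℝ) j * ω j), 0)

theorem lin_continuous {m : ℕ} (N : ℝ) (ω : Vec (m + 1)) :
    Continuous (fun u : Fin m → ℝ => lin N u ω) := by
  unfold lin
  refine (WithLp.prod_continuous_toLp 2 _ _).comp (Continuous.prodMk ?_ continuous_const)
  refine (PiLp.continuous_toLp 2 _).comp (continuous_pi fun j => ?_)
  refine Continuous.mul (Continuous.mul continuous_const ?_) continuous_const
  refine Fin.cases ?_ (fun k => ?_) j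
  · exact continuous_const
  · simp only [Fin.cons_succ]
    exact continuous_apply k

/-- The set of pairs of a parameter and a point of the corresponding box. -/
def Sb {m : ℕ} (N : ℝ) (ω : Vec (m + 1)) (f : Fin (m + 1) → Space (m + 1)) (a : Space (m + 1)) :
    Set ((Fin m → ℝ) × Space (m + 1)) :=
  {p | p.2 ∈ box N (nor ω) f (a + lin N p.1 ω)}

theorem Sb_closed {m : ℕ} (N : ℝ) (ω : Vec (m + 1)) (f : Fin (m + 1) → Space (m + 1)) (a : Space (m + 1)) :
    IsClosed (Sb N ω f a) := by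
  have hc : Continuous (fun p : (Fin m → ℝ) × Space (m + 1) => p.2 - (a + lin N p.1 ω)) :=
    continuous_snd.sub (continuous_const.add ((lin_continuous N ω).comp continuous_fst))
  have e : Sb N ω f a = (fun p : (Fin m → ℝ) × Space (m + 1) => p.2 - (a + lin N p.1 ω)) ⁻¹'
      (box N (nor ω) f 0) := by
    ext p
    simp only [Sb, box, mem_ofPred_eq, mem_preimage, sub_zero]
  rw [e]
  exact (box_closed _ _ _ _).preimage hc

/-- The coordinates of a point of a displaced box. -/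
theorem Sb_coord {m : ℕ} {N : ℝ} (hN : 1 ≤ N) {ω : Vec (m + 1)} (hω : ‖ω‖ ≤ 1)
    {f : Fin (m + 1) → Space (m + 1)}
    (h : Orthonormal ℝ (Fin.cons (nor ω) f : Fin (m + 1 + 1) → Space (m + 1))) {a : Space (m + 1)}
    {u : Fin m → ℝ} {x : Vec (m + 1)} {t : ℝ} (hy : (u, (WithLp.toLp 2 (x, t) : Space (m + 1))) ∈ Sb N ω f a) :
    x ∈ closedBall (a.fst + WithLp.toLp 2 (fun j => N ^ 2 * (Fin.cons 0 u : Fin (m + 1) → ℝ) j * ω j) -
      (2 * (t - a.snd)) • ω) (2 * (m + 1 : ℕ) * N) ∧ |t - a.snd| ≤ (1 + (m + 1 : ℕ)) * N ^ 2 / 2 := by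
  obtain ⟨h1, h2⟩ := box_coord hN hω h (show (WithLp.toLp 2 (x, t) : Space (m + 1)) ∈
    box N (nor ω) f (a + lin N u ω) from hy)
  have e1 : ((WithLp.toLp 2 (x, t) : Space (m + 1)) - (a + lin N u ω)).snd = t - a.snd := by
    show t - (a.snd + 0) = t - a.snd
    rw [add_zero]
  have e2 : ((WithLp.toLp 2 (x, t) : Space (m + 1)) - (a + lin N u ω)).fst =
      x - (a.fst + WithLp.toLp 2 (fun j => N ^ 2 * (Fin.cons 0 u : Fin (m + 1) → ℝ) j * ω j)) := rfl
  rw [e1] at h1 h2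
  rw [e2] at h1
  refine ⟨?_, h2⟩
  rw [mem_closedBall, dist_eq_norm]
  refine le_trans (le_of_eq ?_) h1
  congr 1
  abel

end Pool.Agent.H810R3.Tub
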