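import Pool.Agent.H810R3.Tub.Per2

set_option autoImplicit false

/-! The pair integral for perturbed families, II. -/

open MeasureTheory Set Filter Topology ENNReal NNReal Metric

namespace Pool.Agent.H810R3.Tub

/-- The integral over the parameter and over space of the product of two indicators. -/
theorem pair_int {m : ℕ} {N σ τ : ℝ} (hN : 1 ≤ N) (hσ : 0 < σ) (hτ : 0 < τ) (hτ1 : τ ≤ 1)
    {ω₁ ω₂ : Vec (m + 1)} (hω₁ : ‖ω₁‖ ≤ 1) (hω₂ : ‖ω₂‖ ≤ 1) {f₁ f₂ : Fin (m + 1) → Space (m + 1)}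
    (h₁ : Orthonormal ℝ (Fin.cons (nor ω₁) f₁ : Fin (m + 1 + 1) → Space (m + 1)))
    (h₂ : Orthonormal ℝ (Fin.cons (nor ω₂) f₂ : Fin (m + 1 + 1) → Space (m + 1)))
    (a₁ a₂ : Space (m + 1)) :
    ∫⁻ u in Set.univ.pi (fun _ : Fin m => Icc (0 : ℝ) τ), ∫⁻ y : Space (m + 1),
        (Sb N ω₁ f₁ a₁ ∩ Sb N ω₂ f₂ a₂).indicator (fun _ => (1 : ℝ≥0∞)) (u, y) ≤
      ENNReal.ofReal ((2 * (m + 1 : ℕ) * N) ^ (m + 1) * om (m + 1) * ((1 + (m + 1 : ℕ)) * N ^ 2) * τ ^ m *
        (2 + 16 * (m + 1 : ℕ) ^ 2 / (σ * τ)) ^ (m + 1) *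
        ∏ k, (1 : ℝ) / (1 + |((cell (σ / (2 * (m + 1 : ℕ) * N)) ω₁ k -
          cell (σ / (2 * (m + 1 : ℕ) * N)) ω₂ k : ℤ) : ℝ)|)) := by
  classical
  set D : ℝ := ((m + 1 : ℕ) : ℝ) with hD
  have hD1 : 1 ≤ D := by
    rw [hD]
    exact_mod_cast Nat.succ_le_succ (Nat.zero_le m)
  have hD0 : 0 < D := by linarith
  have hN0 : 0 < N := by linarith
  set ρ : ℝ := σ / (2 * D * N) with hρ
  have hρ0 : 0 < ρ := by positivity
  set z : Fin (m + 1) → ℝ := fun k => |((cell ρ ω₁ k - cell ρ ω₂ k : ℤ) : ℝ)| with hz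
  have hz0 : ∀ k, 0 ≤ z k := fun k => abs_nonneg _
  have hzk : ∀ k, z k ≤ |ω₁ k - ω₂ k| / ρ + 1 := fun k => cell_sub hρ0 ω₁ ω₂ k
  set R : ℝ := 2 * D * N with hR
  have hR0 : 0 < R := by positivity
  set T : ℝ := (1 + D) * N ^ 2 with hT
  have hT0 : 0 < T := by positivity
  set C₁ : ℝ := 2 + 16 * D ^ 2 / (σ * τ) with hC₁
  have hC₁0 : 0 < C₁ := by positivity
  set c : Fin (m + 1) → ℝ := fun k => a₁.fst k - a₂.fst k + 2 * a₁.snd * ω₁ k - 2 * a₂.snd * ω₂ k with hc
  set E : Set ((Fin m → ℝ) × ℝ) := {p | |p.2 - a₁.snd| ≤ T / 2 ∧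
    ∀ k, |c k + (N ^ 2 * (Fin.cons 0 p.1 : Fin (m + 1) → ℝ) k - 2 * p.2) * (ω₁ k - ω₂ k)| ≤ 2 * R} with hE
  have hEm : MeasurableSet E := by
    have h1 : IsClosed {p : (Fin m → ℝ) × ℝ | |p.2 - a₁.snd| ≤ T / 2} :=
      isClosed_le (by fun_prop) continuous_const
    have h2 : ∀ k, IsClosed {p : (Fin m → ℝ) × ℝ |
        |c k + (N ^ 2 * (Fin.cons 0 p.1 : Fin (m + 1) → ℝ) k - 2 * p.2) * (ω₁ k - ω₂ k)| ≤ 2 * R} := by
      intro k
      refine isClosed_le ?_ continuous_const
      have h3 : Continuous (fun p : (Fin m → ℝ) × ℝ => (Fin.cons 0 p.1 : Fin (m + 1) → ℝ) k) := by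
        refine Fin.cases ?_ (fun j => ?_) k
        · exact continuous_const
        · simp only [Fin.cons_succ]
          exact (continuous_apply j).comp continuous_fst
      exact (continuous_const.add (((continuous_const.mul h3).sub (continuous_const.mul continuous_snd)).mul
        continuous_const)).abs
    have h3 : E = {p : (Fin m → ℝ) × ℝ | |p.2 - a₁.snd| ≤ T / 2} ∩ ⋂ k, {p : (Fin m → ℝ) × ℝ |
        |c k + (N ^ 2 * (Fin.cons 0 p.1 : Fin (m + 1) → ℝ) k - 2 * p.2) * (ω₁ k - ω₂ k)| ≤ 2 * R} := by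
      ext p
      rw [mem_inter_iff, mem_iInter]
      rfl
    rw [h3]
    exact (h1.inter (isClosed_iInter h2)).measurableSet
  set V : ℝ≥0∞ := volume (closedBall (0 : Vec (m + 1)) R) with hV
  have hVe : V = ENNReal.ofReal (R ^ (m + 1) * om (m + 1)) := by
    rw [hV, vol_closedBall hR0]
  set S : Set ((Fin m → ℝ) × Space (m + 1)) := Sb N ω₁ f₁ a₁ ∩ Sb N ω₂ f₂ a₂ with hS
  have hSm : MeasurableSet S := ((Sb_closed _ _ _ _).inter (Sb_closed _ _ _ _)).measurableSet
  -- the integral over `x`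
  have hx : ∀ (u : Fin m → ℝ) (t : ℝ),
      ∫⁻ x : Vec (m + 1), S.indicator (fun _ => (1 : ℝ≥0∞)) (u, WithLp.toLp 2 (x, t)) ≤
        E.indicator (fun _ => V) (u, t) := by
    intro u t
    set p₁ : Vec (m + 1) := a₁.fst + WithLp.toLp 2 (fun j => N ^ 2 * (Fin.cons 0 u : Fin (m + 1) → ℝ) j * ω₁ j) -
      (2 * (t - a₁.snd)) • ω₁ with hp₁
    set p₂ : Vec (m + 1) := a₂.fst + WithLp.toLp 2 (fun j => N ^ 2 * (Fin.cons 0 u : Fin (m + 1) → ℝ) j * ω₂ j) -
      (2 * (t - a₂.snd)) • ω₂ with hp₂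
    by_cases hut : (u, t) ∈ E
    · rw [indicator_of_mem hut]
      calc ∫⁻ x : Vec (m + 1), S.indicator (fun _ => (1 : ℝ≥0∞)) (u, WithLp.toLp 2 (x, t))
          ≤ ∫⁻ x : Vec (m + 1), (closedBall p₁ R).indicator (fun _ => (1 : ℝ≥0∞)) x := by
            refine lintegral_mono fun x => ?_
            by_cases hm : (u, (WithLp.toLp 2 (x, t) : Space (m + 1))) ∈ S
            · have := (Sb_coord hN hω₁ h₁ hm.1).1
              rw [indicator_of_mem hm, indicator_of_mem this]
            · simp only [indicator_of_notMem hm]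
              exact zero_le
        _ = volume (closedBall p₁ R) := by
            rw [lintegral_indicator measurableSet_closedBall, setLIntegral_const, one_mul]
        _ = V := Measure.addHaar_closedBall_center _ _ _
    · rw [indicator_of_notMem hut]
      refine le_of_eq ?_
      have : ∀ x : Vec (m + 1), S.indicator (fun _ => (1 : ℝ≥0∞)) (u, (WithLp.toLp 2 (x, t) : Space (m + 1))) = 0 := by
        intro x
        apply indicator_of_notMem
        intro hm
        apply hut
        obtain ⟨g1, g2⟩ := Sb_coord hN hω₁ h₁ hm.1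
        obtain ⟨g3, _⟩ := Sb_coord hN hω₂ h₂ hm.2
        refine ⟨g2, fun k => ?_⟩
        have g4 : ‖p₁ - p₂‖ ≤ 2 * R := by
          rw [mem_closedBall] at g1 g3
          have := dist_triangle_left p₁ p₂ x
          rw [← dist_eq_norm]
          linarith
        have g5 : |(p₁ - p₂) k| ≤ ‖p₁ - p₂‖ := by
          have := PiLp.norm_apply_le (p₁ - p₂) k
          rwa [Real.norm_eq_abs] at this
        refine le_trans (le_of_eq ?_) (g5.trans g4)
        congr 1
        show a₁.fst k - a₂.fst k + 2 * a₁.snd * ω₁ k - 2 * a₂.snd * ω₂ k +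
          (N ^ 2 * (Fin.cons 0 u : Fin (m + 1) → ℝ) k - 2 * t) * (ω₁ k - ω₂ k) =
          (a₁.fst k + N ^ 2 * (Fin.cons 0 u : Fin (m + 1) → ℝ) k * ω₁ k - (2 * (t - a₁.snd)) * ω₁ k) -
          (a₂.fst k + N ^ 2 * (Fin.cons 0 u : Fin (m + 1) → ℝ) k * ω₂ k - (2 * (t - a₂.snd)) * ω₂ k)
        ring
      simp [this]
  -- the integral over the parameter
  set T₀ : Set ℝ := {s | s ∈ Icc (a₁.snd - T / 2) (a₁.snd - T / 2 + T) ∧
    |c 0 + 2 * s * (-(ω₁ 0 - ω₂ 0))| ≤ 2 * R} with hT₀
  set P : ℝ := ∏ k : Fin m, (τ * (C₁ / (1 + z k.succ))) with hP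
  have hPk : ∀ k : Fin m, 0 ≤ τ * (C₁ / (1 + z k.succ)) := fun k => by
    have := hz0 k.succ
    positivity
  have hu : ∀ t : ℝ, ∫⁻ u in Set.univ.pi (fun _ : Fin m => Icc (0 : ℝ) τ), E.indicator (fun _ => V) (u, t) ≤
      T₀.indicator (fun _ => V * ENNReal.ofReal P) t := by
    intro t
    by_cases ht : t ∈ T₀
    · rw [indicator_of_mem ht]
      set A : Fin m → Set ℝ := fun k => {v | v ∈ Icc (0 : ℝ) (0 + τ) ∧
        |(c k.succ - 2 * t * (ω₁ k.succ - ω₂ k.succ)) + N ^ 2 * v * (ω₁ k.succ - ω₂ k.succ)| ≤ 2 * R} with hA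
      have hAk : ∀ k, volume (A k) ≤ ENNReal.ofReal (τ * (C₁ / (1 + z k.succ))) := by
        intro k
        have h := line_meas (c := c k.succ - 2 * t * (ω₁ k.succ - ω₂ k.succ)) (r := 2 * R) (κ := N ^ 2)
          (Δ := ω₁ k.succ - ω₂ k.succ) (lo := 0) (T := τ) (ρ := ρ) (z := z k.succ) (by positivity)
          (by positivity) hτ hρ0 (hz0 _) (hzk _)
        refine h.trans (ENNReal.ofReal_le_ofReal ?_)
        have e : 2 * (2 * R) / (N ^ 2 * ρ * τ) = 8 * D ^ 2 * 2 / (σ * τ) := by
          rw [hρ, hR]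
          field_simp
          ring
        rw [e, hC₁]
        have := hz0 k.succ
        apply mul_le_mul_of_nonneg_left _ hτ.le
        apply div_le_div_of_nonneg_right _ (by positivity)
        apply add_le_add le_rfl
        apply le_of_eq
        ring
      calc ∫⁻ u in Set.univ.pi (fun _ : Fin m => Icc (0 : ℝ) τ), E.indicator (fun _ => V) (u, t)
          = ∫⁻ u, (Set.univ.pi (fun _ : Fin m => Icc (0 : ℝ) τ)).indicator
              (fun u => E.indicator (fun _ => V) (u, t)) u := by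
            rw [lintegral_indicator (MeasurableSet.univ_pi fun _ => measurableSet_Icc)]
        _ ≤ ∫⁻ u, (Set.univ.pi A).indicator (fun _ => V) u := by
            refine lintegral_mono fun u => ?_
            by_cases h1 : u ∈ Set.univ.pi (fun _ : Fin m => Icc (0 : ℝ) τ)
            · by_cases h2 : (u, t) ∈ E
              · have h3 : u ∈ Set.univ.pi A := by
                  intro k _
                  refine ⟨?_, ?_⟩
                  · rw [zero_add]
                    exact h1 k (Set.mem_univ k)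
                  · have h4 := h2.2 k.succ
                    simp only [Fin.cons_succ] at h4
                    refine le_trans (le_of_eq ?_) h4
                    congr 1
                    ring
                rw [indicator_of_mem h1, indicator_of_mem h2, indicator_of_mem h3]
              · rw [indicator_of_mem h1, indicator_of_notMem h2]
                exact zero_le
            · rw [indicator_of_notMem h1]
              exact zero_le
        _ ≤ V * volume (Set.univ.pi A) := lintegral_indicator_const_le _ _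
        _ ≤ V * ENNReal.ofReal P := by
            apply mul_le_mul' le_rfl
            rw [volume_pi_pi, hP, ENNReal.ofReal_prod_of_nonneg (fun k _ => hPk k)]
            exact Finset.prod_le_prod' fun k _ => hAk k
    · rw [indicator_of_notMem ht]
      refine le_of_eq ?_
      have : ∀ u : Fin m → ℝ, E.indicator (fun _ => V) (u, t) = 0 := by
        intro u
        apply indicator_of_notMem
        intro hE'
        apply ht
        refine ⟨?_, ?_⟩
        · have h1 := abs_le.1 hE'.1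
          simp only at h1
          constructor <;> linarith [h1.1, h1.2]
        · have h2 := hE'.2 0
          simp only [Fin.cons_zero] at h2
          refine le_trans (le_of_eq ?_) h2
          congr 1
          ring
      simp [this]
  have hT₀v : volume T₀ ≤ ENNReal.ofReal (T * (C₁ / (1 + z 0))) := by
    have h := line_meas (c := c 0) (r := 2 * R) (κ := 2)
      (Δ := -(ω₁ 0 - ω₂ 0)) (lo := a₁.snd - T / 2) (T := T) (ρ := ρ) (z := z 0) (by positivity)
      (by positivity) hT0 hρ0 (hz0 _) (by rw [abs_neg]; exact hzk _)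
    refine h.trans (ENNReal.ofReal_le_ofReal ?_)
    have e : 2 * (2 * R) / (2 * ρ * T) = 8 * D ^ 2 / (σ * (2 * (1 + D)) / 2) := by
      rw [hρ, hR, hT]
      field_simp
      ring
    rw [e, hC₁]
    have := hz0 0
    apply mul_le_mul_of_nonneg_left _ hT0.le
    apply div_le_div_of_nonneg_right _ (by positivity)
    apply add_le_add le_rfl
    rw [div_le_div_iff₀ (by positivity) (by positivity)]
    have h5 : σ * τ ≤ σ * (1 + D) := mul_le_mul_of_nonneg_left (by linarith) hσ.le
    have h6 : 0 ≤ D ^ 2 := by positivity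
    nlinarith [mul_le_mul_of_nonneg_left h5 h6, mul_nonneg h6 (mul_nonneg hσ.le (by linarith : 0 ≤ 1 + D))]
  have hmp := WithLp.volume_preserving_toLp (Vec (m + 1)) ℝ
  have hsplit : ∀ u : Fin m → ℝ, ∫⁻ y : Space (m + 1), S.indicator (fun _ => (1 : ℝ≥0∞)) (u, y) =
      ∫⁻ t : ℝ, ∫⁻ x : Vec (m + 1), S.indicator (fun _ => (1 : ℝ≥0∞)) (u, WithLp.toLp 2 (x, t)) := by
    intro u
    have hg : Measurable (fun y : Space (m + 1) => S.indicator (fun _ => (1 : ℝ≥0∞)) (u, y)) :=
      (measurable_const.indicator hSm).comp measurable_prodMk_left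
    rw [← hmp.lintegral_comp hg]
    have hg2 : Measurable (fun p : Vec (m + 1) × ℝ => S.indicator (fun _ => (1 : ℝ≥0∞))
        (u, (WithLp.toLp 2 p : Space (m + 1)))) := hg.comp hmp.measurable
    rw [Measure.volume_eq_prod, lintegral_prod_symm _ hg2.aemeasurable]
  calc ∫⁻ u in Set.univ.pi (fun _ : Fin m => Icc (0 : ℝ) τ), ∫⁻ y : Space (m + 1),
        S.indicator (fun _ => (1 : ℝ≥0∞)) (u, y)
      ≤ ∫⁻ u in Set.univ.pi (fun _ : Fin m => Icc (0 : ℝ) τ), ∫⁻ t : ℝ, E.indicator (fun _ => V) (u, t) := by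
        refine lintegral_mono fun u => ?_
        simp only
        rw [hsplit u]
        exact lintegral_mono fun t => hx u t
    _ = ∫⁻ t : ℝ, ∫⁻ u in Set.univ.pi (fun _ : Fin m => Icc (0 : ℝ) τ), E.indicator (fun _ => V) (u, t) := by
        apply lintegral_lintegral_swap
        exact (measurable_const.indicator hEm).aemeasurable
    _ ≤ ∫⁻ t : ℝ, T₀.indicator (fun _ => V * ENNReal.ofReal P) t := lintegral_mono fun t => hu t
    _ ≤ V * ENNReal.ofReal P * volume T₀ := lintegral_indicator_const_le _ _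
    _ ≤ V * ENNReal.ofReal P * ENNReal.ofReal (T * (C₁ / (1 + z 0))) := mul_le_mul' le_rfl hT₀v
    _ = ENNReal.ofReal (R ^ (m + 1) * om (m + 1) * P * (T * (C₁ / (1 + z 0)))) := by
        have h1 := om_pos (d := m + 1)
        have h2 : 0 ≤ P := Finset.prod_nonneg fun k _ => hPk k
        rw [hVe, ← ENNReal.ofReal_mul (by positivity), ← ENNReal.ofReal_mul (by positivity)]
    _ = _ := by
        congr 1
        have hPe : P = τ ^ m * C₁ ^ m * ∏ k : Fin m, 1 / (1 + z k.succ) := by
          rw [hP]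
          have : ∀ k : Fin m, τ * (C₁ / (1 + z k.succ)) = (τ * C₁) * (1 / (1 + z k.succ)) := fun k => by ring
          simp only [this]
          rw [Finset.prod_mul_distrib, Finset.prod_const, Finset.card_univ, Fintype.card_fin, mul_pow]
        rw [Fin.prod_univ_succ, hPe]
        ring

end Pool.Agent.H810R3.Tub
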