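import Pool.Agent.H810R3.Tub.Per3

set_option autoImplicit false

/-! The mean square of perturbed families. -/

open MeasureTheory Set Filter Topology ENNReal NNReal Metric

namespace Pool.Agent.H810R3.Tub

theorem Fb_eq {m : ℕ} {ι : Type} [Fintype ι] (N : ℝ) (ω : ι → Vec (m + 1))
    (f : ι → Fin (m + 1) → Space (m + 1)) (a : ι → Space (m + 1)) (u : Fin m → ℝ) (y : Space (m + 1)) :
    Fb N ω f (fun i => a i + lin N u (ω i)) y =
      ∑ i, (Sb N (ω i) (f i) (a i)).indicator (fun _ => (1 : ℝ≥0∞)) (u, y) := by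
  unfold Fb
  refine Finset.sum_congr rfl fun i _ => ?_
  by_cases h : (u, y) ∈ Sb N (ω i) (f i) (a i)
  · have h' : y ∈ box N (nor (ω i)) (f i) (a i + lin N u (ω i)) := h
    rw [indicator_of_mem h, indicator_of_mem h']
  · have h' : y ∉ box N (nor (ω i)) (f i) (a i + lin N u (ω i)) := h
    rw [indicator_of_notMem h, indicator_of_notMem h']

theorem Fb_sq {m : ℕ} {ι : Type} [Fintype ι] (N : ℝ) (ω : ι → Vec (m + 1))
    (f : ι → Fin (m + 1) → Space (m + 1)) (a : ι → Space (m + 1)) (u : Fin m → ℝ) (y : Space (m + 1)) :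
    Fb N ω f (fun i => a i + lin N u (ω i)) y ^ (2 : ℝ) =
      ∑ i, ∑ j, (Sb N (ω i) (f i) (a i) ∩ Sb N (ω j) (f j) (a j)).indicator (fun _ => (1 : ℝ≥0∞)) (u, y) := by
  rw [Fb_eq, ENNReal.rpow_two, sq, Finset.sum_mul_sum]
  refine Finset.sum_congr rfl fun i _ => Finset.sum_congr rfl fun j _ => ?_
  by_cases h1 : (u, y) ∈ Sb N (ω i) (f i) (a i)
  · by_cases h2 : (u, y) ∈ Sb N (ω j) (f j) (a j)
    · have h3 : (u, y) ∈ Sb N (ω i) (f i) (a i) ∩ Sb N (ω j) (f j) (a j) := ⟨h1, h2⟩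
      rw [indicator_of_mem h1, indicator_of_mem h2, indicator_of_mem h3, one_mul]
    · have h3 : (u, y) ∉ Sb N (ω i) (f i) (a i) ∩ Sb N (ω j) (f j) (a j) := fun h => h2 h.2
      rw [indicator_of_notMem h2, indicator_of_notMem h3, mul_zero]
  · have h3 : (u, y) ∉ Sb N (ω i) (f i) (a i) ∩ Sb N (ω j) (f j) (a j) := fun h => h1 h.1
    rw [indicator_of_notMem h1, indicator_of_notMem h3, zero_mul]

theorem inter_meas {m : ℕ} {ι : Type} (N : ℝ) (ω : ι → Vec (m + 1))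
    (f : ι → Fin (m + 1) → Space (m + 1)) (a : ι → Space (m + 1)) (i j : ι) :
    Measurable ((Sb N (ω i) (f i) (a i) ∩ Sb N (ω j) (f j) (a j)).indicator (fun _ => (1 : ℝ≥0∞))) :=
  measurable_const.indicator ((Sb_closed _ _ _ _).inter (Sb_closed _ _ _ _)).measurableSet

/-- The mean square as a sum over pairs. -/
theorem sq_eq {m : ℕ} {ι : Type} [Fintype ι] (N : ℝ) (ω : ι → Vec (m + 1))
    (f : ι → Fin (m + 1) → Space (m + 1)) (a : ι → Space (m + 1)) (u : Fin m → ℝ) :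
    ∫⁻ y, Fb N ω f (fun i => a i + lin N u (ω i)) y ^ (2 : ℝ) =
      ∑ i, ∑ j, ∫⁻ y, (Sb N (ω i) (f i) (a i) ∩ Sb N (ω j) (f j) (a j)).indicator
        (fun _ => (1 : ℝ≥0∞)) (u, y) := by
  simp only [Fb_sq]
  have hm : ∀ i j, Measurable (fun y : Space (m + 1) =>
      (Sb N (ω i) (f i) (a i) ∩ Sb N (ω j) (f j) (a j)).indicator (fun _ => (1 : ℝ≥0∞)) (u, y)) :=
    fun i j => (inter_meas N ω f a i j).comp measurable_prodMk_left
  rw [lintegral_finsetSum _ (fun i _ => Finset.measurable_fun_sum _ fun j _ => hm i j)]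
  refine Finset.sum_congr rfl fun i _ => ?_
  rw [lintegral_finsetSum _ (fun j _ => hm i j)]

theorem sq_meas {m : ℕ} {ι : Type} [Fintype ι] (N : ℝ) (ω : ι → Vec (m + 1))
    (f : ι → Fin (m + 1) → Space (m + 1)) (a : ι → Space (m + 1)) :
    Measurable (fun u : Fin m → ℝ => ∫⁻ y, Fb N ω f (fun i => a i + lin N u (ω i)) y ^ (2 : ℝ)) := by
  simp only [sq_eq]
  refine Finset.measurable_fun_sum _ fun i _ => Finset.measurable_fun_sum _ fun j _ => ?_
  exact (inter_meas N ω f a i j).lintegral_prod_right'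

/-- The mean over the parameters of the mean square. -/
theorem total (m : ℕ) (σ : ℝ) (hσ : 0 < σ) (hσ1 : σ ≤ 1) :
    ∃ A₀ : ℝ, 0 < A₀ ∧ ∀ N : ℝ, 1 ≤ N → ∀ (ι : Type) [Fintype ι] (ω : ι → Vec (m + 1))
      (f : ι → Fin (m + 1) → Space (m + 1)) (a : ι → Space (m + 1)),
      (∀ i, ‖ω i‖ ≤ 1) → (∀ i j, i ≠ j → σ / N ≤ ‖ω i - ω j‖) →
      (∀ i, Orthonormal ℝ (Fin.cons (nor (ω i)) (f i) : Fin (m + 1 + 1) → Space (m + 1))) →
      ∀ τ : ℝ, 0 < τ → τ ≤ 1 →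
        ∫⁻ u in Set.univ.pi (fun _ : Fin m => Icc (0 : ℝ) τ),
            ∫⁻ y, Fb N ω f (fun i => a i + lin N u (ω i)) y ^ (2 : ℝ)
          ≤ ENNReal.ofReal (A₀ * (Fintype.card ι : ℝ) * N ^ (m + 3) *
            ((1 + Real.log N) ^ (m + 1) / τ ^ (m + 1)) * τ ^ m) := by
  set D : ℝ := ((m + 1 : ℕ) : ℝ) with hD
  have hD1 : 1 ≤ D := by
    rw [hD]
    exact_mod_cast Nat.succ_le_succ (Nat.zero_le m)
  have hD0 : 0 < D := by linarith
  have hl : 0 ≤ Real.log (8 * D / σ) := Real.log_nonneg (by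
    rw [le_div_iff₀ hσ]
    linarith)
  have hom := om_pos (d := m + 1)
  set L : ℝ := 2 * (1 + Real.log (8 * D / σ)) with hL
  have hL0 : 0 < L := by positivity
  refine ⟨(2 * D) ^ (m + 1) * om (m + 1) * (1 + D) * (18 * D ^ 2 / σ) ^ (m + 1) * L ^ (m + 1), by positivity, ?_⟩
  intro N hN ι _ ω f a hω hsep hf τ hτ hτ1
  have hN0 : 0 < N := by linarith
  have hlN : 0 ≤ Real.log N := Real.log_nonneg hN
  set K : ℝ := (2 * D * N) ^ (m + 1) * om (m + 1) * ((1 + D) * N ^ 2) * τ ^ m *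
    (2 + 16 * D ^ 2 / (σ * τ)) ^ (m + 1) with hK
  have hK0 : 0 < K := by positivity
  set g : ι → ι → ℝ := fun i j => ∏ k, (1 : ℝ) / (1 + |((cell (σ / (2 * D * N)) (ω i) k -
    cell (σ / (2 * D * N)) (ω j) k : ℤ) : ℝ)|) with hg
  have hg0 : ∀ i j, 0 ≤ g i j := fun i j => Finset.prod_nonneg fun k _ => by positivity
  simp only [sq_eq]
  have hm : ∀ i j, Measurable (fun u : Fin m → ℝ => ∫⁻ y, (Sb N (ω i) (f i) (a i) ∩
      Sb N (ω j) (f j) (a j)).indicator (fun _ => (1 : ℝ≥0∞)) (u, y)) :=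
    fun i j => (inter_meas N ω f a i j).lintegral_prod_right'
  rw [lintegral_finsetSum _ (fun i _ => Finset.measurable_fun_sum _ fun j _ => hm i j)]
  have hi : ∀ i, ∫⁻ u in Set.univ.pi (fun _ : Fin m => Icc (0 : ℝ) τ), ∑ j, ∫⁻ y, (Sb N (ω i) (f i) (a i) ∩
      Sb N (ω j) (f j) (a j)).indicator (fun _ => (1 : ℝ≥0∞)) (u, y) ≤
      ENNReal.ofReal (K * (L * (1 + Real.log N)) ^ (m + 1)) := by
    intro i
    rw [lintegral_finsetSum _ (fun j _ => hm i j)]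
    calc ∑ j, ∫⁻ u in Set.univ.pi (fun _ : Fin m => Icc (0 : ℝ) τ), ∫⁻ y, (Sb N (ω i) (f i) (a i) ∩
          Sb N (ω j) (f j) (a j)).indicator (fun _ => (1 : ℝ≥0∞)) (u, y)
        ≤ ∑ j, ENNReal.ofReal (K * g i j) :=
          Finset.sum_le_sum fun j _ => pair_int hN hσ hτ hτ1 (hω i) (hω j) (hf i) (hf j) (a i) (a j)
      _ = ENNReal.ofReal (K * ∑ j, g i j) := by
          rw [← ENNReal.ofReal_sum_of_nonneg (fun j _ => mul_nonneg hK0.le (hg0 i j)), Finset.mul_sum]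
      _ ≤ _ := by
          apply ENNReal.ofReal_le_ofReal
          apply mul_le_mul_of_nonneg_left _ hK0.le
          exact sum_sep (d := m + 1) (Nat.succ_le_succ (Nat.zero_le m)) hN hσ hσ1 ω hω hsep i
  calc ∑ i, ∫⁻ u in Set.univ.pi (fun _ : Fin m => Icc (0 : ℝ) τ), ∑ j, ∫⁻ y, (Sb N (ω i) (f i) (a i) ∩
          Sb N (ω j) (f j) (a j)).indicator (fun _ => (1 : ℝ≥0∞)) (u, y)
      ≤ ∑ _i : ι, ENNReal.ofReal (K * (L * (1 + Real.log N)) ^ (m + 1)) := Finset.sum_le_sum fun i _ => hi i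
    _ = ENNReal.ofReal ((Fintype.card ι : ℝ) * (K * (L * (1 + Real.log N)) ^ (m + 1))) := by
        rw [Finset.sum_const, Finset.card_univ, nsmul_eq_mul, ENNReal.ofReal_mul (Nat.cast_nonneg _),
          ENNReal.ofReal_natCast]
    _ ≤ _ := by
        apply ENNReal.ofReal_le_ofReal
        have h1 : 2 + 16 * D ^ 2 / (σ * τ) ≤ 18 * D ^ 2 / σ / τ := by
          rw [div_div, ← sub_nonneg]
          have e : 18 * D ^ 2 / (σ * τ) - (2 + 16 * D ^ 2 / (σ * τ)) = 2 * (D ^ 2 / (σ * τ) - 1) := by ring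
          rw [e]
          have h2 : 1 ≤ D ^ 2 / (σ * τ) := by
            rw [le_div_iff₀ (by positivity)]
            nlinarith [mul_le_mul hσ1 hτ1 hτ.le zero_le_one]
          linarith
        have h3 : (2 + 16 * D ^ 2 / (σ * τ)) ^ (m + 1) ≤ (18 * D ^ 2 / σ / τ) ^ (m + 1) :=
          pow_le_pow_left₀ (by positivity) h1 _
        calc (Fintype.card ι : ℝ) * (K * (L * (1 + Real.log N)) ^ (m + 1))
            ≤ (Fintype.card ι : ℝ) * (((2 * D * N) ^ (m + 1) * om (m + 1) * ((1 + D) * N ^ 2) * τ ^ m *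
              (18 * D ^ 2 / σ / τ) ^ (m + 1)) * (L * (1 + Real.log N)) ^ (m + 1)) := by
              rw [hK]
              gcongr
          _ = _ := by
              rw [mul_pow (2 * D) N, mul_pow L, div_pow (18 * D ^ 2 / σ) τ]
              ring

end Pool.Agent.H810R3.Tub
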