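import Pool.Agent.H810R3.Tub.Core

set_option autoImplicit false

/-! Polynomial maps take almost every value a bounded number of times. -/

open MeasureTheory Set Filter Topology ENNReal NNReal Metric

namespace Pool.Agent.H810R3.Tub

/-- The zero set of a nonzero real polynomial is a null set. -/
theorem zero_null (n : ℕ) : ∀ P : MvPolynomial (Fin n) ℝ, P ≠ 0 →
    volume {y : Fin n → ℝ | MvPolynomial.eval y P = 0} = 0 := by
  induction n with
  | zero =>
    intro P hP
    have : {y : Fin 0 → ℝ | MvPolynomial.eval y P = 0} = ∅ := by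
      ext y
      simp only [Set.mem_ofPred_eq, Set.mem_empty_iff_false, iff_false]
      intro h
      apply hP
      apply MvPolynomial.funext
      intro z
      have : z = y := Subsingleton.elim _ _
      rw [this, h, map_zero]
    rw [this, measure_empty]
  | succ n ih =>
    intro P hP
    set f := MvPolynomial.finSuccEquiv ℝ n P with hf
    have hf0 : f ≠ 0 := by
      rw [hf]; exact (map_ne_zero_iff _ (MvPolynomial.finSuccEquiv ℝ n).injective).2 hP
    obtain ⟨m, hm⟩ : ∃ m, f.coeff m ≠ 0 := by
      by_contra hcon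
      push Not at hcon
      exact hf0 (Polynomial.ext (by simpa using hcon))
    have hnull := ih (f.coeff m) hm
    set S := {y : Fin (n + 1) → ℝ | MvPolynomial.eval y P = 0} with hS
    set S' := {z : ℝ × (Fin n → ℝ) | MvPolynomial.eval (Fin.cons z.1 z.2 : Fin (n + 1) → ℝ) P = 0} with hS'
    have hcont : Continuous (fun z : ℝ × (Fin n → ℝ) =>
        MvPolynomial.eval (Fin.cons z.1 z.2 : Fin (n + 1) → ℝ) P) := by
      refine (MvPolynomial.continuous_eval P).comp ?_
      refine continuous_pi ?_
      intro i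
      refine Fin.cases ?_ (fun i => ?_) i
      · simp only [Fin.cons_zero]; fun_prop
      · simp only [Fin.cons_succ]; fun_prop
    have hmeas : MeasurableSet S' := (isClosed_singleton.preimage hcont).measurableSet
    have hpre : S = (MeasurableEquiv.piFinSuccAbove (fun _ => ℝ) 0) ⁻¹' S' := by
      ext y
      simp only [hS, hS', Set.mem_ofPred_eq, Set.mem_preimage]
      have : (Fin.cons (((MeasurableEquiv.piFinSuccAbove (fun _ => ℝ) 0) y).1)
          (((MeasurableEquiv.piFinSuccAbove (fun _ => ℝ) 0) y).2) :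
          Fin (n + 1) → ℝ) = y := by
        funext j
        refine Fin.cases ?_ (fun j => ?_) j
        · rfl
        · rfl
      rw [this]
    rw [hpre, (volume_preserving_piFinSuccAbove (fun _ => ℝ) 0).measure_preimage_equiv]
    have hswap : volume S' = (volume : Measure ((Fin n → ℝ) × ℝ)) (Prod.swap ⁻¹' S') := by
      have := (Measure.measurePreserving_swap (μ := (volume : Measure (Fin n → ℝ)))
        (ν := (volume : Measure ℝ))).measure_preimage hmeas.nullMeasurableSet
      exact this.symm
    rw [hswap, Measure.volume_eq_prod, Measure.measure_prod_null (measurable_swap hmeas)]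
    have hae : ∀ᵐ y : Fin n → ℝ, y ∉ {y : Fin n → ℝ |
        MvPolynomial.eval y (f.coeff m) = 0} := measure_eq_zero_iff_ae_notMem.1 hnull
    filter_upwards [hae] with y hy
    have hy' : MvPolynomial.eval y (f.coeff m) ≠ 0 := hy
    have hmap : f.map (MvPolynomial.eval y) ≠ 0 := by
      intro h0
      apply hy'
      have := congrArg (fun q => Polynomial.coeff q m) h0
      simpa [Polynomial.coeff_map] using this
    have hfin : (Prod.mk y ⁻¹' (Prod.swap ⁻¹' S')).Finite := by
      refine Set.Finite.subset (Polynomial.rootSet_finite (f.map (MvPolynomial.eval y)) ℝ) ?_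
      intro a ha
      rw [Polynomial.mem_rootSet]
      refine ⟨hmap, ?_⟩
      have h1 := MvPolynomial.eval_eq_eval_mv_eval' y a P
      rw [Polynomial.coe_aeval_eq_eval, ← hf] at *
      rw [← h1]
      exact ha
    exact hfin.measure_zero volume

variable {d : ℕ}

/-- exponent vectors -/
noncomputable def ex {m : ℕ} (y : Fin d → Fin m) : Fin d →₀ ℕ :=
  Finsupp.equivFunOnFinite.symm (fun i => (y i : ℕ))

theorem ex_apply {m : ℕ} (y : Fin d → Fin m) (i : Fin d) : ex y i = (y i : ℕ) := rfl

theorem ex_inj {m : ℕ} : Function.Injective (ex : (Fin d → Fin m) → _) := by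
  intro y z h
  funext i
  apply Fin.ext
  have := DFunLike.congr_fun h i
  exact this

theorem eq_zero_of_coeff {m : ℕ} {P : MvPolynomial (Fin d) ℝ} (hP : P.totalDegree ≤ m)
    (h : ∀ y : Fin d → Fin (m + 1), P.coeff (ex y) = 0) : P = 0 := by
  apply MvPolynomial.ext
  intro e
  rw [MvPolynomial.coeff_zero]
  by_cases he : ∀ i, e i ≤ m
  · have := h (fun i => ⟨e i, Nat.lt_succ_of_le (he i)⟩)
    have e' : ex (fun i => (⟨e i, Nat.lt_succ_of_le (he i)⟩ : Fin (m + 1))) = e := by
      ext i
      rfl
    rwa [e'] at this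
  · push Not at he
    obtain ⟨i, hi⟩ := he
    apply MvPolynomial.coeff_eq_zero_of_totalDegree_lt
    refine lt_of_le_of_lt hP (lt_of_lt_of_le hi ?_)
    have hmem : i ∈ e.support := by
      rw [Finsupp.mem_support_iff]
      omega
    exact Finset.single_le_sum (f := fun j => e j) (fun j _ => Nat.zero_le _) hmem

theorem count (k J : ℕ) (hJ : J = (k * d + 1) ^ d) :
    (k * d * J + J + 1) ^ d < (J + 1) ^ d * (J + 1) := by
  have h1 : k * d * J + J + 1 ≤ (k * d + 1) * (J + 1) := by nlinarith
  calc (k * d * J + J + 1) ^ d ≤ ((k * d + 1) * (J + 1)) ^ d := Nat.pow_le_pow_left h1 d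
    _ = J * (J + 1) ^ d := by rw [mul_pow, ← hJ]
    _ < (J + 1) * (J + 1) ^ d := by
        apply Nat.mul_lt_mul_of_pos_right (Nat.lt_succ_self J)
        positivity
    _ = (J + 1) ^ d * (J + 1) := by ring

theorem relation (hd : 1 ≤ d) {k J : ℕ} (hJ : J = (k * d + 1) ^ d) (φ : Fin d → MvPolynomial (Fin d) ℝ)
    (hφ : ∀ i, (φ i).totalDegree ≤ k) (a : Fin d) :
    ∃ c : (Fin d → Fin (J + 1)) × Fin (J + 1) → ℝ, c ≠ 0 ∧
      ∑ x, c x • ((∏ i, φ i ^ (x.1 i : ℕ)) * MvPolynomial.X a ^ (x.2 : ℕ)) = 0 := by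
  classical
  set m := k * d * J + J with hm
  let Λ : ((Fin d → Fin (J + 1)) × Fin (J + 1) → ℝ) →ₗ[ℝ] MvPolynomial (Fin d) ℝ :=
    { toFun := fun c => ∑ x, c x • ((∏ i, φ i ^ (x.1 i : ℕ)) * MvPolynomial.X a ^ (x.2 : ℕ))
      map_add' := by
        intro c c'
        rw [← Finset.sum_add_distrib]
        refine Finset.sum_congr rfl fun x _ => ?_
        rw [Pi.add_apply, add_smul]
      map_smul' := by
        intro r c
        rw [Finset.smul_sum]
        refine Finset.sum_congr rfl fun x _ => ?_
        rw [Pi.smul_apply, smul_eq_mul, mul_smul, RingHom.id_apply] }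
  let Γ : MvPolynomial (Fin d) ℝ →ₗ[ℝ] ((Fin d → Fin (m + 1)) → ℝ) :=
    { toFun := fun P y => P.coeff (ex y)
      map_add' := by
        intro P Q
        funext y
        simp
      map_smul' := by
        intro r P
        funext y
        simp }
  have hlt : Module.finrank ℝ ((Fin d → Fin (m + 1)) → ℝ) <
      Module.finrank ℝ ((Fin d → Fin (J + 1)) × Fin (J + 1) → ℝ) := by
    rw [Module.finrank_fintype_fun_eq_card, Module.finrank_fintype_fun_eq_card, Fintype.card_prod]
    simp only [Fintype.card_pi, Fintype.card_fin, Finset.prod_const, Finset.card_univ]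
    exact count k J hJ
  have hker := LinearMap.ker_ne_bot_of_finrank_lt (f := Γ ∘ₗ Λ) hlt
  obtain ⟨c, hc, hc0⟩ := Submodule.exists_mem_ne_zero_of_ne_bot hker
  refine ⟨c, hc0, ?_⟩
  have hdeg : (Λ c).totalDegree ≤ m := by
    show (∑ x, c x • ((∏ i, φ i ^ (x.1 i : ℕ)) * MvPolynomial.X a ^ (x.2 : ℕ))).totalDegree ≤ m
    apply MvPolynomial.totalDegree_finsetSum_le
    intro x _
    refine (MvPolynomial.totalDegree_smul_le _ _).trans ?_
    refine (MvPolynomial.totalDegree_mul _ _).trans ?_
    have h1 : (∏ i, φ i ^ (x.1 i : ℕ)).totalDegree ≤ k * d * J := by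
      refine (MvPolynomial.totalDegree_finsetProd _ _).trans ?_
      calc ∑ i, (φ i ^ (x.1 i : ℕ)).totalDegree ≤ ∑ _i : Fin d, J * k := by
            refine Finset.sum_le_sum fun i _ => ?_
            refine (MvPolynomial.totalDegree_pow _ _).trans ?_
            exact Nat.mul_le_mul (Nat.lt_succ_iff.1 (x.1 i).2) (hφ i)
        _ = k * d * J := by
            rw [Finset.sum_const, Finset.card_univ, Fintype.card_fin, smul_eq_mul]
            ring
    have h2 : ((MvPolynomial.X a : MvPolynomial (Fin d) ℝ) ^ (x.2 : ℕ)).totalDegree ≤ J := by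
      rw [MvPolynomial.totalDegree_X_pow]
      exact Nat.lt_succ_iff.1 x.2.2
    omega
  have hz : Γ (Λ c) = 0 := by
    have := LinearMap.mem_ker.1 hc
    exact this
  exact eq_zero_of_coeff hdeg (fun y => congr_fun hz y)

/-- One coordinate of the preimages takes at most `J` values. -/
theorem coord (hd : 1 ≤ d) {k J : ℕ} (hJ : J = (k * d + 1) ^ d) (φ : Fin d → MvPolynomial (Fin d) ℝ)
    (hφ : ∀ i, (φ i).totalDegree ≤ k) (a : Fin d) :
    ∀ᵐ y : Fin d → ℝ, ∃ T : Finset ℝ, T.card ≤ J ∧
      ∀ v : Fin d → ℝ, (∀ i, MvPolynomial.eval v (φ i) = y i) → v a ∈ T := by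
  classical
  obtain ⟨c, hc0, hc⟩ := relation hd hJ φ hφ a
  obtain ⟨⟨α, j⟩, hαj⟩ : ∃ x, c x ≠ 0 := by
    by_contra hcon
    push Not at hcon
    exact hc0 (funext hcon)
  let R : Fin (J + 1) → MvPolynomial (Fin d) ℝ := fun j => ∑ β : Fin d → Fin (J + 1),
    MvPolynomial.monomial (ex β) (c (β, j))
  have hR : R j ≠ 0 := by
    intro h
    have h1 : (R j).coeff (ex α) = 0 := by rw [h, MvPolynomial.coeff_zero]
    apply hαj
    rw [← h1]
    show _ = MvPolynomial.coeff (ex α) (∑ β : Fin d → Fin (J + 1), MvPolynomial.monomial (ex β) (c (β, j)))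
    rw [MvPolynomial.coeff_sum, Finset.sum_eq_single α]
    · rw [MvPolynomial.coeff_monomial, if_pos rfl]
    · intro β _ hβ
      rw [MvPolynomial.coeff_monomial, if_neg (fun h => hβ (ex_inj h))]
    · intro h
      exact absurd (Finset.mem_univ _) h
  have hae := measure_eq_zero_iff_ae_notMem.1 (zero_null d (R j) hR)
  filter_upwards [hae] with y hy
  let g : Polynomial ℝ := ∑ j : Fin (J + 1), Polynomial.monomial (j : ℕ) (MvPolynomial.eval y (R j))
  have hg0 : g ≠ 0 := by
    intro h
    apply hy
    have h1 : g.coeff j = 0 := by rw [h, Polynomial.coeff_zero]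
    show MvPolynomial.eval y (R j) = 0
    rw [← h1]
    show _ = (∑ j : Fin (J + 1), Polynomial.monomial (j : ℕ) (MvPolynomial.eval y (R j))).coeff j
    rw [Polynomial.finsetSum_coeff, Finset.sum_eq_single j]
    · rw [Polynomial.coeff_monomial, if_pos rfl]
    · intro i _ hi
      rw [Polynomial.coeff_monomial, if_neg (fun h => hi (Fin.ext h))]
    · intro h
      exact absurd (Finset.mem_univ _) h
  have hgd : g.natDegree ≤ J := by
    apply Polynomial.natDegree_sum_le_of_forall_le
    intro i _
    exact (Polynomial.natDegree_monomial_le _).trans (Nat.lt_succ_iff.1 i.2)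
  refine ⟨g.roots.toFinset, ?_, ?_⟩
  · exact (Multiset.toFinset_card_le _).trans ((Polynomial.card_roots' g).trans hgd)
  · intro v hv
    rw [Multiset.mem_toFinset, Polynomial.mem_roots hg0, Polynomial.IsRoot.def]
    have h1 := congrArg (MvPolynomial.eval v) hc
    rw [map_zero, map_sum, Fintype.sum_prod_type, Finset.sum_comm] at h1
    rw [← h1]
    show Polynomial.eval (v a) (∑ j : Fin (J + 1), Polynomial.monomial (j : ℕ) (MvPolynomial.eval y (R j))) = _
    rw [Polynomial.eval_finsetSum]
    refine Finset.sum_congr rfl fun j _ => ?_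
    rw [Polynomial.eval_monomial]
    show MvPolynomial.eval y (∑ β : Fin d → Fin (J + 1), MvPolynomial.monomial (ex β) (c (β, j))) * _ = _
    rw [map_sum, Finset.sum_mul]
    refine Finset.sum_congr rfl fun β _ => ?_
    rw [MvPolynomial.eval_monomial, MvPolynomial.smul_eval, map_mul, map_pow, MvPolynomial.eval_X, map_prod,
      Finsupp.prod_fintype _ _ (fun i => pow_zero _), mul_assoc]
    congr 2
    refine Finset.prod_congr rfl fun i _ => ?_
    rw [map_pow, hv i]
    rfl

/-- A polynomial map of degree at most `k` takes almost every value at most `(k d + 1)^(d^2)` times. -/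
theorem few (hd : 1 ≤ d) {k J : ℕ} (hJ : J = (k * d + 1) ^ d) (φ : Fin d → MvPolynomial (Fin d) ℝ)
    (hφ : ∀ i, (φ i).totalDegree ≤ k) :
    ∀ᵐ y : Fin d → ℝ, {v : Fin d → ℝ | ∀ i, MvPolynomial.eval v (φ i) = y i}.encard ≤ ((J ^ d : ℕ) : ℕ∞) := by
  classical
  have h := ae_all_iff.2 (fun a => coord hd hJ φ hφ a)
  filter_upwards [h] with y hy
  choose T hT1 hT2 using hy
  have hsub : {v : Fin d → ℝ | ∀ i, MvPolynomial.eval v (φ i) = y i} ⊆ (Fintype.piFinset T : Set (Fin d → ℝ)) := by
    intro v hv
    rw [Finset.mem_coe, Fintype.mem_piFinset]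
    exact fun a => hT2 a v hv
  refine (Set.encard_le_encard hsub).trans ?_
  rw [Set.encard_coe_eq_coe_finsetCard, Fintype.card_piFinset]
  norm_cast
  calc ∏ i, (T i).card ≤ ∏ _i : Fin d, J := Finset.prod_le_prod' fun i _ => hT1 i
    _ = J ^ d := by rw [Finset.prod_const, Finset.card_univ, Fintype.card_fin]

/-- The polynomial map with components `P`. -/
noncomputable def pmap (P : Fin d → MvPolynomial (Fin d) ℝ) (v : Vec d) : Vec d :=
  WithLp.toLp 2 (fun j => MvPolynomial.eval (fun i => v i) (P j))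

theorem pmap_few (hd : 1 ≤ d) {k : ℕ} (hk : 1 ≤ k) (P : Fin d → MvPolynomial (Fin d) ℝ)
    (hP : ∀ j, (P j).totalDegree ≤ k) : FewPre (((k * d + 1) ^ d) ^ d) (pmap P) := by
  refine Filter.Eventually.of_forall fun t => ?_
  set φ : Fin d → MvPolynomial (Fin d) ℝ := fun j => P j + MvPolynomial.C t * MvPolynomial.X j with hφ
  have hφd : ∀ j, (φ j).totalDegree ≤ k := by
    intro j
    refine (MvPolynomial.totalDegree_add _ _).trans (max_le (hP j) ?_)
    refine (MvPolynomial.totalDegree_mul _ _).trans ?_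
    rw [MvPolynomial.totalDegree_C, MvPolynomial.totalDegree_X]
    omega
  have h1 := few hd (J := (k * d + 1) ^ d) rfl φ hφd
  have h2 := (EuclideanSpace.volume_preserving_symm_measurableEquiv_toLp (Fin d)).quasiMeasurePreserving.ae h1
  filter_upwards [h2] with y hy
  refine le_trans ?_ hy
  have hinj : Function.Injective (fun v : Vec d => (fun i => v i : Fin d → ℝ)) := by
    intro v w h
    ext i
    exact congr_fun h i
  rw [← hinj.encard_image]
  apply Set.encard_le_encard
  rintro _ ⟨v, ⟨_, _, hv, _⟩, rfl⟩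
  intro i
  rw [hφ]
  simp only [map_add, map_mul, MvPolynomial.eval_C, MvPolynomial.eval_X]
  rw [← hv]
  rfl

end Pool.Agent.H810R3.Tub
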