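import Pool.Agent.H810R3.Tub.Box

set_option autoImplicit false

/-! Integrals of sums of indicators of boxes. -/

open MeasureTheory Set Filter Topology ENNReal NNReal Metric

namespace Pool.Agent.H810R3.Tub

variable {d : ℕ}

/-- The sum of the indicators of the boxes. -/
noncomputable def Fb {ι : Type} [Fintype ι] (N : ℝ) (ω : ι → Vec d) (f : ι → Fin d → Space d)
    (a : ι → Space d) (y : Space d) : ℝ≥0∞ :=
  ∑ i, (box N (nor (ω i)) (f i) (a i)).indicator (fun _ => (1 : ℝ≥0∞)) y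

theorem Fb_measurable {ι : Type} [Fintype ι] (N : ℝ) (ω : ι → Vec d) (f : ι → Fin d → Space d)
    (a : ι → Space d) : Measurable (Fb N ω f a) := by
  apply Finset.measurable_fun_sum
  intro i _
  exact measurable_const.indicator (box_closed _ _ _ _).measurableSet

theorem Fb_le {ι : Type} [Fintype ι] (N : ℝ) (ω : ι → Vec d) (f : ι → Fin d → Space d)
    (a : ι → Space d) (y : Space d) : Fb N ω f a y ≤ Fintype.card ι := by
  unfold Fb
  calc ∑ i, (box N (nor (ω i)) (f i) (a i)).indicator (fun _ => (1 : ℝ≥0∞)) y ≤ ∑ _i : ι, 1 :=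
        Finset.sum_le_sum fun i _ => indicator_le_self' (fun _ _ => zero_le_one) y
    _ = Fintype.card ι := by simp

/-- Change of variables. -/
theorem lint_smul {E : Type*} [NormedAddCommGroup E] [NormedSpace ℝ E] [FiniteDimensional ℝ E]
    [MeasurableSpace E] [BorelSpace E] (μ : Measure E) [μ.IsAddHaarMeasure] {r : ℝ} (hr : r ≠ 0)
    (g : E → ℝ≥0∞) : ∫⁻ x, g (r • x) ∂μ = ENNReal.ofReal |(r ^ Module.finrank ℝ E)⁻¹| * ∫⁻ x, g x ∂μ := by
  have h1 : ∫⁻ x, g (r • x) ∂μ = ∫⁻ x, g x ∂(Measure.map (r • ·) μ) := by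
    have := lintegral_map_equiv (μ := μ) g (Homeomorph.smulOfNeZero r hr).toMeasurableEquiv
    exact this.symm
  rw [h1, Measure.map_addHaar_smul μ hr, lintegral_smul_measure, smul_eq_mul]

/-- The `q`-th moment of a sum of boxes with axes in a polynomial family. -/
theorem push (d : ℕ) (hd : 1 ≤ d) (q : ℝ) (hq : ((d : ℝ) + 1) / d < q) (k : ℕ) (σ : ℝ) (hσ : 0 < σ)
    (hσ1 : σ ≤ 1) :
    ∃ E : ℝ, 0 < E ∧ ∀ (L K S : ℝ≥0) (R : Fin d → MvPolynomial (Fin d) ℝ),
      (∀ j, (R j).totalDegree ≤ k) → LipschitzOnWith L (pmap R) (ball 0 2) →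
      ∀ N : ℝ, 1 ≤ N → ∀ (ι : Type) [Fintype ι] [Nonempty ι] (ω β : ι → Vec d) (s : ι → ℝ)
        (f : ι → Fin d → Space d),
        (∀ i, ‖ω i‖ ≤ 1) → (∀ i j, i ≠ j → σ / N ≤ ‖ω i - ω j‖) →
        (∀ i, Orthonormal ℝ (Fin.cons (nor (ω i)) (f i) : Fin (d + 1) → Space d)) →
        (∀ i, |s i| ≤ S * N ^ 2) → (∀ i, ‖β i - N ^ 2 • pmap R (ω i)‖ ≤ K * N) →
        ∫⁻ y, Fb N ω f (fun i => WithLp.toLp 2 (β i + s i • (-(2 : ℝ) • ω i), s i)) y ^ q
          ≤ ENNReal.ofReal (E * ((1 + K + L + S : ℝ) ^ d) ^ q * N ^ (d + 2) *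
              (Fintype.card ι : ℝ) ^ (q - 1 / d)) := by
  obtain ⟨E, hE0, hE⟩ := int_poly d hd q hq k
  have hd0 : (0 : ℝ) < d := by exact_mod_cast hd
  have hq0 : 0 < q := lt_trans (by positivity) hq
  refine ⟨2 ^ d * ((1 + d) / σ) ^ (d + 1) * E * (σ / 2) ^ d, by positivity, ?_⟩
  intro L K S R hR hL N hN ι _ _ ω β s f hω hsep hf hs hβ
  have hL0 : (0 : ℝ) ≤ L := L.2
  have hK0 : (0 : ℝ) ≤ K := K.2
  have hS0 : (0 : ℝ) ≤ S := S.2
  have hN0 : 0 < N := by linarith
  set c : ℝ := σ / ((1 + d) * N ^ 2) with hc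
  have hc0 : 0 < c := by positivity
  set δ : ℝ := σ / (2 * N) with hδ
  have hδ0 : 0 < δ := by positivity
  have hδ1 : δ < 1 := by
    rw [hδ, div_lt_one (by positivity)]
    linarith
  have hcN : c * N ^ 2 = σ / (1 + d) := by
    rw [hc]; field_simp
  have hc1 : c * (N ^ 2 / 2 + d * N / 2) ≤ 1 / 2 := by
    have h1 : N ^ 2 / 2 + d * N / 2 ≤ (1 + d) * N ^ 2 / 2 := by
      nlinarith [mul_nonneg hd0.le (sub_nonneg.2 hN)]
    calc c * (N ^ 2 / 2 + d * N / 2) ≤ c * ((1 + d) * N ^ 2 / 2) := mul_le_mul_of_nonneg_left h1 hc0.le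
      _ = (c * N ^ 2) * (1 + d) / 2 := by ring
      _ = σ / 2 := by rw [hcN]; field_simp
      _ ≤ 1 / 2 := by linarith
  have hc2 : c * (d * N / 2) ≤ δ := by
    have h1 : c * (d * N / 2) = (σ / (2 * N)) * (d / (1 + d)) := by
      rw [hc]; field_simp
    rw [h1, hδ]
    have h2 : (d : ℝ) / (1 + d) ≤ 1 := by
      rw [div_le_one (by positivity)]; linarith
    calc σ / (2 * N) * (d / (1 + d)) ≤ σ / (2 * N) * 1 := mul_le_mul_of_nonneg_left h2 (by positivity)
      _ = _ := mul_one _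
  set P : Fin d → MvPolynomial (Fin d) ℝ := fun j => MvPolynomial.C (-(c / 2) * N ^ 2) * R j with hP
  have hPd : ∀ j, (P j).totalDegree ≤ k := by
    intro j
    refine (MvPolynomial.totalDegree_mul _ _).trans ?_
    rw [MvPolynomial.totalDegree_C, zero_add]
    exact hR j
  have hPm : ∀ v, pmap P v = (-(c / 2) * N ^ 2) • pmap R v := by
    intro v
    ext j
    show MvPolynomial.eval (fun i => v i) (P j) = _
    rw [hP]
    simp only [map_mul, MvPolynomial.eval_C]
    rfl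
  have hPc : |-(c / 2) * N ^ 2| ≤ 1 := by
    have : -(c / 2) * N ^ 2 = -(c * N ^ 2 / 2) := by ring
    rw [this, abs_neg, hcN, abs_of_nonneg (by positivity), div_div, div_le_one (by positivity)]
    linarith
  have hPL : LipschitzOnWith L (pmap P) (ball 0 2) := by
    apply LipschitzOnWith.of_dist_le_mul
    intro x hx y hy
    have h1 := hL.dist_le_mul x hx y hy
    rw [hPm, hPm, dist_smul₀, Real.norm_eq_abs]
    calc |-(c / 2) * N ^ 2| * dist (pmap R x) (pmap R y) ≤ 1 * dist (pmap R x) (pmap R y) :=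
          mul_le_mul_of_nonneg_right hPc dist_nonneg
      _ ≤ _ := by rw [one_mul]; exact h1
  have hcS : c * N ^ 2 ≤ 1 := by
    rw [hcN, div_le_one (by positivity)]
    linarith
  have key := hE L K S P hPd hPL δ hδ0 hδ1 ι ω (fun i => -(c / 2) • β i) (fun i => c * s i) hω
    (fun i => by
      rw [abs_mul, abs_of_pos hc0]
      calc c * |s i| ≤ c * (S * N ^ 2) := mul_le_mul_of_nonneg_left (hs i) hc0.le
        _ = S * (c * N ^ 2) := by ring
        _ ≤ S * 1 := mul_le_mul_of_nonneg_left hcS hS0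
        _ = S := mul_one _)
    (fun i => by
      have e : -(c / 2) • β i - pmap P (ω i) = -(c / 2) • (β i - N ^ 2 • pmap R (ω i)) := by
        rw [hPm, smul_sub, smul_smul]
      rw [e, norm_smul, norm_neg, Real.norm_of_nonneg (by positivity)]
      calc c / 2 * ‖β i - N ^ 2 • pmap R (ω i)‖ ≤ c / 2 * (K * N) :=
            mul_le_mul_of_nonneg_left (hβ i) (by positivity)
        _ = K * ((c * N ^ 2) / (2 * N)) := by field_simp
        _ ≤ K * δ := by
            apply mul_le_mul_of_nonneg_left _ hK0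
            rw [hδ, hcN]
            apply div_le_div_of_nonneg_right _ (by positivity)
            rw [div_le_iff₀ (by positivity)]
            nlinarith)
    (fun i j hij => by
      refine le_trans ?_ (hsep i j hij)
      rw [hδ]
      apply div_le_div_of_nonneg_left hσ.le hN0
      linarith)
  set a : ι → Space d := fun i => WithLp.toLp 2 (β i + s i • (-(2 : ℝ) • ω i), s i) with ha
  have hpt : ∀ (x : Vec d) (t : ℝ), Fb N ω f a (WithLp.toLp 2 (x, t)) ≤
      Fe δ ω (fun i => -(c / 2) • β i) (fun i => c * s i) (-(c / 2) • x) (c * t) := by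
    intro x t
    unfold Fb Fe
    refine Finset.sum_le_sum fun i _ => ?_
    by_cases hm : (WithLp.toLp 2 (x, t) : Space d) ∈ box N (nor (ω i)) (f i) (a i)
    · have h1 := scl_box hN hc0 hc1 hc2 (hf i) hm
      have e1 : scl c (WithLp.toLp 2 (x, t) : Space d) = WithLp.toLp 2 (-(c / 2) • x, c * t) := rfl
      have e2 : scl c (a i) = WithLp.toLp 2 (-(c / 2) • β i + (c * s i) • ω i, c * s i) := by
        show (WithLp.toLp 2 (-(c / 2) • (β i + s i • (-(2 : ℝ) • ω i)), c * s i) : Space d) = _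
        congr 1
        refine Prod.ext ?_ rfl
        show -(c / 2) • (β i + s i • (-(2 : ℝ) • ω i)) = -(c / 2) • β i + (c * s i) • ω i
        rw [smul_add, smul_smul, smul_smul]
        congr 2
        ring
      rw [e1, e2] at h1
      rw [indicator_of_mem hm, indicator_of_mem h1]
    · rw [indicator_of_notMem hm]
      exact zero_le
  have hmp := WithLp.volume_preserving_toLp (Vec d) ℝ
  have hg : Measurable (fun y : Space d => Fb N ω f a y ^ q) := (Fb_measurable N ω f a).pow_const _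
  have hS : ∫⁻ y : Space d, Fb N ω f a y ^ q = ∫⁻ t : ℝ, ∫⁻ x : Vec d, Fb N ω f a (WithLp.toLp 2 (x, t)) ^ q := by
    rw [← hmp.lintegral_comp hg]
    have hg2 : Measurable (fun p : Vec d × ℝ => Fb N ω f a (WithLp.toLp 2 p) ^ q) := hg.comp hmp.measurable
    rw [Measure.volume_eq_prod, lintegral_prod_symm _ hg2.aemeasurable]
  rw [hS]
  have hc2' : -(c / 2) ≠ 0 := by
    have : 0 < c / 2 := by positivity
    linarith
  calc ∫⁻ t : ℝ, ∫⁻ x : Vec d, Fb N ω f a (WithLp.toLp 2 (x, t)) ^ q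
      ≤ ∫⁻ t : ℝ, ∫⁻ x : Vec d, Fe δ ω (fun i => -(c / 2) • β i) (fun i => c * s i) (-(c / 2) • x) (c * t) ^ q :=
        lintegral_mono fun t => lintegral_mono fun x => ENNReal.rpow_le_rpow (hpt x t) hq0.le
    _ = ∫⁻ t : ℝ, ENNReal.ofReal |((-(c / 2)) ^ d)⁻¹| *
          ∫⁻ x : Vec d, Fe δ ω (fun i => -(c / 2) • β i) (fun i => c * s i) x (c • t) ^ q := by
        refine lintegral_congr fun t => ?_
        rw [lint_smul volume hc2'
          (fun x => Fe δ ω (fun i => -(c / 2) • β i) (fun i => c * s i) x (c * t) ^ q),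
          finrank_euclideanSpace_fin, smul_eq_mul]
    _ = ENNReal.ofReal |((-(c / 2)) ^ d)⁻¹| * (ENNReal.ofReal |(c ^ 1)⁻¹| *
          ∫⁻ t : ℝ, ∫⁻ x : Vec d, Fe δ ω (fun i => -(c / 2) • β i) (fun i => c * s i) x t ^ q) := by
        rw [lintegral_const_mul' _ _ ENNReal.ofReal_ne_top, lint_smul volume hc0.ne'
          (fun t : ℝ => ∫⁻ x : Vec d, Fe δ ω (fun i => -(c / 2) • β i) (fun i => c * s i) x t ^ q),
          Module.finrank_self]
    _ ≤ ENNReal.ofReal |((-(c / 2)) ^ d)⁻¹| * (ENNReal.ofReal |(c ^ 1)⁻¹| *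
          ENNReal.ofReal (E * ((1 + K + L + S : ℝ) ^ d) ^ q * δ ^ d * (Fintype.card ι : ℝ) ^ (q - 1 / d))) := by
        gcongr
    _ = ENNReal.ofReal (2 ^ d * ((1 + d) / σ) ^ (d + 1) * E * (σ / 2) ^ d * ((1 + K + L + S : ℝ) ^ d) ^ q *
          N ^ (d + 2) * (Fintype.card ι : ℝ) ^ (q - 1 / d)) := by
        rw [← ENNReal.ofReal_mul (abs_nonneg _), ← ENNReal.ofReal_mul (abs_nonneg _)]
        congr 1
        have e1 : |((-(c / 2)) ^ d)⁻¹| = 2 ^ d * ((1 + d) / σ) ^ d * N ^ (2 * d) := by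
          rw [abs_inv, abs_pow, abs_neg, abs_of_pos (by positivity : 0 < c / 2), hc, ← inv_pow]
          have : (σ / ((1 + d) * N ^ 2) / 2)⁻¹ = 2 * ((1 + d) / σ) * N ^ 2 := by
            field_simp
          rw [this, mul_pow, mul_pow, ← pow_mul]
        have e2 : |(c ^ 1)⁻¹| = ((1 + d) / σ) * N ^ 2 := by
          rw [pow_one, abs_inv, abs_of_pos hc0, hc]
          field_simp
        have e3 : δ ^ d * N ^ d = (σ / 2) ^ d := by
          rw [← mul_pow, hδ]
          congr 1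
          field_simp
        rw [e1, e2]
        calc 2 ^ d * ((1 + (d : ℝ)) / σ) ^ d * N ^ (2 * d) * (((1 + d) / σ) * N ^ 2 *
              (E * ((1 + K + L + S : ℝ) ^ d) ^ q * δ ^ d * (Fintype.card ι : ℝ) ^ (q - 1 / d)))
            = 2 ^ d * ((1 + (d : ℝ)) / σ) ^ (d + 1) * E * (δ ^ d * N ^ d) * ((1 + K + L + S : ℝ) ^ d) ^ q *
              N ^ (d + 2) * (Fintype.card ι : ℝ) ^ (q - 1 / d) := by
              rw [pow_succ ((1 + (d : ℝ)) / σ) d, show 2 * d = d + d by ring, pow_add N d d, pow_add N d 2]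
              ring
          _ = _ := by rw [e3]

end Pool.Agent.H810R3.Tub
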