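import Pool.Agent.H810R3.Tub.Bounds

set_option autoImplicit false

/-! The integral bound for tubes with separated parameters. -/

open MeasureTheory Set Filter Topology ENNReal NNReal Metric

namespace Pool.Agent.H810R3.Tub

theorem int_aux (d : ℕ) (hd : 1 ≤ d) (q : ℝ) (hq : ((d : ℝ) + 1) / d < q) :
    ∃ E : ℝ, 0 < E ∧ ∀ (L K S : ℝ≥0) (M : ℕ) (b : Vec d → Vec d), LipschitzWith L b → FewPre M b →
      ∀ δ : ℝ, 0 < δ → δ < 1 → ∀ (ι : Type) [Fintype ι] [Nonempty ι] (v β : ι → Vec d) (s : ι → ℝ),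
        (∀ i, ‖v i‖ ≤ 1) → (∀ i, |s i| ≤ S) → (∀ i, ‖β i - b (v i)‖ ≤ K * δ) →
        (∀ i j, i ≠ j → δ ≤ ‖v i - v j‖) → ∀ X : ℝ, 1 ≤ X → 2 * (4 + K + L + S) ≤ X →
        ∫⁻ t : ℝ, ∫⁻ x : Vec d, Fe δ v β s x t ^ q
          ≤ ENNReal.ofReal ((E * (1 + M : ℝ) ^ (q - 1) * (X ^ d) ^ q) * δ ^ d *
              (Fintype.card ι : ℝ) ^ (q - 1 / d)) := by
  have hd0 : (0 : ℝ) < d := by exact_mod_cast hd
  have hq0 : 0 < q := lt_trans (by positivity) hq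
  have hdq : (d : ℝ) + 1 < q * d := by rwa [div_lt_iff₀ hd0] at hq
  have hr : 1 < (d : ℝ) * (q - 1) := by nlinarith
  have hq1 : 0 < q - 1 := by
    by_contra hcon
    push Not at hcon
    nlinarith
  set E : ℝ := d * (2 * (d * (q - 1)) / (d * (q - 1) - 1)) * ((1 / 2) ^ d * om d) with hE
  have hc0 : 0 < 2 * (d * (q - 1)) / (d * (q - 1) - 1) := div_pos (by linarith) (by linarith)
  have hE0 : 0 < E := by
    have := om_pos (d := d)
    positivity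
  refine ⟨E, hE0, ?_⟩
  intro L K S M b hb hM δ hδ hδ1 ι _ _ v β s hv hs hβ hsep' X hX1 hX
  have hL0 : (0 : ℝ) ≤ L := L.2
  have hK0 : (0 : ℝ) ≤ K := K.2
  have hS0 : (0 : ℝ) ≤ S := S.2
  have hM0 : (0 : ℝ) ≤ M := Nat.cast_nonneg _
  have hX0 : 0 < X := by linarith
  have hN1 : (1 : ℝ) ≤ (Fintype.card ι : ℝ) := by
    have := Fintype.card_pos (α := ι)
    exact_mod_cast this
  set N : ℝ := (Fintype.card ι : ℝ) with hN
  have hN0 : 0 < N := by linarith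
  have hint := main_int hd hb hM hδ hδ1 v β s hv hs hβ hsep' hN hN1 hr
  rw [sub_add_cancel] at hint
  have hval : (M * (2 * (4 + K + L + S)) ^ d + 1 : ℝ) ^ (q - 1) * (2 * (4 + K + L + S)) ^ d * d *
        (2 * (d * (q - 1)) / (d * (q - 1) - 1)) * ((δ / 2) ^ d * om d) *
        (N * (N⁻¹ ^ ((d : ℝ)⁻¹)) ^ (1 - d * (q - 1))) ≤
      (E * (1 + M : ℝ) ^ (q - 1) * (X ^ d) ^ q) * δ ^ d * N ^ (q - 1 / d) := by
    have e1 : N * (N⁻¹ ^ ((d : ℝ)⁻¹)) ^ (1 - d * (q - 1)) = N ^ (q - 1 / d) := by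
      rw [Real.inv_rpow hN0.le, ← Real.rpow_neg hN0.le, ← Real.rpow_mul hN0.le]
      nth_rewrite 1 [← Real.rpow_one N]
      rw [← Real.rpow_add hN0]
      congr 1
      field_simp
      ring
    have e2 : (2 * (4 + K + L + S) : ℝ) ^ d ≤ X ^ d := by
      apply pow_le_pow_left₀ (by positivity) hX
    have e3 : (M * (2 * (4 + K + L + S)) ^ d + 1 : ℝ) ≤ (1 + M) * X ^ d := by
      have h1 : (1 : ℝ) ≤ X ^ d := one_le_pow₀ hX1
      nlinarith [mul_le_mul_of_nonneg_left e2 hM0]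
    have e4 : (M * (2 * (4 + K + L + S)) ^ d + 1 : ℝ) ^ (q - 1) ≤
        (1 + M : ℝ) ^ (q - 1) * (X ^ d) ^ (q - 1) := by
      rw [← Real.mul_rpow (by positivity) (by positivity)]
      exact Real.rpow_le_rpow (by positivity) e3 hq1.le
    have e5 : (X ^ d : ℝ) ^ q = (X ^ d) ^ (q - 1) * X ^ d := by
      conv_lhs => rw [← sub_add_cancel q 1]
      rw [Real.rpow_add_one (by positivity)]
    have hom := om_pos (d := d)
    have hE' : (d : ℝ) * (2 * (d * (q - 1)) / (d * (q - 1) - 1)) * ((δ / 2) ^ d * om d) = E * δ ^ d := by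
      rw [hE, div_pow, div_pow, one_pow]
      ring
    rw [e1]
    calc (M * (2 * (4 + K + L + S)) ^ d + 1 : ℝ) ^ (q - 1) * (2 * (4 + K + L + S)) ^ d * d *
        (2 * (d * (q - 1)) / (d * (q - 1) - 1)) * ((δ / 2) ^ d * om d) * N ^ (q - 1 / d)
        = ((M * (2 * (4 + K + L + S)) ^ d + 1 : ℝ) ^ (q - 1) * (2 * (4 + K + L + S)) ^ d) *
          (d * (2 * (d * (q - 1)) / (d * (q - 1) - 1)) * ((δ / 2) ^ d * om d)) * N ^ (q - 1 / d) := by ring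
      _ ≤ (((1 + M : ℝ) ^ (q - 1) * (X ^ d) ^ (q - 1)) * X ^ d) *
          (d * (2 * (d * (q - 1)) / (d * (q - 1) - 1)) * ((δ / 2) ^ d * om d)) * N ^ (q - 1 / d) := by
          gcongr
      _ = (E * (1 + M : ℝ) ^ (q - 1) * (X ^ d) ^ q) * δ ^ d * N ^ (q - 1 / d) := by
          rw [hE', e5]
          ring
  exact hint.trans (ENNReal.ofReal_le_ofReal hval)

/-- The integral bound for polynomial families. -/
theorem int_poly (d : ℕ) (hd : 1 ≤ d) (q : ℝ) (hq : ((d : ℝ) + 1) / d < q) (k : ℕ) :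
    ∃ E : ℝ, 0 < E ∧ ∀ (L K S : ℝ≥0) (P : Fin d → MvPolynomial (Fin d) ℝ),
      (∀ j, (P j).totalDegree ≤ k) → LipschitzOnWith L (pmap P) (ball 0 2) →
      ∀ δ : ℝ, 0 < δ → δ < 1 → ∀ (ι : Type) [Fintype ι] [Nonempty ι] (v β : ι → Vec d) (s : ι → ℝ),
        (∀ i, ‖v i‖ ≤ 1) → (∀ i, |s i| ≤ S) → (∀ i, ‖β i - pmap P (v i)‖ ≤ K * δ) →
        (∀ i j, i ≠ j → δ ≤ ‖v i - v j‖) →
        ∫⁻ t : ℝ, ∫⁻ x : Vec d, Fe δ v β s x t ^ q
          ≤ ENNReal.ofReal (E * ((1 + K + L + S : ℝ) ^ d) ^ q * δ ^ d *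
              (Fintype.card ι : ℝ) ^ (q - 1 / d)) := by
  obtain ⟨D, hD0, hD⟩ := int_aux d hd q hq
  set c : ℝ≥0 := lipschitzExtensionConstant (Vec d) with hc
  have hc0 : (0 : ℝ) ≤ c := c.2
  refine ⟨D * (1 + (((max k 1 * d + 1) ^ d) ^ d : ℕ) : ℝ) ^ (q - 1) * ((8 * (1 + c) : ℝ) ^ d) ^ q,
    by positivity, ?_⟩
  intro L K S P hP hb δ hδ hδ1 ι _ _ v β s hv hs hβ hsep
  have hL0 : (0 : ℝ) ≤ L := L.2
  have hK0 : (0 : ℝ) ≤ K := K.2
  have hS0 : (0 : ℝ) ≤ S := S.2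
  obtain ⟨g, hg1, hg2⟩ := hb.extend_finite_dimension
  have hM := pmap_few hd (le_max_right k 1) P (fun j => (hP j).trans (le_max_left k 1))
  have hgM := fewPre_congr hg2 hM
  have hβ' : ∀ i, ‖β i - g (v i)‖ ≤ K * δ := by
    intro i
    rw [← hg2 (show v i ∈ ball (0 : Vec d) 2 by
      rw [mem_ball, dist_zero_right]
      linarith [hv i])]
    exact hβ i
  have key := hD (lipschitzExtensionConstant (Vec d) * L) K S _ g hg1 hgM δ hδ hδ1 ι v β s hv hs hβ' hsep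
    (8 * (1 + c) * (1 + K + L + S)) (by nlinarith [mul_nonneg hc0 (show (0:ℝ) ≤ 1 + K + L + S by positivity)])
    (by
      rw [← hc]
      push_cast
      nlinarith [mul_nonneg hc0 hL0, mul_nonneg hc0 hK0, mul_nonneg hc0 hS0])
  refine key.trans (le_of_eq ?_)
  congr 1
  rw [mul_pow (8 * (1 + (c : ℝ))) (1 + K + L + S : ℝ) d, Real.mul_rpow (by positivity) (by positivity)]
  ring

end Pool.Agent.H810R3.Tub
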